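import Pool.Agent.H68.X.Good

/-!
# The solutions of the system and the classes of the problem
-/

set_option autoImplicit false

open scoped Classical

namespace Pool.Agent.H68.X

open Finset Module Pool.Agent.H68.A Filter
open Pool.Agent.R413.TI (CL)
open Q44.TK (Fm hF hF_pos hF_mul hF_sum hF_eq hF_one Fm_two)
open Q44.BN (jv jc jc_hF jc_prime jv_prime jac_pm hF_surj hF_mod ne_zero_of_cop odd_of_cop GG JJ UU
  sgn mem_JJ JJ_sub JJ_prime UU_add UU_zero UU_sqf UU_ne UU_dvd UU_dvd' UU_inj UU_sq_zero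
  UU_surj sgn_abs jv_neg_one N2 Ac Pa ac_or_pa nd_B Row Sup Cl nec suf uniq)
open Q44.TI (pd padic_sq padic_sq2 ch ch_zero nr_ch ch_mul cop_mod ch_sq fd SelS Loc pd_pos)
open Pool.Agent.Y703.CQ (nr)
open Q44.BM (vm nr_rec RC Fam Sys HM GT SS)

variable {T : Finset ℕ} {m : ℕ} {A B : ℤ}

/-- the indicator function -/
noncomputable def ind (J : Finset ℕ) (q : ℕ) : ZMod 2 := if q ∈ J then 1 else 0

theorem sum_ind {S J : Finset ℕ} (hJ : J ⊆ S) (f : ℕ → ZMod 2) :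
    ∑ q ∈ S, f q * ind J q = ∑ q ∈ J, f q := by
  unfold ind
  simp only [mul_ite, mul_one, mul_zero]
  rw [← sum_filter]
  refine sum_congr ?_ fun _ _ => rfl
  ext q
  rw [mem_filter]
  exact ⟨fun h => h.2, fun h => ⟨hJ h, h⟩⟩

theorem sum_ind' {S J : Finset ℕ} (f : ℕ → ZMod 2) :
    ∑ q ∈ S, f q * (ind J q + 1) = ∑ q ∈ S \ J, f q := by
  have e : ∀ q, f q * (ind J q + 1) = if q ∉ J then f q else 0 := by
    intro q
    unfold ind
    by_cases h : q ∈ J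
    · rw [if_pos h, if_neg (not_not.2 h)]
      have : (1 : ZMod 2) + 1 = 0 := by decide
      rw [this, mul_zero]
    · rw [if_neg h, if_pos h, zero_add, mul_one]
  simp only [e]
  rw [← sum_filter]
  refine sum_congr ?_ fun _ _ => rfl
  ext q
  rw [mem_filter, Finset.mem_sdiff]

theorem Ex.clS (h : Ex T m A B) {S : Finset ℕ} (hS : ∀ p ∈ S, h.rc.Φ.P p) : Cl A B S := by
  intro p hp
  obtain ⟨h1, h2⟩ := (h.P_iff p).1 (hS p hp)
  exact ac_or_pa h.hsq h1 (h.nd h1 h2)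

/-- the class of the active part -/
theorem Ex.sum_cls (h : Ex T m A B) {S J : Finset ℕ} (hJ : ∀ q ∈ J, q ∈ S ∧ Ac A B q) :
    ((∑ q ∈ S, ind J q • h.h0 q : h.F) : Fm m) = hF m (∏ q ∈ J, q) := by
  have hc : ∀ q ∈ J, q.Coprime m := fun q hq => by
    have h1 := (h.A_iff q).1 ((h.A_ac q).2 (hJ q hq).2)
    exact (h.notMem_iff h1.1).1 h1.2.1
  rw [← hF_sum J hc, AddSubmonoidClass.coe_finsetSum]
  have e : ∀ q, ((ind J q • h.h0 q : h.F) : Fm m) = if q ∈ J then hF m q else 0 := by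
    intro q
    unfold ind
    by_cases hq : q ∈ J
    · rw [if_pos hq, if_pos hq, one_smul]
      exact h.h0_pos ((h.A_iff q).1 ((h.A_ac q).2 (hJ q hq).2)).2.2
    · rw [if_neg hq, if_neg hq, zero_smul]
      rfl
  simp only [e]
  rw [← sum_filter]
  refine sum_congr ?_ fun _ _ => rfl
  ext q
  rw [mem_filter]
  exact ⟨fun h => h.2, fun h => ⟨(hJ q h).1, h⟩⟩

/-- the solutions -/
theorem Ex.sel_iff (h : Ex T m A B) {D : ℤ} (hD : D ≠ 0) {S J : Finset ℕ}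
    (hJ : ∀ q ∈ J, q ∈ S ∧ Ac A B q) (g : GG T) :
    (ind J, g) ∈ (h.sf (WW h.md A h.hB hD)).Sel S ↔
      Row A B S J (UU g) ∧ Wl T A B D (UU g * (∏ q ∈ J, q : ℕ)) := by
  have hJS : J ⊆ S := fun q hq => (hJ q hq).1
  have hcJ : (∏ q ∈ J, q).Coprime m := Nat.Coprime.prod_left fun q hq => by
    have h1 := (h.A_iff q).1 ((h.A_ac q).2 (hJ q hq).2)
    exact (h.notMem_iff h1.1).1 h1.2.1
  have hχ : ∀ p, Ac A B p → chi h.md g (h.h0 p : Fm m) = ch ((UU g : ℤ) : ZMod p) := by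
    intro p hp
    obtain ⟨h1, h2, h3⟩ := (h.A_iff p).1 ((h.A_ac p).2 hp)
    rw [h.h0_pos h3, chi_prime h.md g h1 h2]
  have hcls : ((g, ∑ q ∈ S, ind J q • h.h0 q) ∈ (h.sf (WW h.md A h.hB hD)).𝓛) ↔
      Wl T A B D (UU g * (∏ q ∈ J, q : ℕ)) := by
    rw [← mem_WW h.md hcJ (hB := h.hB) (hD := hD), ← h.sum_cls hJ]
    rfl
  rw [Sys.mem_Sel]
  constructor
  · rintro ⟨h1, h2, h3⟩
    refine ⟨⟨fun i hi hA hiJ => ?_, fun i hi => ?_⟩, hcls.1 h3⟩
    · have h4 := h2 i hi ((h.A_ac i).2 hA)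
      have h5 : ∑ q ∈ S, nr i q * (ind J q + ind J i) + fd A B i * ind J i +
          chi h.md g (h.h0 i : Fm m) = 0 := h4
      have h6 : ind J i = 0 := if_neg hiJ
      rw [h6] at h5
      simp only [add_zero, mul_zero] at h5
      rw [sum_ind hJS, hχ i hA] at h5
      rw [add_comm]
      exact h5
    · have hA := (hJ i hi).2
      have h4 := h2 i (hJ i hi).1 ((h.A_ac i).2 hA)
      have h5 : ∑ q ∈ S, nr i q * (ind J q + ind J i) + fd A B i * ind J i +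
          chi h.md g (h.h0 i : Fm m) = 0 := h4
      have h6 : ind J i = 1 := if_pos hi
      rw [h6, sum_ind', mul_one, hχ i hA] at h5
      linear_combination h5
  · rintro ⟨⟨h1, h2⟩, h3⟩
    refine ⟨fun p hp => ?_, fun i hi hA => ?_, hcls.2 h3⟩
    · refine if_neg fun hpJ => hp ⟨hJS hpJ, (h.A_ac p).2 (hJ p hpJ).2⟩
    · have hA' := (h.A_ac i).1 hA
      show ∑ q ∈ S, nr i q * (ind J q + ind J i) + fd A B i * ind J i +
          chi h.md g (h.h0 i : Fm m) = 0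
      rw [hχ i hA']
      by_cases hiJ : i ∈ J
      · have h6 : ind J i = 1 := if_pos hiJ
        rw [h6, sum_ind', mul_one]
        have := h2 i hiJ
        linear_combination this
      · have h6 : ind J i = 0 := if_neg hiJ
        rw [h6]
        simp only [add_zero, mul_zero]
        rw [sum_ind hJS, add_comm]
        exact h1 i hi hA' hiJ

/-- the unknowns are indicator functions -/
theorem Ex.sel_ind (h : Ex T m A B) {W : Submodule (ZMod 2) (GG T × Fm m)} {S : Finset ℕ}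
    {w : (ℕ → ZMod 2) × GG T} (hw : w ∈ (h.sf W).Sel S) :
    ∃ J : Finset ℕ, (∀ q ∈ J, q ∈ S ∧ Ac A B q) ∧ w.1 = ind J := by
  obtain ⟨h1, -, -⟩ := Sys.mem_Sel.1 hw
  refine ⟨S.filter fun q => w.1 q ≠ 0, fun q hq => ?_, funext fun q => ?_⟩
  · obtain ⟨h2, h3⟩ := mem_filter.1 hq
    refine ⟨h2, ?_⟩
    by_contra hA
    exact h3 (h1 q fun h4 => hA ((h.A_ac q).1 h4.2))
  · unfold ind
    by_cases hq : q ∈ S.filter fun q => w.1 q ≠ 0
    · rw [if_pos hq]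
      have : ∀ x : ZMod 2, x ≠ 0 → x = 1 := by decide
      exact this _ (mem_filter.1 hq).2
    · rw [if_neg hq]
      by_contra hne
      refine hq (mem_filter.2 ⟨?_, hne⟩)
      by_contra hqS
      exact hne (h1 q fun h4 => hqS h4.1)

theorem ind_inj {J J' : Finset ℕ} (h : ind J = ind J') : J = J' := by
  ext q
  have h1 := congrFun h q
  unfold ind at h1
  by_cases h2 : q ∈ J <;> by_cases h3 : q ∈ J'
  · exact ⟨fun _ => h3, fun _ => h2⟩
  · rw [if_pos h2, if_neg h3] at h1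
    exact absurd h1 one_ne_zero
  · rw [if_neg h2, if_pos h3] at h1
    exact absurd h1.symm one_ne_zero
  · exact ⟨fun h => absurd h h2, fun h => absurd h h3⟩

/-- the two forms of the conditions at the bad places -/
theorem Ex.Lb_iff (h : Ex T m A B) {D z : ℤ} (hD : D ≠ 0) (hz : z ≠ 0) :
    Q44.BN.Lb A B D z ↔ Wl T A B D z := by
  have hb : B * D ^ 2 ≠ 0 := mul_ne_zero h.hB (pow_ne_zero 2 hD)
  have eC : (A * D) ^ 2 - 4 * (B * D ^ 2) = (A ^ 2 - 4 * B) * D ^ 2 := by ring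
  have hc0 : (A * D) ^ 2 - 4 * (B * D ^ 2) ≠ 0 := by
    rw [eC]
    exact mul_ne_zero h.hC (pow_ne_zero 2 hD)
  unfold Q44.BN.Lb Wl
  rw [Loc_real_iff hb hc0 hz]
  refine and_congr ⟨fun h1 p hp hpT => ?_, fun h1 p hp hpd => ?_⟩ Iff.rfl
  · exact (Loc_padic hb hc0 hz p).1 (h1 p ((h.hT p hp.out).1 hpT))
  · exact (Loc_padic hb hc0 hz p).2 (h1 p ((h.hT p hp.out).2 hpd))

/-- **the number of the classes** -/
theorem Ex.count (h : Ex T m A B) {D₀ : ℕ} (hD₀ : D₀.Coprime m) (hD₀' : (D₀ : ℤ) ≠ 0) {S : Finset ℕ}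
    (hS : ∀ p ∈ S, h.rc.Φ.P p) (hg : GT (hF m) (hF m D₀) S) :
    (CL (A * pd S) (B * pd S ^ 2)).ncard =
      Nat.card ((h.sf (WW h.md A h.hB hD₀')).Sel S) := by
  have hcl := h.clS hS
  have hSp := hcl.prime
  have hpos := pd_pos hSp
  have hD0 := hpos.ne'
  have hb : B * pd S ^ 2 ≠ 0 := mul_ne_zero h.hB (pow_ne_zero 2 hD0)
  have eC : (A * pd S) ^ 2 - 4 * (B * pd S ^ 2) = (A ^ 2 - 4 * B) * pd S ^ 2 := by ring
  have hc0 : (A * pd S) ^ 2 - 4 * (B * pd S ^ 2) ≠ 0 := by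
    rw [eC]
    exact mul_ne_zero h.hC (pow_ne_zero 2 hD0)
  have hScop : ∀ q ∈ S, q.Coprime m := fun q hq => by
    obtain ⟨h1, h2⟩ := (h.P_iff q).1 (hS q hq)
    exact (h.notMem_iff h1).1 h2
  have hSc : (∏ q ∈ S, q).Coprime m := Nat.Coprime.prod_left hScop
  have hcl' : hF m (∏ q ∈ S, q) = hF m D₀ := by
    rw [← hF_sum S hScop]
    exact hg
  have hWl : ∀ {z : ℤ}, z ≠ 0 → (Wl T A B D₀ z ↔ Wl T A B (pd S) z) := by
    intro z hz
    exact ⟨Wl_D h.md h.hB hD₀ hSc hcl'.symm hz, Wl_D h.md h.hB hSc hD₀ hcl' hz⟩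
  have hpd : ∀ J : Finset ℕ, pd J = ((∏ q ∈ J, q : ℕ) : ℤ) := fun _ => rfl
  have hne : ∀ (g : GG T) {J : Finset ℕ}, (∀ q ∈ J, q ∈ S ∧ Ac A B q) → UU g * pd J ≠ 0 :=
    fun g J hJ => mul_ne_zero (UU_ne h.md.pr g) (pd_pos fun q hq => (hJ q hq).2.pr).ne'
  have hsup : ∀ g : GG T, Sup A B (UU g) := fun g => ⟨UU_sqf h.md.pr g, fun p hp hd =>
    (h.hT p hp).1 (UU_dvd' h.md.pr g hp hd)⟩
  rw [CL_eq hb hc0, ← Nat.card_coe_set_eq]
  symm
  -- the map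
  have hmap : ∀ w : (h.sf (WW h.md A h.hB hD₀')).Sel S,
      ∃ z : SelS (A * pd S) (B * pd S ^ 2), ∃ J : Finset ℕ, (∀ q ∈ J, q ∈ S ∧ Ac A B q) ∧
        w.1.1 = ind J ∧ (z : ℤ) = UU w.1.2 * pd J := by
    intro w
    obtain ⟨J, hJ, hwJ⟩ := h.sel_ind w.2
    have h1 : (ind J, w.1.2) ∈ (h.sf (WW h.md A h.hB hD₀')).Sel S := by
      rw [← hwJ]
      exact w.2
    obtain ⟨h2, h3⟩ := (h.sel_iff hD₀' hJ w.1.2).1 h1
    have h4 : Q44.BN.Lb A B (pd S) (UU w.1.2 * pd J) :=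
      (h.Lb_iff hD0 (hne w.1.2 hJ)).2 ((hWl (hne w.1.2 hJ)).1 h3)
    exact ⟨⟨_, suf h.hB h.hC hcl (hsup w.1.2) hJ h2 h4⟩, J, hJ, hwJ, rfl⟩
  choose f J hJ hwJ hf using hmap
  refine Nat.card_congr (Equiv.ofBijective f ⟨?_, ?_⟩)
  · intro w w' he
    have h1 : UU w.1.2 * pd (J w) = UU w'.1.2 * pd (J w') := by
      rw [← hf w, ← hf w', he]
    obtain ⟨h2, h3⟩ := uniq (hsup _) (hsup _) (fun q hq => (hJ w q hq).2)
      (fun q hq => (hJ w' q hq).2) h1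
    refine Subtype.ext (Prod.ext ?_ (UU_inj h.md.pr h2))
    rw [hwJ w, hwJ w', h3]
  · rintro ⟨z, hz⟩
    obtain ⟨u, K, hu, hK, hR, hL, rfl⟩ := nec h.hB h.hC hcl hz
    obtain ⟨g, rfl⟩ := UU_surj h.md.pr hu.1 fun p hp hd => (h.hT p hp).2 (hu.2 p hp hd)
    have h1 : (ind K, g) ∈ (h.sf (WW h.md A h.hB hD₀')).Sel S :=
      (h.sel_iff hD₀' hK g).2 ⟨hR, (hWl (hne g hK)).2 ((h.Lb_iff hD0 (hne g hK)).1 hL)⟩
    refine ⟨⟨(ind K, g), h1⟩, Subtype.ext ?_⟩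
    rw [hf]
    have h2 := ind_inj (hwJ ⟨(ind K, g), h1⟩)
    rw [← h2]

end Pool.Agent.H68.X
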