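import Pool.Agent.H68.X.Ct

/-!
# The dimensions
-/

set_option autoImplicit false

open scoped Classical

namespace Pool.Agent.H68.X

open Finset Module Pool.Agent.H68.A Filter
open Pool.Agent.R413.TI (CL)
open Q44.TK (Fm hF hF_pos hF_mul hF_sum hF_eq hF_one Fm_two)
open Q44.BN (jv jc jc_hF jc_prime jv_prime jac_pm hF_surj hF_mod ne_zero_of_cop odd_of_cop GG JJ UU
  sgn mem_JJ JJ_sub JJ_prime UU_add UU_zero UU_sqf UU_ne UU_dvd UU_dvd' UU_inj UU_sq_zero
  UU_surj sgn_abs jv_neg_one N2 Ac Pa ac_or_pa nd_B Row Sup Cl nec suf uniq fd_dual)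
open Q44.TI (pd padic_sq padic_sq2 ch ch_zero nr_ch ch_mul cop_mod ch_sq fd SelS Loc pd_pos)
open Pool.Agent.Y703.CQ (nr)
open Q44.BM (vm nr_rec RC Fam Sys HM GT SS)

variable {T : Finset ℕ} {m : ℕ} {A B : ℤ}

/-- the class of `B` satisfies the local conditions -/
theorem Ex.gB_mem (h : Ex T m A B) {D : ℤ} (hD : D ≠ 0) : (h.gB, (0 : Fm m)) ∈ WW h.md A h.hB hD := by
  have e : (h.gB, (0 : Fm m)) = (h.gB, hF m 1) := by rw [hF_one]
  rw [e, mem_WW h.md (Nat.coprime_one_left m), Nat.cast_one, mul_one]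
  obtain ⟨c, hc0, hc⟩ := h.gB_spec
  have hb : B * D ^ 2 ≠ 0 := mul_ne_zero h.hB (pow_ne_zero 2 hD)
  have key : B * D ^ 2 * UU h.gB = (UU h.gB * c * D) * (UU h.gB * c * D) := by
    linear_combination (D ^ 2 * UU h.gB) * hc
  constructor
  · intro p _ _
    refine (W_iff (by exact_mod_cast hb) (by exact_mod_cast UU_ne h.md.pr h.gB)).2
      (Or.inr (Or.inl ⟨((UU h.gB * c * D : ℤ) : ℚ_[p]), ?_⟩))
    exact_mod_cast key
  · refine (W_iff (by exact_mod_cast hb) (by exact_mod_cast UU_ne h.md.pr h.gB)).2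
      (Or.inr (Or.inl ⟨((UU h.gB * c * D : ℤ) : ℝ), ?_⟩))
    exact_mod_cast key

theorem Ex.gB_sel (h : Ex T m A B) {W : Submodule (ZMod 2) (GG T × Fm m)}
    (hW : (h.gB, (0 : Fm m)) ∈ W) (S : Finset ℕ) :
    ((0 : ℕ → ZMod 2), h.gB) ∈ (h.sf W).Sel S := by
  rw [Sys.mem_Sel]
  refine ⟨fun p _ => rfl, fun p hp hA => ?_, ?_⟩
  · show ∑ q ∈ S, nr p q * ((0 : ZMod 2) + 0) + fd A B p * 0 + chi h.md h.gB (h.h0 p : Fm m) = 0
    have h1 : chi h.md h.gB (h.h0 p : Fm m) = 0 := (h.h0 p).2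
    rw [h1]
    simp
  · show (h.gB, ((∑ q ∈ S, (0 : ZMod 2) • h.h0 q : h.F) : Fm m)) ∈ W
    have e : (∑ q ∈ S, (0 : ZMod 2) • h.h0 q : h.F) = 0 := sum_eq_zero fun q _ => zero_smul _ _
    rw [e]
    exact hW

theorem Ex.s0_iff (h : Ex T m A B) (W : Submodule (ZMod 2) (GG T × Fm m)) (S : Finset ℕ)
    (w : (ℕ → ZMod 2) × h.G) : w ∈ (h.s0 W).Sel S ↔ (w.1, (w.2 : GG T)) ∈ (h.sf W).Sel S :=
  Iff.rfl

theorem zm2 (x : ZMod 2) : x = 0 ∨ x = 1 := by
  revert x
  decide

/-- the two systems -/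
theorem Ex.card_sel (h : Ex T m A B) {W : Submodule (ZMod 2) (GG T × Fm m)}
    (hW : (h.gB, (0 : Fm m)) ∈ W) (S : Finset ℕ) :
    Nat.card ((h.sf W).Sel S) = 2 * Nat.card ((h.s0 W).Sel S) := by
  have hB := h.gB_sel hW S
  have h1 : Nat.card (ZMod 2 × (h.s0 W).Sel S) = Nat.card ((h.sf W).Sel S) := by
    refine Nat.card_congr (Equiv.ofBijective (fun t : ZMod 2 × (h.s0 W).Sel S =>
      (⟨(t.2.1.1, (t.2.1.2 : GG T)) + t.1 • ((0 : ℕ → ZMod 2), h.gB),
        Submodule.add_mem _ ((h.s0_iff W S _).1 t.2.2) (Submodule.smul_mem _ _ hB)⟩ :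
        (h.sf W).Sel S)) ⟨?_, ?_⟩)
    · rintro ⟨c, ⟨⟨x, g⟩, hg⟩⟩ ⟨c', ⟨⟨x', g'⟩, hg'⟩⟩ he
      have h2 : ((x, (g : GG T)) + c • ((0 : ℕ → ZMod 2), h.gB) : (ℕ → ZMod 2) × GG T) =
          (x', (g' : GG T)) + c' • ((0 : ℕ → ZMod 2), h.gB) := congrArg Subtype.val he
      have h3 : x + c • (0 : ℕ → ZMod 2) = x' + c' • (0 : ℕ → ZMod 2) := congrArg (fun t => t.1) h2
      have h4 : (g : GG T) + c • h.gB = (g' : GG T) + c' • h.gB := congrArg (fun t => t.2) h2
      have h5 := congrArg h.lam h4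
      rw [map_add, map_add, map_smul, map_smul, h.lam_gB] at h5
      have h6 : h.lam (g : GG T) = 0 := g.2
      have h7 : h.lam (g' : GG T) = 0 := g'.2
      rw [h6, h7] at h5
      have h8 : c = c' := by simpa using h5
      subst h8
      have h9 : (g : GG T) = g' := add_right_cancel h4
      have h10 : x = x' := by simpa using h3
      subst h10
      have h11 : g = g' := Subtype.ext h9
      subst h11
      rfl
    · rintro ⟨⟨x, g⟩, hg⟩
      refine ⟨(h.lam g, ⟨(x, ⟨g + h.lam g • h.gB, ?_⟩), ?_⟩), ?_⟩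
      · show h.lam (g + h.lam g • h.gB) = 0
        rw [map_add, map_smul, h.lam_gB, smul_eq_mul, mul_one]
        exact CharTwo.add_self_eq_zero _
      · rw [h.s0_iff]
        have := Submodule.add_mem _ hg (Submodule.smul_mem _ (h.lam g) hB)
        simpa using this
      · apply Subtype.ext
        refine Prod.ext ?_ ?_
        · simp
        · show g + h.lam g • h.gB + h.lam g • h.gB = g
          rw [add_assoc, self2, add_zero]
  rw [← h1, Nat.card_prod, Nat.card_zmod]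

theorem finite_of_cop (h : Md T m) : Finite (Fm m) := by
  have : NeZero m := ⟨h.pos⟩
  infer_instance

/-- the spaces are finite -/
theorem Ex.fin_sel (h : Ex T m A B) (W : Submodule (ZMod 2) (GG T × Fm m)) (S : Finset ℕ) :
    Finite ((h.s0 W).Sel S) := by
  refine Finite.of_injective (fun w : (h.s0 W).Sel S =>
    ((fun q : S => w.1.1 q, w.1.2) : (S → ZMod 2) × h.G)) ?_
  intro w w' he
  have h1 : (fun q : S => w.1.1 q) = fun q : S => w'.1.1 q := congrArg (fun t => t.1) he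
  have h2 : w.1.2 = w'.1.2 := congrArg (fun t => t.2) he
  refine Subtype.ext (Prod.ext (funext fun q => ?_) h2)
  by_cases hq : q ∈ S
  · exact congrFun h1 ⟨q, hq⟩
  · rw [(Sys.mem_Sel.1 w.2).1 q fun h3 => hq h3.1, (Sys.mem_Sel.1 w'.2).1 q fun h3 => hq h3.1]

theorem Ex.card_pow (h : Ex T m A B) {W : Submodule (ZMod 2) (GG T × Fm m)}
    (hW : (h.gB, (0 : Fm m)) ∈ W) (S : Finset ℕ) :
    Nat.card ((h.sf W).Sel S) = 2 ^ (finrank (ZMod 2) ((h.s0 W).Sel S) + 1) := by
  have := h.fin_sel W S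
  rw [h.card_sel hW S, pow_succ', Module.natCard_eq_pow_finrank (K := ZMod 2)
    (V := (h.s0 W).Sel S), Nat.card_zmod]

theorem dvd_of_sq {x t s : ℤ} (h : x * t ^ 2 = s * s) : t ∣ s := by
  rw [← Int.pow_dvd_pow_iff two_ne_zero]
  exact ⟨x, by linear_combination -h⟩

/-- the dual curve -/
theorem Ex.dual (h : Ex T m A B) : Ex T m (-2 * A) (A ^ 2 - 4 * B) where
  md := h.md
  hB := h.hC
  hC := by
    have e : (-2 * A) ^ 2 - 4 * (A ^ 2 - 4 * B) = 16 * B := by ring
    rw [e]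
    exact mul_ne_zero (by norm_num) h.hB
  ns := by
    rintro ⟨t, ht⟩
    obtain ⟨s, hs⟩ := h.hsq
    have ht0 : t ≠ 0 := by
      rintro rfl
      exact h.hC (by rw [ht]; ring)
    obtain ⟨u, rfl⟩ := dvd_of_sq (x := B) (t := t) (s := s) (by rw [← hs, ht]; ring)
    apply h.ns
    refine ⟨u, ?_⟩
    apply mul_right_cancel₀ (mul_ne_zero ht0 ht0)
    rw [ht] at hs
    linear_combination hs
  hsq := by
    obtain ⟨s, hs⟩ := h.hsq
    exact ⟨4 * s, by linear_combination 16 * hs⟩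
  hT := by
    intro p hp
    rw [h.hT p hp]
    have e : N2 (-2 * A) (A ^ 2 - 4 * B) = 16 * N2 A B := by
      unfold N2
      ring
    rw [e]
    have hP := Nat.prime_iff_prime_int.1 hp
    refine ⟨fun hd => hd.mul_left _, fun hd => ?_⟩
    rcases hP.dvd_or_dvd hd with h1 | h1
    · have h2 : (p : ℤ) ∣ 2 ^ 4 := by norm_num; exact h1
      have h3 := hP.dvd_of_dvd_pow h2
      unfold N2
      exact h3.mul_right _
    · exact h1

theorem Ex.dual_gB (h : Ex T m A B) : h.dual.gB = h.gB := by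
  obtain ⟨c, hc0, hc⟩ := h.gB_spec
  obtain ⟨c', hc0', hc'⟩ := h.dual.gB_spec
  obtain ⟨s, hs⟩ := h.hsq
  refine Q44.BN.UU_sq_eq h.md.pr ?_
  have e : UU h.dual.gB * UU h.gB * (c * c') ^ 2 = s * s := by
    rw [← hs]
    linear_combination (-(UU h.dual.gB * c' ^ 2)) * hc - B * hc'
  obtain ⟨u, rfl⟩ := dvd_of_sq e
  refine ⟨u, ?_⟩
  have h0 : (c * c') ^ 2 ≠ 0 := pow_ne_zero 2 (mul_ne_zero hc0 hc0')
  apply mul_right_cancel₀ h0
  linear_combination e

theorem Ex.dual_F (h : Ex T m A B) : h.dual.F = h.F := by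
  unfold Ex.F
  rw [h.dual_gB]

/-- the orthogonality puts the local conditions into the kernel of the character of `B` -/
theorem Ex.WW_F (h : Ex T m A B) {D : ℤ} (hD : D ≠ 0) {w : GG T × Fm m}
    (hw : w ∈ WW h.md A h.hB hD) : w.2 ∈ h.F := by
  have h1 := orth h.md h.hB h.hC hD hw (h.dual.gB_mem hD)
  rw [bet_apply, map_zero, map_zero, mul_zero, zero_add, add_zero, h.dual_gB] at h1
  exact h1

/-- the number of the local conditions of the system -/
theorem Ex.card_L (h : Ex T m A B) {W : Submodule (ZMod 2) (GG T × Fm m)}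
    (hW : (h.gB, (0 : Fm m)) ∈ W) (hF : ∀ w ∈ W, w.2 ∈ h.F) :
    Nat.card W = 2 * Nat.card (h.s0 W).𝓛 := by
  have h1 : Nat.card (ZMod 2 × (h.s0 W).𝓛) = Nat.card W := by
    refine Nat.card_congr (Equiv.ofBijective (fun t : ZMod 2 × (h.s0 W).𝓛 =>
      (⟨((t.2.1.1 : GG T), (t.2.1.2 : Fm m)) + t.1 • (h.gB, (0 : Fm m)),
        Submodule.add_mem _ t.2.2 (Submodule.smul_mem _ _ hW)⟩ : W)) ⟨?_, ?_⟩)
    · rintro ⟨c, ⟨⟨g, e⟩, hg⟩⟩ ⟨c', ⟨⟨g', e'⟩, hg'⟩⟩ he
      have h2 : (((g : GG T), (e : Fm m)) + c • (h.gB, (0 : Fm m)) : GG T × Fm m) =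
          ((g' : GG T), (e' : Fm m)) + c' • (h.gB, (0 : Fm m)) := congrArg Subtype.val he
      have h3 : (e : Fm m) + c • (0 : Fm m) = e' + c' • (0 : Fm m) := congrArg (fun t => t.2) h2
      have h4 : (g : GG T) + c • h.gB = (g' : GG T) + c' • h.gB := congrArg (fun t => t.1) h2
      have h5 := congrArg h.lam h4
      rw [map_add, map_add, map_smul, map_smul, h.lam_gB] at h5
      have h6 : h.lam (g : GG T) = 0 := g.2
      have h7 : h.lam (g' : GG T) = 0 := g'.2
      rw [h6, h7] at h5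
      have h8 : c = c' := by simpa using h5
      subst h8
      have h9 : g = g' := Subtype.ext (add_right_cancel h4)
      have h10 : e = e' := Subtype.ext (by simpa using h3)
      subst h9 h10
      rfl
    · rintro ⟨⟨g, e⟩, hg⟩
      refine ⟨(h.lam g, ⟨(⟨g + h.lam g • h.gB, ?_⟩, ⟨e, hF _ hg⟩), ?_⟩), ?_⟩
      · show h.lam (g + h.lam g • h.gB) = 0
        rw [map_add, map_smul, h.lam_gB, smul_eq_mul, mul_one]
        exact CharTwo.add_self_eq_zero _
      · show (g + h.lam g • h.gB, e) ∈ W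
        have := Submodule.add_mem _ hg (Submodule.smul_mem _ (h.lam g) hW)
        simpa using this
      · apply Subtype.ext
        refine Prod.ext ?_ ?_
        · show g + h.lam g • h.gB + h.lam g • h.gB = g
          rw [add_assoc, self2, add_zero]
        · simp
  rw [← h1, Nat.card_prod, Nat.card_zmod]

/-- the kernel of the character has index two -/
theorem Ex.card_F (h : Ex T m A B) : Nat.card (Fm m) = 2 * Nat.card h.F := by
  have hex : ∃ x : Fm m, chi h.md h.gB x = 1 := by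
    by_contra hc
    push Not at hc
    apply h.gB_ne
    refine chi_inj h.md (LinearMap.ext fun x => ?_)
    rcases zm2 (chi h.md h.gB x) with h1 | h1
    · exact h1
    · exact absurd h1 (hc x)
  obtain ⟨x, hx⟩ := hex
  have h1 : Nat.card (ZMod 2 × h.F) = Nat.card (Fm m) := by
    refine Nat.card_congr (Equiv.ofBijective (fun t : ZMod 2 × h.F => (t.2 : Fm m) + t.1 • x)
      ⟨?_, ?_⟩)
    · rintro ⟨c, e⟩ ⟨c', e'⟩ he
      have h4 : (e : Fm m) + c • x = e' + c' • x := he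
      have h5 := congrArg (chi h.md h.gB) h4
      rw [map_add, map_add, map_smul, map_smul, hx] at h5
      have h6 : chi h.md h.gB (e : Fm m) = 0 := e.2
      have h7 : chi h.md h.gB (e' : Fm m) = 0 := e'.2
      rw [h6, h7] at h5
      have h8 : c = c' := by simpa using h5
      subst h8
      have h9 : e = e' := Subtype.ext (add_right_cancel h4)
      subst h9
      rfl
    · intro y
      refine ⟨(chi h.md h.gB y, ⟨y + chi h.md h.gB y • x, ?_⟩), ?_⟩
      · show chi h.md h.gB (y + chi h.md h.gB y • x) = 0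
        rw [map_add, map_smul, hx, smul_eq_mul, mul_one]
        exact CharTwo.add_self_eq_zero _
      · show y + chi h.md h.gB y • x + chi h.md h.gB y • x = y
        rw [add_assoc, self2, add_zero]
  rw [← h1, Nat.card_prod, Nat.card_zmod]

end Pool.Agent.H68.X
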