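import Pool.Agent.H68.X.Dm

/-!
# Duality
-/

set_option autoImplicit false

open scoped Classical

namespace Pool.Agent.H68.X

open Finset Module Pool.Agent.H68.A Filter
open Pool.Agent.R413.TI (CL)
open Q44.TK (Fm hF hF_pos hF_mul hF_sum hF_eq hF_one Fm_two)
open Q44.BN (jv jc jc_hF jc_prime jv_prime jac_pm hF_surj hF_mod ne_zero_of_cop odd_of_cop GG JJ UU
  sgn mem_JJ JJ_sub JJ_prime UU_add UU_zero UU_sqf UU_ne UU_dvd UU_dvd' UU_inj UU_sq_zero
  UU_surj sgn_abs jv_neg_one N2 Ac Pa ac_or_pa nd_B Row Sup Cl nec suf uniq fd_dual)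
open Q44.TI (pd padic_sq padic_sq2 ch ch_zero nr_ch ch_mul cop_mod ch_sq fd SelS Loc pd_pos)
open Pool.Agent.Y703.CQ (nr)
open Q44.BM (vm nr_rec RC Fam Sys HM GT SS)

variable {T : Finset ℕ} {m : ℕ} {A B : ℤ}

theorem Gd.row_apply' {J G F : Type} [Fintype J] [AddCommGroup G] [Module (ZMod 2) G]
    [AddCommGroup F] [Module (ZMod 2) F] [inst : DecidableEq J] (D : Gd J G F)
    (w : (J → ZMod 2) × G) (p : J) : D.row w p =
    (∑ q, @ite (ZMod 2) (q = p) (inst q p) 0 (D.a p q * w.1 q)) + D.d p * w.1 p +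
      D.χ w.2 (D.h p) := by
  rw [Gd.row_apply]
  congr! 4

/-- the active primes of a set -/
abbrev AJ (A B : ℤ) (S : Finset ℕ) : Type := {p : ℕ // p ∈ S.filter fun p => Ac A B p}

/-- the system in the form of the duality -/
noncomputable def Ex.gd (h : Ex T m A B) (S : Finset ℕ) : Gd (AJ A B S) (GG T) (Fm m) where
  a p q := nr p q
  d p := ∑ q ∈ S.erase p, nr p q + fd A B p
  h p := hF m p
  v := jc m (-1)
  χ := chi h.md

theorem row_eq {S : Finset ℕ} {x : ℕ → ZMod 2} (hx : ∀ q, q ∈ S → ¬ Ac A B q → x q = 0)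
    (p : AJ A B S) :
    ∑ q ∈ S, nr p q * (x q + x p) = (∑ q : AJ A B S, if q = p then 0 else nr p q * x q) +
      (∑ q ∈ S.erase p, nr p q) * x p := by
  have hp : (p : ℕ) ∈ S := (mem_filter.1 p.2).1
  rw [← Finset.add_sum_erase S _ hp, CharTwo.add_self_eq_zero (x p), mul_zero, zero_add, sum_mul]
  have e1 : ∑ q ∈ S.erase p, nr p q * (x q + x p) =
      ∑ q ∈ S.erase p, nr p q * x q + ∑ q ∈ S.erase p, nr p q * x p := by
    rw [← sum_add_distrib]
    exact sum_congr rfl fun q _ => mul_add _ _ _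
  rw [e1]
  congr 1
  have e2 : (∑ q : AJ A B S, if q = p then 0 else nr p q * x q) =
      ∑ q ∈ S.filter (fun q => Ac A B q), if q = (p : ℕ) then 0 else nr p q * x q := by
    rw [← Finset.sum_coe_sort (S.filter fun q => Ac A B q)
      (fun q => if q = (p : ℕ) then 0 else nr p q * x q)]
    refine sum_congr rfl fun q _ => ?_
    by_cases h : q = p
    · rw [if_pos h, if_pos (congrArg Subtype.val h)]
    · rw [if_neg h, if_neg fun h' => h (Subtype.ext h')]
  rw [e2, sum_filter]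
  have e3 : ∀ q ∈ S, (if Ac A B q then (if q = (p : ℕ) then 0 else nr p q * x q) else 0) =
      if q = (p : ℕ) then 0 else nr p q * x q := by
    intro q hq
    by_cases hA : Ac A B q
    · rw [if_pos hA]
    · rw [if_neg hA, hx q hq hA, mul_zero, ite_self]
  rw [sum_congr rfl e3, ← Finset.add_sum_erase S _ hp, if_pos rfl, zero_add]
  refine sum_congr rfl fun q hq => ?_
  rw [if_neg (Finset.ne_of_mem_erase hq)]

theorem Ex.gd_cls (h : Ex T m A B) {S : Finset ℕ} {x : ℕ → ZMod 2}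
    (hx : ∀ q, q ∈ S → ¬ Ac A B q → x q = 0) :
    ((∑ q ∈ S, x q • h.h0 q : h.F) : Fm m) = ∑ q : AJ A B S, x q • hF m q := by
  rw [AddSubmonoidClass.coe_finsetSum,
    Finset.sum_coe_sort (S.filter fun q => Ac A B q) (fun q => x q • hF m q), sum_filter]
  refine sum_congr rfl fun q hq => ?_
  by_cases hA : Ac A B q
  · rw [if_pos hA, Submodule.coe_smul, h.h0_pos ((h.A_iff q).1 ((h.A_ac q).2 hA)).2.2]
  · rw [if_neg hA, hx q hq hA, zero_smul]
    rfl

theorem Ex.gd_iff (h : Ex T m A B) (W : Submodule (ZMod 2) (GG T × Fm m)) {S : Finset ℕ}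
    {w : (ℕ → ZMod 2) × GG T} (hw : ∀ p, ¬ (p ∈ S ∧ Ac A B p) → w.1 p = 0) :
    w ∈ (h.sf W).Sel S ↔ ((fun q : AJ A B S => w.1 q), w.2) ∈ (h.gd S).Sel W := by
  have hx : ∀ q, q ∈ S → ¬ Ac A B q → w.1 q = 0 := fun q _ hA => hw q fun h1 => hA h1.2
  have hrow : ∀ p : AJ A B S, (h.gd S).row ((fun q : AJ A B S => w.1 q), w.2) p =
      ∑ q ∈ S, nr p q * (w.1 q + w.1 p) + fd A B p * w.1 p + chi h.md w.2 (h.h0 p : Fm m) := by
    intro p
    obtain ⟨hp1, hp2⟩ := mem_filter.1 p.2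
    rw [row_eq hx, Gd.row_apply', h.h0_pos ((h.A_iff p).1 ((h.A_ac p).2 hp2)).2.2]
    show (∑ q : AJ A B S, if q = p then 0 else nr p q * w.1 q) +
      (∑ q ∈ S.erase p, nr p q + fd A B p) * w.1 p + chi h.md w.2 (hF m p) = _
    ring
  have hcls : (w.2, ∑ q ∈ S, w.1 q • h.h0 q) ∈ (h.sf W).𝓛 ↔
      (h.gd S).cls ((fun q : AJ A B S => w.1 q), w.2) ∈ W := by
    have e : (h.gd S).cls ((fun q : AJ A B S => w.1 q), w.2) =
        (w.2, ((∑ q ∈ S, w.1 q • h.h0 q : h.F) : Fm m)) := by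
      rw [h.gd_cls hx]
      rfl
    rw [e]
    rfl
  rw [Sys.mem_Sel, Gd.mem_Sel]
  constructor
  · rintro ⟨h1, h2, h3⟩
    refine ⟨funext fun p => ?_, hcls.1 h3⟩
    obtain ⟨hp1, hp2⟩ := mem_filter.1 p.2
    rw [hrow p]
    exact h2 p hp1 ((h.A_ac p).2 hp2)
  · rintro ⟨h2, h3⟩
    refine ⟨fun p hp => hw p fun h4 => hp ⟨h4.1, (h.A_ac p).2 h4.2⟩, fun p hp hA => ?_, hcls.2 h3⟩
    have := congrFun h2 ⟨p, mem_filter.2 ⟨hp, (h.A_ac p).1 hA⟩⟩
    rw [hrow] at this
    exact this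

theorem Ex.gd_card (h : Ex T m A B) (W : Submodule (ZMod 2) (GG T × Fm m)) (S : Finset ℕ) :
    Nat.card ((h.sf W).Sel S) = Nat.card ((h.gd S).Sel W) := by
  have hsup : ∀ w : (ℕ → ZMod 2) × GG T, w ∈ (h.sf W).Sel S →
      ∀ p, ¬ (p ∈ S ∧ Ac A B p) → w.1 p = 0 := by
    intro w hw p hp
    exact (Sys.mem_Sel.1 hw).1 p fun h4 => hp ⟨h4.1, (h.A_ac p).1 h4.2⟩
  refine Nat.card_congr (Equiv.ofBijective (fun w : (h.sf W).Sel S =>
    (⟨((fun q : AJ A B S => w.1.1 q), w.1.2), (h.gd_iff W (hsup w.1 w.2)).1 w.2⟩ :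
      (h.gd S).Sel W)) ⟨?_, ?_⟩)
  · intro w w' he
    have h1 : (fun q : AJ A B S => w.1.1 q) = fun q : AJ A B S => w'.1.1 q :=
      congrArg (fun t => t.1.1) he
    have h2 : w.1.2 = w'.1.2 := congrArg (fun t => t.1.2) he
    refine Subtype.ext (Prod.ext (funext fun q => ?_) h2)
    by_cases hq : q ∈ S ∧ Ac A B q
    · exact congrFun h1 ⟨q, mem_filter.2 hq⟩
    · rw [hsup w.1 w.2 q hq, hsup w'.1 w'.2 q hq]
  · rintro ⟨⟨y, g⟩, hy⟩
    obtain ⟨x, hx⟩ : ∃ x : ℕ → ZMod 2, x = fun q =>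
      if hq : q ∈ S.filter (fun p => Ac A B p) then y ⟨q, hq⟩ else 0 := ⟨_, rfl⟩
    have h1 : (fun q : AJ A B S => x q) = y := by
      funext q
      rw [hx]
      simp only
      rw [dif_pos q.2]
    have h2 : ∀ p, ¬ (p ∈ S ∧ Ac A B p) → x p = 0 := by
      intro p hp
      rw [hx]
      simp only
      rw [dif_neg fun h3 => hp (mem_filter.1 h3)]
    have h3 : (x, g) ∈ (h.sf W).Sel S := (h.gd_iff W (w := (x, g)) h2).2 (by
      show ((fun q : AJ A B S => x q), g) ∈ (h.gd S).Sel W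
      rw [h1]
      exact hy)
    exact ⟨⟨(x, g), h3⟩, Subtype.ext (Prod.ext h1 rfl)⟩

theorem Ex.ac_dual (h : Ex T m A B) (p : ℕ) : Ac (-2 * A) (A ^ 2 - 4 * B) p ↔ Ac A B p := by
  rw [← h.dual.A_ac, ← h.A_ac, h.dual.A_iff, h.A_iff, h.dual_F]

/-- the solutions of the system of the dual curve -/
theorem Ex.gd_dual (h : Ex T m A B) (W : Submodule (ZMod 2) (GG T × Fm m)) (S : Finset ℕ) :
    Nat.card ((h.dual.gd S).Sel W) = Nat.card ((h.gd S).dual.Sel W) := by
  have hfil : (S.filter fun p => Ac (-2 * A) (A ^ 2 - 4 * B) p) = S.filter fun p => Ac A B p :=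
    filter_congr fun p _ => h.ac_dual p
  obtain ⟨e, he⟩ : ∃ e : AJ (-2 * A) (A ^ 2 - 4 * B) S ≃ AJ A B S, ∀ p, ((e p : AJ A B S) : ℕ) = p :=
    ⟨Equiv.subtypeEquivRight fun p => by rw [hfil], fun p => rfl⟩
  have hrow : ∀ (y : AJ A B S → ZMod 2) (g : GG T) (p : AJ (-2 * A) (A ^ 2 - 4 * B) S),
      (h.dual.gd S).row (y ∘ e, g) p = (h.gd S).dual.row (y, g) (e p) := by
    intro y g p
    obtain ⟨hp1, hp2⟩ := mem_filter.1 (e p).2
    have hA := (h.A_iff _).1 ((h.A_ac _).2 hp2)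
    have hcop := (h.notMem_iff hA.1).1 hA.2.1
    rw [Gd.row_apply', Gd.row_apply']
    show (∑ q, if q = p then 0 else nr p q * y (e q)) +
      (∑ q ∈ S.erase p, nr p q + fd (-2 * A) (A ^ 2 - 4 * B) p) * y (e p) +
        chi h.md g (hF m p) = (∑ q, if q = e p then 0 else nr (e p) q * y q) +
      ((∑ q ∈ S.erase (e p), nr (e p) q + fd A B (e p)) + jc m (-1) (hF m (e p))) * y (e p) +
        chi h.md g (hF m (e p))
    rw [he, ← Equiv.sum_comp e]
    have e1 : ∀ q, (if e q = e p then (0 : ZMod 2) else nr p (e q) * y (e q)) =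
        if q = p then 0 else nr p q * y (e q) := by
      intro q
      rw [he]
      by_cases hq : q = p
      · rw [if_pos hq, if_pos (congrArg e hq)]
      · rw [if_neg hq, if_neg fun h' => hq (e.injective h')]
    simp only [e1]
    rw [he] at hp2 hcop hA
    have e2 : jc m (-1) (hF m p) = ch (-1 : ZMod p) := by
      have := jc_prime h.md.pos h.h41 hA.1 hcop
      rw [this]
      norm_num
    rw [fd_dual hp2, e2]
    ring
  have hcls : ∀ (y : AJ A B S → ZMod 2) (g : GG T),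
      (h.dual.gd S).cls (y ∘ e, g) = (h.gd S).dual.cls (y, g) := by
    intro y g
    rw [Gd.cls_apply, Gd.cls_apply]
    refine Prod.ext rfl ?_
    show ∑ p, y (e p) • hF m p = ∑ p, y p • hF m p
    rw [← Equiv.sum_comp e]
    exact sum_congr rfl fun p _ => by rw [he]
  have hiff : ∀ (y : AJ A B S → ZMod 2) (g : GG T),
      (y ∘ e, g) ∈ (h.dual.gd S).Sel W ↔ (y, g) ∈ (h.gd S).dual.Sel W := by
    intro y g
    rw [Gd.mem_Sel, Gd.mem_Sel, hcls]
    refine and_congr_left fun _ => ?_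
    constructor
    · intro h1
      funext p
      have := congrFun h1 (e.symm p)
      rw [hrow, Equiv.apply_symm_apply] at this
      exact this
    · intro h1
      funext p
      rw [hrow]
      exact congrFun h1 (e p)
  symm
  refine Nat.card_congr (Equiv.ofBijective (fun w : (h.gd S).dual.Sel W =>
    (⟨(w.1.1 ∘ e, w.1.2), (hiff w.1.1 w.1.2).2 w.2⟩ : (h.dual.gd S).Sel W)) ⟨?_, ?_⟩)
  · intro w w' hw
    have h1 : w.1.1 ∘ e = w'.1.1 ∘ e := congrArg (fun t => t.1.1) hw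
    have h2 : w.1.2 = w'.1.2 := congrArg (fun t => t.1.2) hw
    refine Subtype.ext (Prod.ext ?_ h2)
    funext p
    have := congrFun h1 (e.symm p)
    simpa using this
  · rintro ⟨⟨y, g⟩, hy⟩
    have h1 : (y ∘ e.symm) ∘ e = y := by
      funext p
      simp
    refine ⟨⟨(y ∘ e.symm, g), (hiff _ _).1 ?_⟩, Subtype.ext (Prod.ext h1 rfl)⟩
    rw [h1]
    exact hy

theorem card_two {V : Type} [AddCommGroup V] [Module (ZMod 2) V] [Finite V] :
    Nat.card V = 2 ^ finrank (ZMod 2) V := by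
  rw [Module.natCard_eq_pow_finrank (K := ZMod 2) (V := V), Nat.card_zmod]

/-- **duality**: the dimensions for the two curves -/
theorem Ex.duality (h : Ex T m A B) {D : ℤ} (hD : D ≠ 0) (S : Finset ℕ) :
    finrank (ZMod 2) ((h.gd S).dual.Sel (WW h.md (-2 * A) h.hC hD)) +
        finrank (ZMod 2) (WW h.md A h.hB hD) ≤
      finrank (ZMod 2) ((h.gd S).Sel (WW h.md A h.hB hD)) + finrank (ZMod 2) (Fm m) ∧
    (finrank (ZMod 2) (WW h.md A h.hB hD) + finrank (ZMod 2) (WW h.md (-2 * A) h.hC hD) =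
        finrank (ZMod 2) (GG T) + finrank (ZMod 2) (Fm m) →
      finrank (ZMod 2) ((h.gd S).dual.Sel (WW h.md (-2 * A) h.hC hD)) +
        finrank (ZMod 2) (WW h.md A h.hB hD) =
      finrank (ZMod 2) ((h.gd S).Sel (WW h.md A h.hB hD)) + finrank (ZMod 2) (Fm m)) := by
  have fF := finite_of_cop h.md
  have hf1 : Module.Finite (ZMod 2) (GG T) := Module.Finite.of_finite
  have hf2 : Module.Finite (ZMod 2) (Fm m) := Module.Finite.of_finite
  set W := WW h.md A h.hB hD with hW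
  set W' := WW h.md (-2 * A) h.hC hD with hW'
  have hs : ∀ e, (∀ g, chi h.md g e = 0) → e = 0 := fun e he => chi_sep h.md he
  have hi : ∀ g, chi h.md g = 0 → g = 0 := fun g hg => chi_inj h.md hg
  have hr : ∀ p q : AJ A B S, p ≠ q → (h.gd S).a p q + (h.gd S).a q p =
      (h.gd S).v ((h.gd S).h p) * (h.gd S).v ((h.gd S).h q) := by
    intro p q hpq
    have key : ∀ p : AJ A B S, (p : ℕ).Prime ∧ (p : ℕ) ≠ 2 ∧
        jc m (-1) (hF m p) = vm p := by
      intro p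
      obtain ⟨h1, h2, h3⟩ := (h.A_iff p).1 ((h.A_ac p).2 (mem_filter.1 p.2).2)
      have hc := (h.notMem_iff h1).1 h2
      exact ⟨h1, prime_ne_two h.md h1 hc, by
        rw [jc_hF h.md.pos h.h41 hc, jv_neg_one h1 (prime_ne_two h.md h1 hc)]⟩
    obtain ⟨p1, p2, p3⟩ := key p
    obtain ⟨q1, q2, q3⟩ := key q
    show nr p q + nr q p = jc m (-1) (hF m p) * jc m (-1) (hF m q)
    rw [p3, q3, nr_rec p1 p2 q1 q2 fun he => hpq (Subtype.ext he)]
    have : (2 : ZMod 2) = 0 := by decide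
    linear_combination (nr q p) * this
  have hgw := (h.gd S).gw hs hi hr W
  have hle : W' ≤ per (chi h.md) (jc m (-1)) W := by
    intro w' hw'
    rw [mem_per]
    intro u hu
    exact orth h.md h.hB h.hC hD hu hw'
  have hmono : (h.gd S).dual.Sel W' ≤ (h.gd S).dual.Sel (per (chi h.md) (jc m (-1)) W) := by
    intro w hw
    obtain ⟨h1, h2⟩ := Gd.mem_Sel.1 hw
    exact Gd.mem_Sel.2 ⟨h1, hle h2⟩
  have h1 : finrank (ZMod 2) ((h.gd S).dual.Sel W') ≤
      finrank (ZMod 2) ((h.gd S).dual.Sel (per (chi h.md) (jc m (-1)) W)) :=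
    Submodule.finrank_mono hmono
  have hgw' : finrank (ZMod 2) ((h.gd S).dual.Sel (per (chi h.md) (jc m (-1)) W)) +
      finrank (ZMod 2) W = finrank (ZMod 2) ((h.gd S).Sel W) + finrank (ZMod 2) (Fm m) := hgw
  refine ⟨by omega, fun heq => ?_⟩
  have h2 := finrank_per (v := jc m (-1)) hs hi W
  have h3 : finrank (ZMod 2) W' = finrank (ZMod 2) (per (chi h.md) (jc m (-1)) W) := by omega
  have h4 : W' = per (chi h.md) (jc m (-1)) W := Submodule.eq_of_le_of_finrank_eq hle h3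
  rw [← h4] at hgw'
  exact hgw'

end Pool.Agent.H68.X
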