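import Pool.Agent.H68.X.Fx

/-!
# The subgroup of the points with large abscissa over the `p`-adic numbers
-/

set_option autoImplicit false

open scoped Classical

namespace Pool.Agent.H68.X

open WeierstrassCurve Pool.Agent.Y676.IS

section
variable {p : ℕ} [Fact p.Prime] {a b : ℚ_[p]}

/-- the size of the ordinate -/
theorem ny (ha : ‖a‖ ≤ 1) (hb1 : ‖b‖ ≤ 1) {x y : ℚ_[p]} (h : y ^ 2 = x ^ 3 + a * x ^ 2 + b * x)
    (hx : 1 < ‖x‖) : ‖y‖ ^ 2 = ‖x‖ ^ 3 := by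
  have h0 : 0 < ‖x‖ := lt_trans one_pos hx
  have h1 : ‖a * x ^ 2 + b * x‖ < ‖x ^ 3‖ := by
    refine lt_of_le_of_lt (Padic.nonarchimedean _ _) (max_lt ?_ ?_)
    · rw [norm_mul, norm_pow, norm_pow]
      calc ‖a‖ * ‖x‖ ^ 2 ≤ 1 * ‖x‖ ^ 2 := by gcongr
        _ < ‖x‖ ^ 3 := by
          rw [one_mul]
          exact pow_lt_pow_right₀ hx (by norm_num)
    · rw [norm_mul, norm_pow]
      calc ‖b‖ * ‖x‖ ≤ 1 * ‖x‖ := by gcongr
        _ = ‖x‖ ^ 1 := by ring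
        _ < ‖x‖ ^ 3 := pow_lt_pow_right₀ hx (by norm_num)
  have h2 : ‖x ^ 3 + (a * x ^ 2 + b * x)‖ = ‖x ^ 3‖ := by
    rw [Padic.add_eq_max_of_ne h1.ne', max_eq_left h1.le]
  rw [← norm_pow, h, add_assoc, h2, norm_pow]

theorem nb (hb1 : ‖b‖ ≤ 1) {z : ℚ_[p]} (hz : 1 < ‖z‖) : ‖z - b‖ = ‖z‖ := by
  have h1 : ‖-b‖ < ‖z‖ := by
    rw [norm_neg]
    exact lt_of_le_of_lt hb1 hz
  rw [sub_eq_add_neg, Padic.add_eq_max_of_ne h1.ne', max_eq_left h1.le]

/-- the points with large abscissa -/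
def Far (c : ℝ) (P : (Cu a b).Point) : Prop := ∀ x y h, P = .some x y h → c ≤ ‖x‖

theorem far_zero (c : ℝ) : Far c (0 : (Cu a b).Point) := fun _ _ _ h =>
  absurd h.symm (Affine.Point.some_ne_zero _)

theorem far_real {c X1 X2 X3 N : ℝ} (hc : 1 < c) (h1 : c ≤ X1) (h2 : c ≤ X2)
    (hN : N ^ 2 ≤ max (X1 ^ 3 * X2 ^ 2) (X2 ^ 3 * X1 ^ 2)) (h : X3 * N ^ 2 = X1 * X2 * (X1 * X2) ^ 2)
    (h3 : 0 ≤ X3) : c ≤ X3 := by
  have p1 : 0 < X1 := by linarith
  have p2 : 0 < X2 := by linarith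
  rcases le_total (X1 ^ 3 * X2 ^ 2) (X2 ^ 3 * X1 ^ 2) with hle | hle
  · rw [max_eq_right hle] at hN
    have h4 : X1 * X2 * (X1 * X2) ^ 2 ≤ X3 * (X2 ^ 3 * X1 ^ 2) := by
      rw [← h]
      exact mul_le_mul_of_nonneg_left hN h3
    have h5 : X1 * (X2 ^ 3 * X1 ^ 2) ≤ X3 * (X2 ^ 3 * X1 ^ 2) := by
      refine le_trans (le_of_eq ?_) h4
      ring
    exact h1.trans (le_of_mul_le_mul_right h5 (by positivity))
  · rw [max_eq_left hle] at hN
    have h4 : X1 * X2 * (X1 * X2) ^ 2 ≤ X3 * (X1 ^ 3 * X2 ^ 2) := by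
      rw [← h]
      exact mul_le_mul_of_nonneg_left hN h3
    have h5 : X2 * (X1 ^ 3 * X2 ^ 2) ≤ X3 * (X1 ^ 3 * X2 ^ 2) := by
      refine le_trans (le_of_eq ?_) h4
      ring
    exact h2.trans (le_of_mul_le_mul_right h5 (by positivity))

theorem far_add (ha : ‖a‖ ≤ 1) (hb1 : ‖b‖ ≤ 1) {c : ℝ} (hc : 1 < c) (P Q : (Cu a b).Point)
    (hP : Far c P) (hQ : Far c Q) : Far c (P + Q) := by
  intro x3 y3 h3 h
  rcases P with _ | ⟨x1, y1, h1⟩
  · exact hQ x3 y3 h3 (by rw [← h]; exact (zero_add Q).symm)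
  rcases Q with _ | ⟨x2, y2, h2⟩
  · exact hP x3 y3 h3 (by rw [← h]; exact (add_zero _).symm)
  have c1 := hP x1 y1 h1 rfl
  have c2 := hQ x2 y2 h2 rfl
  have k := (add_fx h1 h2 h3 h).1
  have n1 := ny ha hb1 (cu_eq.1 h1.1) (hc.trans_le c1)
  have n2 := ny ha hb1 (cu_eq.1 h2.1) (hc.trans_le c2)
  have k2 := congrArg norm k
  rw [norm_mul, norm_mul, norm_mul, norm_pow, norm_pow, nb hb1 (z := x1 * x2) (by
    rw [norm_mul]
    nlinarith), norm_mul] at k2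
  refine far_real hc c1 c2 ?_ k2 (norm_nonneg _)
  have h4 : ‖y1 * x2 + y2 * x1‖ ≤ max ‖y1 * x2‖ ‖y2 * x1‖ := Padic.nonarchimedean _ _
  have h5 : ‖y1 * x2 + y2 * x1‖ ^ 2 ≤ (max ‖y1 * x2‖ ‖y2 * x1‖) ^ 2 :=
    pow_le_pow_left₀ (norm_nonneg _) h4 2
  refine h5.trans ?_
  rcases max_choice ‖y1 * x2‖ ‖y2 * x1‖ with e | e
  · rw [e, norm_mul, mul_pow, n1]
    exact le_max_left _ _
  · rw [e, norm_mul, mul_pow, n2]
    exact le_max_right _ _

theorem neg_pt {x y : ℚ_[p]} (h : (Cu a b).Nonsingular x y) :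
    ∃ h', -(Affine.Point.some x y h : (Cu a b).Point) = Affine.Point.some x (-y) h' := by
  have e : (Cu a b).negY x y = -y := by
    simp only [Affine.negY, Cu]
    ring
  have h' : (Cu a b).Nonsingular x (-y) := by
    rw [← e]
    exact (Affine.nonsingular_neg x y).2 h
  refine ⟨h', ?_⟩
  rw [Affine.Point.neg_some]
  congr 1

/-- the group of the points with large abscissa -/
def FarG (ha : ‖a‖ ≤ 1) (hb1 : ‖b‖ ≤ 1) {c : ℝ} (hc : 1 < c) : AddSubgroup (Cu a b).Point where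
  carrier := {P | Far c P}
  zero_mem' := far_zero c
  add_mem' := fun {P Q} hP hQ => far_add ha hb1 hc P Q hP hQ
  neg_mem' := by
    intro P hP x y h e
    rcases P with _ | ⟨x1, y1, h1⟩
    · exact absurd e.symm (Affine.Point.some_ne_zero _)
    · obtain ⟨h', e'⟩ := neg_pt h1
      rw [e', Affine.Point.some.injEq] at e
      rw [← e.1]
      exact hP x1 y1 h1 rfl

theorem dbl_zero {P : (Cu a b).Point} (h : P + P = 0) :
    P = 0 ∨ ∃ x h, P = .some x 0 h := by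
  rcases P with _ | ⟨x, y, h1⟩
  · exact Or.inl rfl
  · right
    obtain ⟨h', e⟩ := neg_pt h1
    have e2 := eq_neg_of_add_eq_zero_left h
    rw [e, Affine.Point.some.injEq] at e2
    have hy : y = 0 := by
      have : y + y = 0 := by linear_combination e2.2
      rw [← two_mul] at this
      exact (mul_eq_zero.1 this).resolve_left two_ne_zero
    subst hy
    exact ⟨x, h1, rfl⟩

end

end Pool.Agent.H68.X
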