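import Pool.Agent.H68.X.Fg

/-!
# The index of the points with large abscissa is finite
-/

set_option autoImplicit false

open scoped Classical
open Filter Topology

namespace Pool.Agent.H68.X

open WeierstrassCurve Pool.Agent.Y676.IS

section
variable {p : ℕ} [Fact p.Prime] {a b : ℚ_[p]}

/-- the bounded points -/
def Bd (a b : ℚ_[p]) (c : ℝ) : Set (ℚ_[p] × ℚ_[p]) :=
  (Metric.closedBall 0 c ×ˢ Metric.closedBall 0 (c ^ 2)) ∩
    {q | q.2 ^ 2 = q.1 ^ 3 + a * q.1 ^ 2 + b * q.1}

theorem bd_compact (c : ℝ) : IsCompact (Bd a b c) := by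
  refine ((isCompact_closedBall 0 c).prod (isCompact_closedBall 0 (c ^ 2))).inter_right ?_
  exact isClosed_eq (by fun_prop) (by fun_prop)

/-- near a bounded point -/
theorem near (hb : b ≠ 0) (hc : a ^ 2 - 4 * b ≠ 0) {c : ℝ} (hc1 : 1 < c)
    {x0 y0 : ℚ_[p]} (h0 : (Cu a b).Nonsingular x0 y0) :
    ∀ᶠ q : ℚ_[p] × ℚ_[p] in 𝓝 (x0, y0), ∀ h : (Cu a b).Nonsingular q.1 q.2,
      Far c ((Affine.Point.some q.1 q.2 h : (Cu a b).Point) - Affine.Point.some x0 y0 h0) := by
  have hE := cu_eq.1 h0.1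
  have c0 : 0 < c := lt_trans one_pos hc1
  obtain ⟨h0', e0⟩ := neg_pt h0
  by_cases hy : y0 = 0
  · by_cases hx : x0 = 0
    · -- the point `T`
      have cont : Continuous fun q : ℚ_[p] × ℚ_[p] => c * ‖q.1‖ := by fun_prop
      have h1 : c * ‖((x0, y0) : ℚ_[p] × ℚ_[p]).1‖ < ‖b‖ := by
        simp only [hx, norm_zero, mul_zero]
        exact norm_pos_iff.2 hb
      filter_upwards [cont.continuousAt.eventually (gt_mem_nhds h1)] with q hq h
      by_cases hq0 : q.1 = 0
      · have hq2 : q.2 = 0 := by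
          have : q.2 ^ 2 = 0 := by rw [cu_eq.1 h.1, hq0]; ring
          exact pow_eq_zero_iff (two_ne_zero) |>.1 this
        have : (Affine.Point.some q.1 q.2 h : (Cu a b).Point) = Affine.Point.some x0 y0 h0 := by
          rw [Affine.Point.some.injEq]
          exact ⟨by rw [hq0, hx], by rw [hq2, hy]⟩
        rw [this, sub_self]
        exact far_zero c
      · intro x3 y3 h3 h4
        rw [sub_eq_add_neg, e0] at h4
        have k := (add_fx h h0' h3 h4).2.2.1 hx hq0
        have k2 := congrArg norm k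
        rw [norm_mul] at k2
        rw [← k2] at hq
        exact (lt_of_mul_lt_mul_right hq (norm_nonneg _)).le
    · -- another point of order two
      have hq0 : x0 ^ 2 + a * x0 + b = 0 := by
        rw [hy] at hE
        apply mul_left_cancel₀ hx
        linear_combination -hE
      have hne : x0 * x0 - b ≠ 0 := by
        intro h
        have h2 : x0 * (2 * x0 + a) = 0 := by linear_combination hq0 + h
        have h3 : 2 * x0 + a = 0 := (mul_eq_zero.1 h2).resolve_left hx
        apply hc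
        linear_combination (a - 2 * x0) * h3 + 4 * h
      have cont : Continuous fun q : ℚ_[p] × ℚ_[p] =>
          ‖q.1 * x0 * (q.1 * x0 - b) ^ 2‖ - c * ‖q.2 * x0 - y0 * q.1‖ ^ 2 := by fun_prop
      have h1 : 0 < ‖((x0, y0) : ℚ_[p] × ℚ_[p]).1 * x0 *
          (((x0, y0) : ℚ_[p] × ℚ_[p]).1 * x0 - b) ^ 2‖ - c * ‖((x0, y0) : ℚ_[p] × ℚ_[p]).2 * x0 -
            y0 * ((x0, y0) : ℚ_[p] × ℚ_[p]).1‖ ^ 2 := by
        simp only [hy, zero_mul, sub_self, norm_zero]
        have : 0 < ‖x0 * x0 * (x0 * x0 - b) ^ 2‖ :=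
          norm_pos_iff.2 (mul_ne_zero (mul_ne_zero hx hx) (pow_ne_zero 2 hne))
        linarith [this]
      filter_upwards [cont.continuousAt.eventually (lt_mem_nhds h1)] with q hq h
      intro x3 y3 h3 h4
      rw [sub_eq_add_neg, e0] at h4
      have k := (add_fx h h0' h3 h4).1
      have k2 := congrArg norm k
      have e1 : q.2 * x0 + -y0 * q.1 = q.2 * x0 - y0 * q.1 := by ring
      rw [norm_mul, norm_pow, e1] at k2
      have hq' : 0 < ‖q.1 * x0 * (q.1 * x0 - b) ^ 2‖ - c * ‖q.2 * x0 - y0 * q.1‖ ^ 2 := hq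
      rw [← k2] at hq'
      have h5 : c * ‖q.2 * x0 - y0 * q.1‖ ^ 2 < ‖x3‖ * ‖q.2 * x0 - y0 * q.1‖ ^ 2 := by linarith
      exact (lt_of_mul_lt_mul_right h5 (by positivity)).le
  · -- the other points
    have hx : x0 ≠ 0 := by
      rintro rfl
      apply hy
      have : y0 ^ 2 = 0 := by rw [hE]; ring
      exact pow_eq_zero_iff (two_ne_zero) |>.1 this
    have cont : Continuous fun q : ℚ_[p] × ℚ_[p] =>
        ‖q.2 * x0 + y0 * q.1‖ ^ 2 - c * ‖(q.1 - x0) ^ 2 * (q.1 * x0)‖ := by fun_prop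
    have h1 : 0 < ‖((x0, y0) : ℚ_[p] × ℚ_[p]).2 * x0 + y0 * ((x0, y0) : ℚ_[p] × ℚ_[p]).1‖ ^ 2 -
        c * ‖(((x0, y0) : ℚ_[p] × ℚ_[p]).1 - x0) ^ 2 *
          (((x0, y0) : ℚ_[p] × ℚ_[p]).1 * x0)‖ := by
      simp only [sub_self]
      have : 0 < ‖y0 * x0 + y0 * x0‖ := by
        rw [← two_mul]
        exact norm_pos_iff.2 (mul_ne_zero two_ne_zero (mul_ne_zero hy hx))
      have h2 : ‖(0 : ℚ_[p]) ^ 2 * (x0 * x0)‖ = 0 := by
        rw [zero_pow two_ne_zero, zero_mul, norm_zero]
      rw [h2]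
      have := pow_pos this 2
      linarith
    have cont2 : Continuous fun q : ℚ_[p] × ℚ_[p] => q.2 + y0 := by fun_prop
    have h1' : ((x0, y0) : ℚ_[p] × ℚ_[p]).2 + y0 ≠ 0 := by
      simp only
      rw [← two_mul]
      exact mul_ne_zero two_ne_zero hy
    filter_upwards [cont.continuousAt.eventually (lt_mem_nhds h1),
      cont2.continuousAt.eventually_ne h1'] with q hq hq2 h
    by_cases hqx : q.1 = x0
    · have hqy : q.2 = y0 := by
        have h5 : q.2 ^ 2 = y0 ^ 2 := by rw [cu_eq.1 h.1, hE, hqx]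
        rcases sq_eq_sq_iff_eq_or_eq_neg.1 h5 with h6 | h6
        · exact h6
        · exact absurd (by rw [h6]; ring) hq2
      have : (Affine.Point.some q.1 q.2 h : (Cu a b).Point) = Affine.Point.some x0 y0 h0 := by
        rw [Affine.Point.some.injEq]
        exact ⟨hqx, hqy⟩
      rw [this, sub_self]
      exact far_zero c
    · intro x3 y3 h3 h4
      rw [sub_eq_add_neg, e0] at h4
      have k := (add_fx h h0' h3 h4).2.1
      have k2 := congrArg norm k
      have e1 : q.2 * x0 - -y0 * q.1 = q.2 * x0 + y0 * q.1 := by ring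
      rw [norm_mul, norm_pow, e1] at k2
      have hq' : 0 < ‖q.2 * x0 + y0 * q.1‖ ^ 2 - c * ‖(q.1 - x0) ^ 2 * (q.1 * x0)‖ := hq
      rw [← k2] at hq'
      have h5 : c * ‖(q.1 - x0) ^ 2 * (q.1 * x0)‖ < ‖x3‖ * ‖(q.1 - x0) ^ 2 * (q.1 * x0)‖ := by
        linarith
      exact (lt_of_mul_lt_mul_right h5 (norm_nonneg _)).le

/-- **the index is finite** -/
theorem farG_index (ha : ‖a‖ ≤ 1) (hb1 : ‖b‖ ≤ 1) (hb : b ≠ 0) (hc : a ^ 2 - 4 * b ≠ 0) {c : ℝ}
    (hc1 : 1 < c) : (FarG ha hb1 hc1).index ≠ 0 := by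
  have c0 : 0 < c := lt_trans one_pos hc1
  have hcomp : CompactSpace (Bd a b c) := isCompact_iff_compactSpace.1 (bd_compact c)
  let F : Bd a b c → (Cu a b).Point ⧸ FarG ha hb1 hc1 := fun q =>
    QuotientAddGroup.mk (Affine.Point.some q.1.1 q.1.2 (cu_ns hb hc q.2.2))
  have hF : IsLocallyConstant F := by
    rw [IsLocallyConstant.iff_eventually_eq]
    intro q0
    have h1 := near hb hc hc1 (cu_ns hb hc q0.2.2)
    have h2 : Tendsto (Subtype.val : Bd a b c → ℚ_[p] × ℚ_[p]) (𝓝 q0) (𝓝 (q0.1.1, q0.1.2)) :=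
      continuous_subtype_val.continuousAt
    filter_upwards [h2.eventually h1] with q hq
    exact (QuotientAddGroup.eq_iff_sub_mem).2 (hq (cu_ns hb hc q.2.2))
  have hfin : (Set.range F ∪ {QuotientAddGroup.mk 0}).Finite :=
    (hF.range_finite).union (Set.finite_singleton _)
  have huniv : (Set.univ : Set ((Cu a b).Point ⧸ FarG ha hb1 hc1)) ⊆
      Set.range F ∪ {QuotientAddGroup.mk 0} := by
    rintro q -
    obtain ⟨P, rfl⟩ := QuotientAddGroup.mk_surjective q
    rcases P with _ | ⟨x, y, h⟩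
    · exact Or.inr rfl
    · by_cases hx : ‖x‖ ≤ c
      · left
        have hE := cu_eq.1 h.1
        have hy : ‖y‖ ≤ c ^ 2 := by
          have h2 : ‖y‖ ^ 2 ≤ (c ^ 2) ^ 2 := by
            rw [← norm_pow, hE]
            refine (Padic.nonarchimedean _ _).trans (max_le ?_ ?_)
            · refine (Padic.nonarchimedean _ _).trans (max_le ?_ ?_)
              · rw [norm_pow]
                calc ‖x‖ ^ 3 ≤ c ^ 3 := by gcongr
                  _ ≤ c ^ 4 := pow_le_pow_right₀ hc1.le (by norm_num)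
                  _ = _ := by ring
              · rw [norm_mul, norm_pow]
                calc ‖a‖ * ‖x‖ ^ 2 ≤ 1 * c ^ 2 := by gcongr
                  _ ≤ c ^ 4 := by
                    rw [one_mul]
                    exact pow_le_pow_right₀ hc1.le (by norm_num)
                  _ = _ := by ring
            · rw [norm_mul]
              calc ‖b‖ * ‖x‖ ≤ 1 * c := by gcongr
                _ = c ^ 1 := by ring
                _ ≤ c ^ 4 := pow_le_pow_right₀ hc1.le (by norm_num)
                _ = _ := by ring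
          exact (pow_le_pow_iff_left₀ (norm_nonneg _) (by positivity) two_ne_zero).1 h2
        refine ⟨⟨(x, y), ⟨⟨?_, ?_⟩, hE⟩⟩, rfl⟩
        · rw [Metric.mem_closedBall, dist_zero_right]
          exact hx
        · rw [Metric.mem_closedBall, dist_zero_right]
          exact hy
      · right
        rw [Set.mem_singleton_iff, QuotientAddGroup.eq_iff_sub_mem, sub_zero]
        intro x' y' h' e
        rw [Affine.Point.some.injEq] at e
        rw [← e.1]
        exact (not_le.1 hx).le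
  have : Finite ((Cu a b).Point ⧸ FarG ha hb1 hc1) := Set.finite_univ_iff.1 (hfin.subset huniv)
  exact AddSubgroup.index_ne_zero_of_finite

/-- no point of order two -/
theorem farG_two (ha : ‖a‖ ≤ 1) (hb1 : ‖b‖ ≤ 1) {c : ℝ}
    (hc1 : 1 < c) : ∀ P ∈ FarG ha hb1 hc1, P + P = 0 → P = 0 := by
  intro P hP h
  rcases dbl_zero h with h | ⟨x, h1, rfl⟩
  · exact h
  · have h2 := hP x 0 h1 rfl
    have h3 := ny ha hb1 (cu_eq.1 h1.1) (hc1.trans_le h2)
    rw [norm_zero] at h3
    have : 0 < ‖x‖ ^ 3 := by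
      have : 0 < ‖x‖ := by linarith
      positivity
    rw [← h3] at this
    norm_num at this

end

end Pool.Agent.H68.X
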