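import Pool.Agent.H68.X.Gm

/-!
# The dimensions of the Selmer groups of the twists of an exceptional curve
-/

set_option autoImplicit false

open scoped Classical

namespace Pool.Agent.H68.X

open Finset Module Pool.Agent.H68.A Filter
open Pool.Agent.R413.TI (CL)
open Q44.TK (Fm hF hF_one)
open Q44.BN (GG)
open Q44.TI (pd)
open Q44.BM (SS GT Rch)

variable {T : Finset ℕ} {m : ℕ} {A B : ℤ}

/-- the difference of the two exponents -/
noncomputable def Ex.u (h : Ex T m A B) {D : ℤ} (hD : D ≠ 0) : ℤ :=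
  (finrank (ZMod 2) (WW h.md A h.hB hD) : ℤ) - finrank (ZMod 2) (Fm m)

/-- the dimension -/
noncomputable def Ex.dm (h : Ex T m A B) {D : ℤ} (hD : D ≠ 0) (S : Finset ℕ) : ℕ :=
  finrank (ZMod 2) ((h.s0 (WW h.md A h.hB hD)).Sel S)

theorem Ex.gd_fin (h : Ex T m A B) (W : Submodule (ZMod 2) (GG T × Fm m)) (S : Finset ℕ) :
    Nat.card ((h.gd S).Sel W) = 2 ^ finrank (ZMod 2) ((h.gd S).Sel W) := by
  have fF := finite_of_cop h.md
  exact card_two

theorem Ex.gd_fin' (h : Ex T m A B) (W : Submodule (ZMod 2) (GG T × Fm m)) (S : Finset ℕ) :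
    Nat.card ((h.gd S).dual.Sel W) = 2 ^ finrank (ZMod 2) ((h.gd S).dual.Sel W) := by
  have fF := finite_of_cop h.md
  exact card_two

/-- **the dimensions for a curve and its dual** -/
theorem Ex.pair (h : Ex T m A B) {D₀ : ℕ} (hD₀ : D₀.Coprime m) (hD₀' : (D₀ : ℤ) ≠ 0)
    {S : Finset ℕ} (hS : ∀ p ∈ S, h.rc.Φ.P p) (hS' : ∀ p ∈ S, h.dual.rc.Φ.P p)
    (hg : GT (hF m) (hF m D₀) S) :
    (CL (A * pd S) (B * pd S ^ 2)).ncard = 2 ^ (h.dm hD₀' S + 1) ∧
    (CL (-2 * (A * pd S)) ((A * pd S) ^ 2 - 4 * (B * pd S ^ 2))).ncard =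
      2 ^ (h.dual.dm hD₀' S + 1) ∧
    (h.dm hD₀' S : ℤ) - h.dual.dm hD₀' S = h.u hD₀' := by
  have c1 := h.count hD₀ hD₀' hS hg
  have c2 := h.dual.count hD₀ hD₀' hS' hg
  have e1 : -2 * A * pd S = -2 * (A * pd S) := by ring
  have e2 : (A ^ 2 - 4 * B) * pd S ^ 2 = (A * pd S) ^ 2 - 4 * (B * pd S ^ 2) := by ring
  rw [e1, e2] at c2
  have p1 := h.card_pow (h.gB_mem hD₀') S
  have p2 := h.dual.card_pow (h.dual.gB_mem hD₀') S
  have g1 := h.gd_card (WW h.md A h.hB hD₀') S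
  have g2 := h.dual.gd_card (WW h.dual.md (-2 * A) h.dual.hB hD₀') S
  have g3 := h.gd_dual (WW h.md (-2 * A) h.hC hD₀') S
  have d1 := (h.duality hD₀' S).2 (dims h.md h.hB h.hC hD₀')
  have k1 := h.gd_fin (WW h.md A h.hB hD₀') S
  have k2 := h.gd_fin' (WW h.md (-2 * A) h.hC hD₀') S
  have q1 : finrank (ZMod 2) ((h.gd S).Sel (WW h.md A h.hB hD₀')) = h.dm hD₀' S + 1 := by
    rw [← g1, p1] at k1
    exact (Nat.pow_right_injective le_rfl k1).symm
  have q2 : finrank (ZMod 2) ((h.gd S).dual.Sel (WW h.md (-2 * A) h.hC hD₀')) =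
      h.dual.dm hD₀' S + 1 := by
    have : Nat.card ((h.gd S).dual.Sel (WW h.md (-2 * A) h.hC hD₀')) =
        2 ^ (h.dual.dm hD₀' S + 1) := by
      rw [← g3]
      exact (g2.symm.trans p2)
    rw [this] at k2
    exact (Nat.pow_right_injective le_rfl k2).symm
  refine ⟨c1.trans p1, c2.trans p2, ?_⟩
  rw [q1, q2] at d1
  unfold Ex.u
  omega

/-- the parameter of the law -/
theorem Ex.card_t (h : Ex T m A B) {D : ℤ} (hD : D ≠ 0) :
    (Nat.card (h.s0 (WW h.md A h.hB hD)).𝓛 : ℝ) = (2 : ℝ) ^ (h.u hD) * Nat.card h.F := by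
  have fF := finite_of_cop h.md
  have h1 := h.card_L (h.gB_mem hD) (fun w hw => h.WW_F hD hw)
  have h2 := h.card_F
  have h3 : Nat.card (WW h.md A h.hB hD) = 2 ^ finrank (ZMod 2) (WW h.md A h.hB hD) := card_two
  have h4 : Nat.card (Fm m) = 2 ^ finrank (ZMod 2) (Fm m) := card_two
  rw [h3] at h1
  rw [h4] at h2
  have h5 : (2 : ℝ) ^ finrank (ZMod 2) (WW h.md A h.hB hD) =
      2 * Nat.card (h.s0 (WW h.md A h.hB hD)).𝓛 := by exact_mod_cast h1
  have h6 : (2 : ℝ) ^ finrank (ZMod 2) (Fm m) = 2 * Nat.card h.F := by exact_mod_cast h2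
  unfold Ex.u
  rw [zpow_sub₀ two_ne_zero, zpow_natCast, zpow_natCast, h5, h6]
  have h7 : (Nat.card h.F : ℝ) ≠ 0 := by
    have : 0 < Nat.card h.F := Nat.card_pos
    exact_mod_cast this.ne'
  field_simp

/-- **the law of the dimension** -/
theorem Ex.law3 (h : Ex T m A B) {D₀ : ℕ} (hD₀' : (D₀ : ℤ) ≠ 0)
    (hr : Rch h.rc.Φ (hF m) (hF m D₀)) (r : ℕ) :
    Tendsto (fun X : ℕ =>
      (((SS h.rc.Φ X).filter fun S => GT (hF m) (hF m D₀) S ∧ h.dm hD₀' S = r).card : ℝ) /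
      (((SS h.rc.Φ X).filter (GT (hF m) (hF m D₀))).card : ℝ)) atTop
      (nhds (Q44.BC.lam (2 ^ (h.u hD₀')) r)) := by
  have ht : (0 : ℝ) < (2 : ℝ) ^ (h.u hD₀') := by positivity
  have hG : ∀ S, h.dm hD₀' S = r ↔
      finrank (ZMod 2) ((h.s0 (WW h.md A h.hB hD₀')).Sel S) = r := fun S => by
    unfold Ex.dm
    exact Iff.rfl
  have := h.law (WW h.md A h.hB hD₀') (hF m D₀) ht (h.card_t hD₀') hr r
    (fun S => h.dm hD₀' S = r) hG
  refine this.congr fun X => ?_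
  congr!

end Pool.Agent.H68.X
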