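import Pool.Agent.H68.L.R_pool_sql_team_seeded_3997aac3.Q44.BC.LA2

/-!
# The constants of the law
-/

set_option autoImplicit false

open Filter Finset

namespace Pool.Agent.H68.X

/-- the finite products -/
noncomputable def et (n : ℕ) : ℝ := ∏ i ∈ range n, (1 - (1 / 2 : ℝ) ^ (i + 1))

/-- the infinite product -/
noncomputable def eta : ℝ := ∏' i : ℕ, (1 - (1 / 2 : ℝ) ^ (i + 1))

theorem et_succ (n : ℕ) : et (n + 1) = et n * (1 - (1 / 2 : ℝ) ^ (n + 1)) := prod_range_succ _ _

theorem et_pos (n : ℕ) : 0 < et n := prod_pos fun i _ => by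
  have : (1 / 2 : ℝ) ^ (i + 1) < 1 := pow_lt_one₀ (by norm_num) (by norm_num) (by omega)
  linarith

theorem et_tendsto : Tendsto et atTop (nhds eta) := by
  have h1 : Multipliable fun i : ℕ => (1 + -(1 / 2 : ℝ) ^ (i + 1)) := by
    apply multipliable_one_add_of_summable
    have : Summable fun i : ℕ => (1 / 2 : ℝ) ^ (i + 1) :=
      (summable_nat_add_iff 1).2 (summable_geometric_of_lt_one (by norm_num) (by norm_num))
    refine this.congr fun i => ?_
    rw [norm_neg, Real.norm_of_nonneg (by positivity)]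
  have h2 : (fun i : ℕ => (1 + -(1 / 2 : ℝ) ^ (i + 1))) = fun i : ℕ => (1 - (1 / 2 : ℝ) ^ (i + 1)) := by
    funext i
    ring
  rw [h2] at h1
  exact h1.hasProd.tendsto_prod_nat

theorem et_ge (n k : ℕ) : et n * (1 - (1 / 2 : ℝ) ^ n + (1 / 2) ^ (n + k)) ≤ et (n + k) := by
  induction k with
  | zero => simp
  | succ k ih =>
    have e : n + (k + 1) = (n + k) + 1 := by ring
    rw [e, et_succ]
    have h1 : (1 / 2 : ℝ) ^ (n + k) ≤ (1 / 2) ^ n :=
      pow_le_pow_of_le_one (by norm_num) (by norm_num) (by omega)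
    have h2 : (1 / 2 : ℝ) ^ (n + k + 1) = (1 / 2) ^ (n + k) / 2 := by
      rw [pow_succ]
      ring
    have h3 : (0 : ℝ) < (1 / 2) ^ (n + k) := by positivity
    have h4 : (1 / 2 : ℝ) ^ (n + k) ≤ 1 := pow_le_one₀ (by norm_num) (by norm_num)
    have h5 := et_pos n
    rw [h2]
    have h6 : et n * (1 - (1 / 2 : ℝ) ^ n + (1 / 2) ^ (n + k)) * (1 - (1 / 2) ^ (n + k) / 2) ≤
        et (n + k) * (1 - (1 / 2) ^ (n + k) / 2) :=
      mul_le_mul_of_nonneg_right ih (by linarith)
    refine le_trans ?_ h6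
    rw [mul_assoc]
    refine mul_le_mul_of_nonneg_left ?_ h5.le
    nlinarith

theorem et_anti : Antitone et := by
  refine antitone_nat_of_succ_le fun n => ?_
  rw [et_succ]
  have h1 : (0 : ℝ) < (1 / 2) ^ (n + 1) := by positivity
  have := et_pos n
  nlinarith

theorem eta_bounds (n : ℕ) : et n * (1 - (1 / 2 : ℝ) ^ n) ≤ eta ∧ eta ≤ et n := by
  constructor
  · refine ge_of_tendsto et_tendsto ?_
    filter_upwards [eventually_ge_atTop n] with N hN
    obtain ⟨k, rfl⟩ := Nat.exists_eq_add_of_le hN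
    refine le_trans ?_ (et_ge n k)
    refine mul_le_mul_of_nonneg_left ?_ (et_pos n).le
    have : (0 : ℝ) < (1 / 2) ^ (n + k) := by positivity
    linarith
  · refine le_of_tendsto et_tendsto ?_
    filter_upwards [eventually_ge_atTop n] with N hN
    exact et_anti hN

theorem eta_num : 0.2887 < eta ∧ eta < 0.2888 := by
  obtain ⟨h1, h2⟩ := eta_bounds 16
  have e : et 16 = ∏ i ∈ range 16, (1 - (1 / 2 : ℝ) ^ (i + 1)) := rfl
  constructor
  · refine lt_of_lt_of_le ?_ h1
    rw [e]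
    simp only [prod_range_succ, prod_range_zero]
    norm_num
  · refine lt_of_le_of_lt h2 ?_
    rw [e]
    simp only [prod_range_succ, prod_range_zero]
    norm_num

/-- the limit law of the pair of the dimensions -/
noncomputable def pr (r s : ℕ) : ℝ := (1 / 2) ^ (r * s) * eta / (et r * et s)

theorem pr_zero : pr 0 0 = eta := by
  unfold pr et
  simp

theorem prod_shift (s n : ℕ) : et s * ∏ i ∈ range n, (1 - (1 / 2 : ℝ) ^ (s + i + 1)) = et (s + n) := by
  unfold et
  rw [prod_range_add]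
theorem prod_pow2 (r : ℕ) : ∏ i ∈ range r, ((2 : ℝ) ^ r - 2 ^ i) = 2 ^ (r * r) * et r := by
  have h1 : ∏ i ∈ range r, ((2 : ℝ) ^ r - 2 ^ i) =
      ∏ i ∈ range r, (2 ^ r * (1 - (1 / 2 : ℝ) ^ (r - i))) := by
    refine prod_congr rfl fun i hi => ?_
    have hi' := (mem_range.1 hi).le
    rw [one_div, inv_pow, mul_sub, mul_one]
    congr 1
    rw [pow_sub₀ _ two_ne_zero hi']
    field_simp
  rw [h1, prod_mul_distrib, prod_const, card_range, ← pow_mul]
  congr 1
  unfold et
  rw [← Finset.prod_range_reflect]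
  refine prod_congr rfl fun i hi => ?_
  have := mem_range.1 hi
  congr 2
  omega

/-- **the two forms of the law** -/
theorem lam_eq (r s : ℕ) : Q44.BC.lam ((2 : ℝ) ^ ((r : ℤ) - s)) r = pr r s := by
  have h1 := Q44.BC.lam_tendsto (t := (2 : ℝ) ^ ((r : ℤ) - s)) (by positivity) r
  refine tendsto_nhds_unique h1 ?_
  have h2 : Tendsto (fun n => et (s + n)) atTop (nhds eta) := by
    have := et_tendsto.comp (tendsto_add_atTop_nat s)
    refine this.congr fun n => ?_
    rw [Function.comp_apply, add_comm]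
  have h3 := h2.const_mul ((1 / 2 : ℝ) ^ (r * s) / (et r * et s))
  have e0 : (1 / 2 : ℝ) ^ (r * s) / (et r * et s) * eta = pr r s := by
    unfold pr
    ring
  rw [e0] at h3
  refine h3.congr fun n => ?_
  rw [← prod_shift s n, prod_pow2]
  have h4 : ∀ i, (2 : ℝ) ^ ((r : ℤ) - s) / 2 ^ (r + i + 1) = (1 / 2) ^ (s + i + 1) := by
    intro i
    rw [zpow_sub₀ two_ne_zero, zpow_natCast, zpow_natCast, one_div, inv_pow, pow_add, pow_add,
      pow_add, pow_add]
    field_simp
  simp only [h4]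
  have h5 : ((2 : ℝ) ^ ((r : ℤ) - s)) ^ r = 2 ^ (r * r) * (1 / 2) ^ (r * s) := by
    rw [zpow_sub₀ two_ne_zero, zpow_natCast, zpow_natCast, div_pow, ← pow_mul, ← pow_mul, one_div,
      inv_pow, mul_comm s r]
    field_simp
  rw [h5]
  have h6 := (et_pos r).ne'
  have h7 := (et_pos s).ne'
  have h8 : (2 : ℝ) ^ (r * r) ≠ 0 := by positivity
  field_simp

end Pool.Agent.H68.X
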