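import Pool.Agent.H68.X.Fn
import Pool.Agent.H68.X.Fo
import Pool.Agent.H68.A.Mem

/-!
# The twisting numbers and the sets of primes
-/

set_option autoImplicit false

open scoped Classical

namespace Pool.Agent.H68.X

open Finset Module Pool.Agent.H68.A Filter
open Pool.Agent.R413.TI (CL)
open Q44.TK (Fm hF hF_one hF_eq hF_sum)
open Q44.BN (GG)
open Q44.TI (pd pd_pos)
open Q44.BM (SS GT Rch Fam mem_SS)

/-- the nonzero squarefree integers in the same local classes -/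
def Fl (N D₀ D : ℤ) : Prop := Squarefree D ∧ 0 < D * D₀ ∧
  ∀ (p : ℕ) [Fact p.Prime], (p : ℤ) ∣ N → IsSquare ((D * D₀ : ℤ) : ℚ_[p])

/-- the parts of a squarefree integer inside and outside of `N` -/
theorem decomp (N : ℤ) {D : ℤ} (hD : Squarefree D) : ∃ (d : ℤ) (n : ℕ), D = d * n ∧
    (∀ p : ℕ, p.Prime → (p : ℤ) ∣ d → (p : ℤ) ∣ N) ∧
    (∀ p : ℕ, p.Prime → p ∣ n → ¬ (p : ℤ) ∣ N) := by
  obtain ⟨n, hn⟩ : ∃ n : ℕ, n = ∏ p ∈ D.natAbs.primeFactors.filter (fun p : ℕ => ¬ (p : ℤ) ∣ N), p :=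
    ⟨_, rfl⟩
  obtain ⟨g, hg⟩ : ∃ g : ℕ, g = ∏ p ∈ D.natAbs.primeFactors.filter (fun p : ℕ => (p : ℤ) ∣ N), p :=
    ⟨_, rfl⟩
  have h1 : g * n = D.natAbs := by
    rw [hg, hn, Finset.prod_filter_mul_prod_filter_not,
      Nat.prod_primeFactors_of_squarefree (Int.squarefree_natAbs.2 hD)]
  refine ⟨D.sign * g, n, ?_, ?_, ?_⟩
  · have h2 : D = D.sign * (D.natAbs : ℤ) := (Int.sign_mul_natAbs D).symm
    have h3 : (g : ℤ) * (n : ℤ) = (D.natAbs : ℤ) := by rw [← h1, Nat.cast_mul]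
    rw [mul_assoc, h3]
    exact h2
  · intro p hp hd
    have hpi := Nat.prime_iff_prime_int.1 hp
    rcases hpi.dvd_or_dvd hd with h2 | h2
    · exfalso
      have h3 := Int.natAbs_dvd_natAbs.2 h2
      rw [Int.natAbs_sign_of_ne_zero hD.ne_zero, Int.natAbs_natCast] at h3
      exact hp.one_lt.ne' (Nat.dvd_one.1 h3)
    · have h3 : p ∣ g := Int.natCast_dvd_natCast.1 h2
      rw [hg, Prime.dvd_finsetProd_iff hp.prime] at h3
      obtain ⟨q, hq, hpq⟩ := h3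
      obtain ⟨hq1, hq2⟩ := mem_filter.1 hq
      rw [(Nat.prime_dvd_prime_iff_eq hp (Nat.prime_of_mem_primeFactors hq1)).1 hpq]
      exact hq2
  · intro p hp h3
    rw [hn, Prime.dvd_finsetProd_iff hp.prime] at h3
    obtain ⟨q, hq, hpq⟩ := h3
    obtain ⟨hq1, hq2⟩ := mem_filter.1 hq
    rw [(Nat.prime_dvd_prime_iff_eq hp (Nat.prime_of_mem_primeFactors hq1)).1 hpq]
    exact hq2

/-- a square of `ℚ_p` which is a product of two squarefree numbers -/
theorem dvd_iff_of_sq {D D' : ℤ} (hD : Squarefree D) (hD' : Squarefree D') {p : ℕ} [Fact p.Prime]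
    (h : IsSquare ((D * D' : ℤ) : ℚ_[p])) (hd : (p : ℤ) ∣ D) : (p : ℤ) ∣ D' := by
  by_contra hn
  have h1 := even_val_of_sq h
  have h0 : ((D : ℤ) : ℚ_[p]) ≠ 0 := by exact_mod_cast hD.ne_zero
  have h0' : ((D' : ℤ) : ℚ_[p]) ≠ 0 := by exact_mod_cast hD'.ne_zero
  rw [Int.cast_mul, Padic.valuation_mul h0 h0', val_one hd hD, val_unit hn] at h1
  revert h1
  decide

/-- the parts inside of `N` agree -/
theorem part_eq {N D₀ D d d' : ℤ} {n n' : ℕ} (hD₀ : Squarefree D₀) (hF : Fl N D₀ D)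
    (e : D₀ = d * n) (e' : D = d' * n')
    (h1 : ∀ p : ℕ, p.Prime → (p : ℤ) ∣ d → (p : ℤ) ∣ N)
    (h2 : ∀ p : ℕ, p.Prime → p ∣ n → ¬ (p : ℤ) ∣ N)
    (h1' : ∀ p : ℕ, p.Prime → (p : ℤ) ∣ d' → (p : ℤ) ∣ N)
    (h2' : ∀ p : ℕ, p.Prime → p ∣ n' → ¬ (p : ℤ) ∣ N) : d' = d := by
  obtain ⟨hD, hpos, hsq⟩ := hF
  have sd : Squarefree d := hD₀.squarefree_of_dvd (Dvd.intro _ e.symm)
  have sd' : Squarefree d' := hD.squarefree_of_dvd (Dvd.intro _ e'.symm)
  have habs : d'.natAbs = d.natAbs := by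
    rw [Nat.Squarefree.ext_iff (Int.squarefree_natAbs.2 sd') (Int.squarefree_natAbs.2 sd)]
    intro p hp
    have hpf : Fact p.Prime := ⟨hp⟩
    have hpi := Nat.prime_iff_prime_int.1 hp
    rw [← Int.natCast_dvd, ← Int.natCast_dvd]
    constructor
    · intro hd
      have hN := h1' p hp hd
      have h3 := dvd_iff_of_sq hD hD₀ (hsq p hN) (by rw [e']; exact hd.mul_right _)
      rw [e] at h3
      rcases hpi.dvd_or_dvd h3 with h4 | h4
      · exact h4
      · exact absurd hN (h2 p hp (Int.natCast_dvd_natCast.1 h4))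
    · intro hd
      have hN := h1 p hp hd
      have h3 := dvd_iff_of_sq hD₀ hD (by rw [mul_comm]; exact hsq p hN)
        (by rw [e]; exact hd.mul_right _)
      rw [e'] at h3
      rcases hpi.dvd_or_dvd h3 with h4 | h4
      · exact h4
      · exact absurd hN (h2' p hp (Int.natCast_dvd_natCast.1 h4))
  rcases Int.natAbs_eq_natAbs_iff.1 habs with h | h
  · exact h
  · exfalso
    rw [e, e', h] at hpos
    have h3 : (0 : ℤ) ≤ n := Int.natCast_nonneg _
    have h4 : (0 : ℤ) ≤ n' := Int.natCast_nonneg _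
    nlinarith [mul_nonneg h3 h4, mul_nonneg (sq_nonneg d) (mul_nonneg h3 h4)]

variable {T : Finset ℕ} {m : ℕ} {N : ℤ}

/-- **the twisting numbers and the sets of primes** -/
theorem fl_iff (h : Md T m) (hT : ∀ p : ℕ, p.Prime → (p ∈ T ↔ (p : ℤ) ∣ N)) {D₀ d : ℤ} {n : ℕ}
    (hD₀ : Squarefree D₀) (e : D₀ = d * n)
    (h1 : ∀ p : ℕ, p.Prime → (p : ℤ) ∣ d → (p : ℤ) ∣ N)
    (h2 : ∀ p : ℕ, p.Prime → p ∣ n → ¬ (p : ℤ) ∣ N) (D : ℤ) :
    Fl N D₀ D ↔ ∃ S : Finset ℕ, (∀ p ∈ S, p.Prime ∧ p ∉ T) ∧ GT (hF m) (hF m n) S ∧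
      D = d * pd S := by
  have hn0 : n ≠ 0 := by
    rintro rfl
    exact hD₀.ne_zero (by rw [e]; simp)
  have hd0 : d ≠ 0 := by
    rintro rfl
    exact hD₀.ne_zero (by rw [e]; simp)
  have cop : ∀ k : ℕ, (∀ p : ℕ, p.Prime → p ∣ k → ¬ (p : ℤ) ∣ N) → k.Coprime m := by
    intro k hk
    refine Nat.Coprime.symm (Nat.coprime_of_dvd fun p hp hpm hpk => ?_)
    exact hk p hp hpk ((hT p hp).1 ((h.dv p hp).1 hpm))
  have hnc := cop n h2
  have cast_eq : ∀ {p : ℕ} [Fact p.Prime] (k : ℕ), ((d * k * D₀ : ℤ) : ℚ_[p]) =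
      (d : ℚ_[p]) ^ 2 * ((k : ℚ_[p]) * n) := by
    intro p _ k
    rw [e]
    push_cast
    ring
  have d0p : ∀ (p : ℕ) [Fact p.Prime], (d : ℚ_[p]) ≠ 0 := fun p _ => by exact_mod_cast hd0
  constructor
  · intro hFl
    obtain ⟨d', n', e', h1', h2'⟩ := decomp N hFl.1
    have hdd := part_eq hD₀ hFl e e' h1 h2 h1' h2'
    subst hdd
    have hn' : Squarefree n' := by
      have : Squarefree (n' : ℤ) := hFl.1.squarefree_of_dvd (Dvd.intro_left _ e'.symm)
      rwa [Int.squarefree_natCast] at this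
    have hnc' := cop n' h2'
    have hScop : ∀ p ∈ n'.primeFactors, p.Coprime m := fun p hp =>
      Nat.Coprime.coprime_dvd_left (Nat.dvd_of_mem_primeFactors hp) hnc'
    refine ⟨n'.primeFactors, fun p hp => ?_, ?_, ?_⟩
    · have hp1 := Nat.prime_of_mem_primeFactors hp
      exact ⟨hp1, fun hpT => h2' p hp1 (Nat.dvd_of_mem_primeFactors hp) ((hT p hp1).1 hpT)⟩
    · show ∑ p ∈ n'.primeFactors, hF m p = _
      rw [hF_sum _ hScop, Nat.prod_primeFactors_of_squarefree hn', hF_eq hnc hnc']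
      refine sq_zmod _ _ h.pos fun p hp hpm => ?_
      obtain ⟨r, hr⟩ := hFl.2.2 p ((hT p hp.out).1 ((h.dv p hp.out).1 hpm))
      rw [e', cast_eq] at hr
      have hd := d0p p
      refine ⟨r / d', ?_⟩
      rw [Nat.cast_mul]
      field_simp
      linear_combination hr
    · rw [e']
      unfold pd
      rw [Nat.prod_primeFactors_of_squarefree hn']
  · rintro ⟨S, hS, hG, rfl⟩
    have hScop : ∀ p ∈ S, p.Coprime m := fun p hp => by
      rw [Nat.Prime.coprime_iff_not_dvd (hS p hp).1, h.dv p (hS p hp).1]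
      exact (hS p hp).2
    have hSc : (∏ q ∈ S, q).Coprime m := Nat.Coprime.prod_left hScop
    have hcl' : hF m (∏ q ∈ S, q) = hF m n := by
      rw [← hF_sum S hScop]
      exact hG
    have hpd : pd S = ((∏ q ∈ S, q : ℕ) : ℤ) := rfl
    have hpos : 0 < ∏ q ∈ S, q := prod_pos fun q hq => (hS q hq).1.pos
    have hpd2 : pd S = ∏ q ∈ S, (q : ℤ) := by
      rw [hpd]
      push_cast
      rfl
    have sqS : Squarefree (pd S) := by
      rw [hpd2]
      exact sqf_prod S fun q hq => (hS q hq).1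
    refine ⟨?_, ?_, fun p hp hpN => ?_⟩
    · rw [squarefree_mul_iff]
      refine ⟨IsCoprime.isRelPrime ?_, hD₀.squarefree_of_dvd (Dvd.intro _ e.symm), sqS⟩
      rw [hpd2]
      refine IsCoprime.prod_right fun q hq => ?_
      refine ((Nat.prime_iff_prime_int.1 (hS q hq).1).coprime_iff_not_dvd.2 fun hd => ?_).symm
      exact (hS q hq).2 ((hT q (hS q hq).1).2 (h1 q (hS q hq).1 hd))
    · rw [e, hpd]
      have h3 : (0 : ℤ) < n := by exact_mod_cast Nat.pos_of_ne_zero hn0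
      have h4 : (0 : ℤ) < ((∏ q ∈ S, q : ℕ) : ℤ) := by exact_mod_cast hpos
      have h5 : 0 < d ^ 2 := by positivity
      nlinarith [mul_pos h5 (mul_pos h3 h4)]
    · obtain ⟨r, hr⟩ := sq_pair h hSc hnc hcl' ((hT p hp.out).2 hpN)
      rw [hpd, cast_eq]
      exact ⟨d * r, by rw [hr]; ring⟩

end Pool.Agent.H68.X
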