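import Pool.Agent.H68.X.Fp

/-!
# The law for the twists of an exceptional curve
-/

set_option autoImplicit false

open scoped Classical

namespace Pool.Agent.H68.X

open Finset Module Pool.Agent.H68.A Filter
open Pool.Agent.R413.TI (CL)
open Q44.TK (Fm hF hF_one hF_eq hF_sum)
open Q44.BN (GG N2)
open Q44.TI (pd pd_pos)
open Q44.BM (SS GT Rch Fam mem_SS)

variable {T : Finset ℕ} {m : ℕ} {A B N : ℤ}

/-- the counts -/
theorem cnt_eq (h : Ex T m A B) (hT : ∀ p : ℕ, p.Prime → (p ∈ T ↔ (p : ℤ) ∣ N)) {D₀ d : ℤ} {n : ℕ}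
    (hD₀ : Squarefree D₀) (e : D₀ = d * n)
    (h1 : ∀ p : ℕ, p.Prime → (p : ℤ) ∣ d → (p : ℤ) ∣ N)
    (h2 : ∀ p : ℕ, p.Prime → p ∣ n → ¬ (p : ℤ) ∣ N) (Q : ℤ → Prop) (X : ℕ) :
    Set.ncard {D : ℤ | |D| ≤ X ∧ Fl N D₀ D ∧ Q D} =
      ((SS h.rc.Φ (X / d.natAbs)).filter fun S => GT (hF m) (hF m n) S ∧ Q (d * pd S)).card := by
  have hd0 : d ≠ 0 := by
    rintro rfl
    exact hD₀.ne_zero (by rw [e]; simp)
  have hset : {D : ℤ | |D| ≤ X ∧ Fl N D₀ D ∧ Q D} = (fun S : Finset ℕ => d * pd S) ''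
      (((SS h.rc.Φ (X / d.natAbs)).filter fun S => GT (hF m) (hF m n) S ∧ Q (d * pd S) :
        Finset (Finset ℕ)) : Set (Finset ℕ)) := by
    have habs : ∀ S : Finset ℕ, (∀ p ∈ S, p.Prime ∧ p ∉ T) →
        (|d * pd S| ≤ (X : ℤ) ↔ ∏ p ∈ S, p ≤ X / d.natAbs) := by
      intro S hS
      rw [Nat.le_div_iff_mul_le (Int.natAbs_pos.2 hd0), abs_mul, Int.abs_eq_natAbs d]
      have : |pd S| = ((∏ p ∈ S, p : ℕ) : ℤ) := by
        unfold pd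
        rw [abs_of_nonneg (Int.natCast_nonneg _)]
      rw [this, mul_comm]
      exact_mod_cast Iff.rfl
    ext D
    rw [Set.mem_ofPred_eq, Set.mem_image]
    constructor
    · rintro ⟨k1, k2, k3⟩
      obtain ⟨S, hS, hG, rfl⟩ := (fl_iff h.md hT hD₀ e h1 h2 D).1 k2
      refine ⟨S, ?_, rfl⟩
      rw [Finset.mem_coe, mem_filter, mem_SS]
      exact ⟨⟨fun p hp => (h.P_iff p).2 (hS p hp), (habs S hS).1 k1⟩, hG, k3⟩
    · rintro ⟨S, hS, rfl⟩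
      rw [Finset.mem_coe, mem_filter, mem_SS] at hS
      obtain ⟨⟨k1, k2⟩, k3, k4⟩ := hS
      have hS' : ∀ p ∈ S, p.Prime ∧ p ∉ T := fun p hp => (h.P_iff p).1 (k1 p hp)
      exact ⟨(habs S hS').2 k2, (fl_iff h.md hT hD₀ e h1 h2 _).2 ⟨S, hS', k3, rfl⟩, k4⟩
  rw [hset, Set.InjOn.ncard_image, Set.ncard_coe_finset]
  intro S hS S' hS' he
  have hp : ∀ S : Finset ℕ, S ∈ (((SS h.rc.Φ (X / d.natAbs)).filter fun S =>
      GT (hF m) (hF m n) S ∧ Q (d * pd S) : Finset (Finset ℕ)) : Set (Finset ℕ)) →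
      (∏ p ∈ S, p).primeFactors = S := by
    intro S hS
    rw [Finset.mem_coe, mem_filter, mem_SS] at hS
    exact Nat.primeFactors_prod fun p hp => ((h.P_iff p).1 (hS.1.1 p hp)).1
  have h3 : pd S = pd S' := mul_left_cancel₀ hd0 he
  have h4 : ∏ p ∈ S, p = ∏ p ∈ S', p := by
    unfold pd at h3
    exact_mod_cast h3
  rw [← hp S hS, ← hp S' hS', h4]

/-- the bad primes -/
theorem exists_ex {a b : ℤ} (hb : ¬ IsSquare b) (hc : a ^ 2 - 4 * b ≠ 0)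
    (hsq : IsSquare (b * (a ^ 2 - 4 * b))) {d : ℤ} (hd : d ≠ 0)
    (h1 : ∀ p : ℕ, p.Prime → (p : ℤ) ∣ d → (p : ℤ) ∣ 2 * b * (a ^ 2 - 4 * b)) :
    ∃ (T : Finset ℕ) (m : ℕ), Ex T m (a * d) (b * d ^ 2) ∧
      ∀ p : ℕ, p.Prime → (p ∈ T ↔ (p : ℤ) ∣ 2 * b * (a ^ 2 - 4 * b)) := by
  have hb0 : b ≠ 0 := by
    rintro rfl
    exact hb IsSquare.zero
  obtain ⟨N, hN⟩ : ∃ N, N = 2 * b * (a ^ 2 - 4 * b) := ⟨_, rfl⟩
  have hN0 : N ≠ 0 := by
    rw [hN]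
    exact mul_ne_zero (mul_ne_zero two_ne_zero hb0) hc
  have hT : ∀ p : ℕ, p.Prime → (p ∈ N.natAbs.primeFactors ↔ (p : ℤ) ∣ N) := by
    intro p hp
    rw [Nat.mem_primeFactors, Int.natCast_dvd]
    exact ⟨fun h => h.2.1, fun h => ⟨hp, h, Int.natAbs_ne_zero.2 hN0⟩⟩
  have h2N : (2 : ℤ) ∣ N := by
    rw [hN]
    exact ⟨b * (a ^ 2 - 4 * b), by ring⟩
  have h2N' : 2 ∣ N.natAbs := by
    have := Int.natAbs_dvd_natAbs.2 h2N
    simpa using this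
  refine ⟨N.natAbs.primeFactors, 8 * N.natAbs, ?_, fun p hp => by rw [hT p hp, hN]⟩
  refine ⟨⟨fun p hp => Nat.prime_of_mem_primeFactors hp, ?_, ?_, dvd_mul_right 8 _, ?_, ?_⟩,
    mul_ne_zero hb0 (pow_ne_zero 2 hd), ?_, ?_, ?_, ?_⟩
  · exact (hT 2 Nat.prime_two).2 (by exact_mod_cast h2N)
  · exact mul_ne_zero (by norm_num) (Int.natAbs_ne_zero.2 hN0)
  · intro p hp
    rw [Nat.Prime.dvd_mul hp, Nat.mem_primeFactors]
    constructor
    · rintro (h | h)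
      · have h3 : p ∣ 2 ^ 3 := h
        have h4 := (Nat.prime_dvd_prime_iff_eq hp Nat.prime_two).1 (hp.dvd_of_dvd_pow h3)
        exact ⟨hp, by rw [h4]; exact h2N', Int.natAbs_ne_zero.2 hN0⟩
      · exact ⟨hp, h, Int.natAbs_ne_zero.2 hN0⟩
    · exact fun h => Or.inr h.2.1
  · have h3 := Nat.prod_primeFactors_dvd N.natAbs
    exact mul_dvd_mul (by norm_num) h3
  · have e : (a * d) ^ 2 - 4 * (b * d ^ 2) = (a ^ 2 - 4 * b) * d ^ 2 := by ring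
    rw [e]
    exact mul_ne_zero hc (pow_ne_zero 2 hd)
  · rintro ⟨s, hs⟩
    obtain ⟨t, rfl⟩ := dvd_of_sq hs
    apply hb
    refine ⟨t, ?_⟩
    apply mul_right_cancel₀ (pow_ne_zero 2 hd)
    linear_combination hs
  · obtain ⟨s, hs⟩ := hsq
    exact ⟨s * d ^ 2, by linear_combination d ^ 4 * hs⟩
  · intro p hp
    rw [hT p hp]
    have hpi := Nat.prime_iff_prime_int.1 hp
    have e : N2 (a * d) (b * d ^ 2) = N * d ^ 4 := by
      unfold N2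
      rw [hN]
      ring
    rw [e]
    refine ⟨fun h => h.mul_right _, fun h => ?_⟩
    rcases hpi.dvd_or_dvd h with h3 | h3
    · exact h3
    · rw [hN]
      exact h1 p hp (hpi.dvd_of_dvd_pow h3)

/-- **the core of the theorem** -/
theorem core {a b D₀ : ℤ} (hb : ¬ IsSquare b) (hc : a ^ 2 - 4 * b ≠ 0)
    (hsq : IsSquare (b * (a ^ 2 - 4 * b))) (h₀ : Squarefree D₀) :
    ∃ u : ℤ, (∀ D, Fl (2 * b * (a ^ 2 - 4 * b)) D₀ D → ∃ r s : ℕ,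
        (CL (a * D) (b * D ^ 2)).ncard = 2 ^ (r + 1) ∧
        (CL (-2 * (a * D)) ((a * D) ^ 2 - 4 * (b * D ^ 2))).ncard = 2 ^ (s + 1) ∧
        (r : ℤ) - s = u) ∧
      ∀ r : ℕ, Tendsto (fun X : ℕ =>
        (Set.ncard {D : ℤ | |D| ≤ X ∧ Fl (2 * b * (a ^ 2 - 4 * b)) D₀ D ∧
          (CL (a * D) (b * D ^ 2)).ncard = 2 ^ (r + 1)} : ℝ) /
        (Set.ncard {D : ℤ | |D| ≤ X ∧ Fl (2 * b * (a ^ 2 - 4 * b)) D₀ D ∧ True} : ℝ)) atTop
        (nhds (Q44.BC.lam (2 ^ u) r)) := by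
  obtain ⟨d, n, e, h1, h2⟩ := decomp (2 * b * (a ^ 2 - 4 * b)) h₀
  have hn0 : n ≠ 0 := by
    rintro rfl
    exact h₀.ne_zero (by rw [e]; simp)
  have hd0 : d ≠ 0 := by
    rintro rfl
    exact h₀.ne_zero (by rw [e]; simp)
  obtain ⟨T, m, h, hT⟩ := exists_ex hb hc hsq hd0 h1
  have hn0' : (n : ℤ) ≠ 0 := by exact_mod_cast hn0
  have hnc : n.Coprime m := by
    refine Nat.Coprime.symm (Nat.coprime_of_dvd fun p hp hpm hpk => ?_)
    exact h2 p hp hpk ((hT p hp).1 ((h.md.dv p hp).1 hpm))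
  have hP : ∀ S : Finset ℕ, (∀ p ∈ S, p.Prime ∧ p ∉ T) → (∀ p ∈ S, h.rc.Φ.P p) ∧
      ∀ p ∈ S, h.dual.rc.Φ.P p := fun S hS =>
    ⟨fun p hp => (h.P_iff p).2 (hS p hp), fun p hp => (h.dual.P_iff p).2 (hS p hp)⟩
  have hfl := fl_iff h.md hT h₀ e h1 h2
  have hpair : ∀ S : Finset ℕ, (∀ p ∈ S, p.Prime ∧ p ∉ T) → GT (hF m) (hF m n) S →
      (CL (a * (d * pd S)) (b * (d * pd S) ^ 2)).ncard = 2 ^ (h.dm hn0' S + 1) ∧
      (CL (-2 * (a * (d * pd S))) ((a * (d * pd S)) ^ 2 - 4 * (b * (d * pd S) ^ 2))).ncard =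
        2 ^ (h.dual.dm hn0' S + 1) ∧ (h.dm hn0' S : ℤ) - h.dual.dm hn0' S = h.u hn0' := by
    intro S hS hG
    have e1 : a * (d * pd S) = a * d * pd S := by ring
    have e2 : b * (d * pd S) ^ 2 = b * d ^ 2 * pd S ^ 2 := by ring
    rw [e1, e2]
    exact h.pair hnc hn0' (hP S hS).1 (hP S hS).2 hG
  refine ⟨h.u hn0', fun D hD => ?_, fun r => ?_⟩
  · obtain ⟨S, hS, hG, rfl⟩ := (hfl D).1 hD
    exact ⟨_, _, hpair S hS hG⟩
  · have hrch : Rch h.rc.Φ (hF m) (hF m n) := by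
      have hFl : Fl (2 * b * (a ^ 2 - 4 * b)) D₀ D₀ := by
        refine ⟨h₀, mul_self_pos.2 h₀.ne_zero, fun p _ _ => ⟨(D₀ : ℚ_[p]), by push_cast; ring⟩⟩
      obtain ⟨S, hS, hG, -⟩ := (hfl D₀).1 hFl
      exact ⟨S, (hP S hS).1, hG⟩
    have hlaw := h.law3 hn0' hrch r
    have hdiv : Tendsto (fun X : ℕ => X / d.natAbs) atTop atTop :=
      Nat.tendsto_div_const_atTop (Int.natAbs_ne_zero.2 hd0)
    refine (hlaw.comp hdiv).congr fun X => ?_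
    rw [Function.comp_apply, cnt_eq h hT h₀ e h1 h2, cnt_eq h hT h₀ e h1 h2]
    refine congrArg₂ (fun x y : ℝ => x / y) (congrArg Nat.cast (congrArg card ?_))
      (congrArg Nat.cast (congrArg card ?_))
    · ext S
      simp only [mem_filter, mem_SS]
      refine and_congr_right fun hS => and_congr_right fun hG => ?_
      have hS' : ∀ p ∈ S, p.Prime ∧ p ∉ T := fun p hp => (h.P_iff p).1 (hS.1 p hp)
      rw [(hpair S hS' hG).1]
      constructor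
      · rintro h3
        rw [h3]
      · intro h3
        have := Nat.pow_right_injective le_rfl h3
        omega
    · ext S
      simp only [mem_filter, and_true]

end Pool.Agent.H68.X
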