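import Pool.Agent.H68.X.Fq

/-!
# The class has positive density
-/

set_option autoImplicit false

open scoped Classical

namespace Pool.Agent.H68.X

open Finset

theorem card_div {M j K : ℕ} (hj : 0 < j) (hc : Nat.Coprime (j ^ 2) M) :
    ((range K).filter fun k => j ^ 2 ∣ 1 + M * k).card ≤ K / j ^ 2 + 1 := by
  have hj2 : 0 < j ^ 2 := by positivity
  rw [← card_range (K / j ^ 2 + 1)]
  refine card_le_card_of_injOn (fun k => k / j ^ 2) ?_ ?_
  · intro k hk
    have := mem_range.1 (mem_filter.1 hk).1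
    rw [Finset.mem_coe, mem_range]
    exact Nat.lt_succ_of_le (Nat.div_le_div_right this.le)
  · intro k hk k' hk' he
    have h1 := (mem_filter.1 hk).2
    have h2 := (mem_filter.1 hk').2
    have he' : k / j ^ 2 = k' / j ^ 2 := he
    have h3 : k ≡ k' [MOD j ^ 2] := by
      have h4 : M * k ≡ M * k' [MOD j ^ 2] := by
        have h5 : 1 + M * k ≡ 1 + M * k' [MOD j ^ 2] :=
          ((Nat.modEq_zero_iff_dvd).2 h1).trans ((Nat.modEq_zero_iff_dvd).2 h2).symm
        exact Nat.ModEq.add_left_cancel' 1 h5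
      exact Nat.ModEq.cancel_left_of_coprime hc h4
    have h4 := Nat.div_add_mod k (j ^ 2)
    have h5 := Nat.div_add_mod k' (j ^ 2)
    have h6 : k % j ^ 2 = k' % j ^ 2 := h3
    rw [← h4, ← h5, he', h6]

theorem sum_inv (J : ℕ) (hJ : 2 ≤ J) : ∑ j ∈ Icc 3 J, (1 : ℝ) / (j : ℝ) ^ 2 ≤ 1 / 2 - 1 / J := by
  induction J, hJ using Nat.le_induction with
  | base => simp
  | succ J hJ ih =>
    rw [Finset.sum_Icc_succ_top (by omega)]
    have hJ0 : (0 : ℝ) < J := by
      have : 0 < J := by omega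
      exact_mod_cast this
    have h1 : (1 : ℝ) / ((J + 1 : ℕ) : ℝ) ^ 2 ≤ 1 / J - 1 / (J + 1 : ℕ) := by
      push_cast
      rw [div_sub_div _ _ hJ0.ne' (by positivity), div_le_div_iff₀ (by positivity) (by positivity)]
      nlinarith
    linarith

/-- **squarefree numbers in a progression** -/
theorem sqf_ap {M : ℕ} (hM : 0 < M) (h2 : 2 ∣ M) {K : ℕ} (hK : 64 * M ≤ K) :
    K ≤ 4 * ((range K).filter fun k => Squarefree (1 + M * k)).card := by
  obtain ⟨J, hJ⟩ : ∃ J, J = Nat.sqrt (1 + M * K) := ⟨_, rfl⟩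
  have hJ2 : J * J ≤ 1 + M * K := by
    rw [hJ]
    exact Nat.sqrt_le _
  have hJ3 : 2 ≤ J := by
    rw [hJ, Nat.le_sqrt]
    nlinarith
  have hbad : (range K).filter (fun k => ¬ Squarefree (1 + M * k)) ⊆
      (Icc 3 J).biUnion fun j => (range K).filter fun k => Nat.Coprime (j ^ 2) M ∧
        j ^ 2 ∣ 1 + M * k := by
    intro k hk
    obtain ⟨h1, h3⟩ := mem_filter.1 hk
    rw [Nat.squarefree_iff_prime_squarefree] at h3
    push Not at h3
    obtain ⟨p, hp, hd⟩ := h3
    have hpM : ¬ p ∣ M := by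
      intro hpM
      have h4 : p ∣ 1 + M * k := (dvd_mul_right p p).trans hd
      have h5 : p ∣ 1 := (Nat.dvd_add_left (hpM.mul_right k)).1 h4
      exact hp.one_lt.ne' (Nat.dvd_one.1 h5)
    have hp2 : p ≠ 2 := by
      rintro rfl
      exact hpM h2
    have hp3 : 3 ≤ p := by
      have := hp.two_le
      omega
    have hle : p * p ≤ 1 + M * K := by
      refine (Nat.le_of_dvd (by omega) hd).trans ?_
      have := Nat.mul_le_mul_left M (mem_range.1 h1).le
      omega
    rw [mem_biUnion]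
    refine ⟨p, mem_Icc.2 ⟨hp3, ?_⟩, mem_filter.2 ⟨h1, ?_, by rw [sq]; exact hd⟩⟩
    · rw [hJ, Nat.le_sqrt]
      exact hle
    · exact Nat.Coprime.pow_left 2 ((Nat.Prime.coprime_iff_not_dvd hp).2 hpM)
  have h1 : (((range K).filter (fun k => ¬ Squarefree (1 + M * k))).card : ℝ) ≤ K / 2 + J := by
    have h3 : ((range K).filter (fun k => ¬ Squarefree (1 + M * k))).card ≤
        ∑ j ∈ Icc 3 J, (K / j ^ 2 + 1) := by
      refine (card_le_card hbad).trans (card_biUnion_le.trans (sum_le_sum fun j hj => ?_))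
      have hj := (mem_Icc.1 hj).1
      by_cases hc : Nat.Coprime (j ^ 2) M
      · refine le_trans (card_le_card ?_) (card_div (K := K) (by omega) hc)
        intro k hk
        obtain ⟨k1, k2⟩ := mem_filter.1 hk
        exact mem_filter.2 ⟨k1, k2.2⟩
      · have : ((range K).filter fun k => Nat.Coprime (j ^ 2) M ∧ j ^ 2 ∣ 1 + M * k) = ∅ := by
          rw [filter_eq_empty_iff]
          exact fun k _ h => hc h.1
        rw [this, card_empty]
        exact Nat.zero_le _
    have h4 : ((∑ j ∈ Icc 3 J, (K / j ^ 2 + 1) : ℕ) : ℝ) ≤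
        K * ∑ j ∈ Icc 3 J, (1 : ℝ) / (j : ℝ) ^ 2 + J := by
      push_cast
      rw [sum_add_distrib, mul_sum]
      refine add_le_add (sum_le_sum fun j _ => ?_) ?_
      · have := @Nat.cast_div_le ℝ _ _ _ K (j ^ 2)
        push_cast at this
        rw [mul_one_div]
        exact this
      · rw [sum_const, nsmul_eq_mul, mul_one, Nat.card_Icc]
        have : J + 1 - 3 ≤ J := by omega
        exact_mod_cast this
    have h5 := sum_inv J hJ3
    have hJ0 : (0 : ℝ) < J := by
      have : 0 < J := by omega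
      exact_mod_cast this
    have h6 : ∑ j ∈ Icc 3 J, (1 : ℝ) / (j : ℝ) ^ 2 ≤ 1 / 2 := by
      have : (0 : ℝ) < 1 / J := by positivity
      linarith
    have h7 : (((range K).filter (fun k => ¬ Squarefree (1 + M * k))).card : ℝ) ≤
        ((∑ j ∈ Icc 3 J, (K / j ^ 2 + 1) : ℕ) : ℝ) := by exact_mod_cast h3
    have h8 : (K : ℝ) * ∑ j ∈ Icc 3 J, (1 : ℝ) / (j : ℝ) ^ 2 ≤ K * (1 / 2) :=
      mul_le_mul_of_nonneg_left h6 (Nat.cast_nonneg _)
    linarith
  have h3 : 4 * J ≤ K := by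
    by_contra hlt
    push Not at hlt
    have h4 : K * K < 16 * (J * J) := by nlinarith
    have h5 : 16 * (J * J) ≤ 16 * (1 + M * K) := Nat.mul_le_mul_left 16 hJ2
    have h6 : 64 * M * K ≤ K * K := Nat.mul_le_mul_right K hK
    nlinarith
  have h4 := card_filter_add_card_filter_not (s := range K) (fun k => Squarefree (1 + M * k))
  rw [card_range] at h4
  have h5 : (((range K).filter (fun k => ¬ Squarefree (1 + M * k))).card : ℝ) ≤ 3 / 4 * K := by
    have : (J : ℝ) ≤ K / 4 := by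
      have : ((4 * J : ℕ) : ℝ) ≤ K := by exact_mod_cast h3
      push_cast at this
      linarith
    linarith
  have h6 : (((range K).filter (fun k => Squarefree (1 + M * k))).card : ℝ) +
      (((range K).filter (fun k => ¬ Squarefree (1 + M * k))).card : ℝ) = K := by
    exact_mod_cast h4
  have h7 : (K : ℝ) ≤ 4 * (((range K).filter (fun k => Squarefree (1 + M * k))).card : ℝ) := by
    linarith
  exact_mod_cast h7

theorem fl_fin (N D₀ : ℤ) (Q : ℤ → Prop) (X : ℕ) :
    {D : ℤ | |D| ≤ X ∧ Fl N D₀ D ∧ Q D}.Finite := by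
  refine (Set.finite_Icc (-(X : ℤ)) X).subset fun D hD => ?_
  exact abs_le.1 hD.1

/-- **the class has positive lower density** -/
theorem fl_size {N D₀ : ℤ} (hN : N ≠ 0) (h₀ : Squarefree D₀) : ∃ C : ℝ, 0 < C ∧
    ∀ᶠ X : ℕ in Filter.atTop, C * X ≤ (Set.ncard {D : ℤ | |D| ≤ X ∧ Fl N D₀ D ∧ True} : ℝ) := by
  obtain ⟨M, hM⟩ : ∃ M, M = 8 * N.natAbs * D₀.natAbs := ⟨_, rfl⟩
  obtain ⟨c, hc⟩ : ∃ c, c = D₀.natAbs := ⟨_, rfl⟩
  have hc0 : 0 < c := by rw [hc]; exact Int.natAbs_pos.2 h₀.ne_zero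
  have hM0 : 0 < M := by
    rw [hM]
    exact Nat.mul_pos (Nat.mul_pos (by norm_num) (Int.natAbs_pos.2 hN))
      (Int.natAbs_pos.2 h₀.ne_zero)
  have h2 : 2 ∣ M := by
    rw [hM]
    exact Dvd.intro (4 * (N.natAbs * D₀.natAbs)) (by ring)
  have hcM : 0 < c * M := Nat.mul_pos hc0 hM0
  have hcM' : (0 : ℝ) < (c * M : ℕ) := by exact_mod_cast hcM
  refine ⟨1 / (8 * (c * M : ℕ)), by positivity, ?_⟩
  filter_upwards [Filter.eventually_ge_atTop (64 * M * (c * M))] with X hX
  obtain ⟨K, hK⟩ : ∃ K, K = X / (c * M) := ⟨_, rfl⟩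
  have hK1 : 64 * M ≤ K := by
    rw [hK, Nat.le_div_iff_mul_le hcM]
    exact hX
  have hsq := sqf_ap hM0 h2 hK1
  have hn0 : ∀ k : ℕ, ((1 + M * k : ℕ) : ℤ) ≠ 0 := fun k => by
    have : 1 + M * k ≠ 0 := by omega
    exact_mod_cast this
  have hsub : (fun k : ℕ => D₀ * ((1 + M * k : ℕ) : ℤ)) ''
      (((range K).filter fun k => Squarefree (1 + M * k) : Finset ℕ) : Set ℕ) ⊆
      {D : ℤ | |D| ≤ X ∧ Fl N D₀ D ∧ True} := by
    rintro _ ⟨k, hk, rfl⟩
    rw [Finset.mem_coe, mem_filter, mem_range] at hk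
    obtain ⟨k1, k2⟩ := hk
    refine ⟨?_, ⟨?_, ?_, fun p hp hpN => ?_⟩, trivial⟩
    · rw [abs_mul, Int.abs_eq_natAbs D₀, ← hc, abs_of_nonneg (Int.natCast_nonneg _)]
      have h3 : c * (1 + M * k) ≤ X := by
        have h4 : 1 + M * k ≤ M * K := by
          have : M * (k + 1) ≤ M * K := Nat.mul_le_mul_left M k1
          nlinarith
        have h5 : c * M * K ≤ X := by
          rw [hK]
          exact Nat.mul_div_le X (c * M)
        calc c * (1 + M * k) ≤ c * (M * K) := Nat.mul_le_mul_left c h4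
          _ = c * M * K := by ring
          _ ≤ X := h5
      exact_mod_cast h3
    · rw [squarefree_mul_iff]
      refine ⟨IsCoprime.isRelPrime ?_, h₀, by rwa [Int.squarefree_natCast]⟩
      have hdvd : D₀ ∣ (M * k : ℕ) := by
        rw [hM, ← Int.dvd_natAbs, Int.natAbs_natCast]
        refine Int.natAbs_dvd.1 ?_
        exact_mod_cast (Dvd.intro_left (8 * N.natAbs) rfl).mul_right k
      obtain ⟨t, ht⟩ := hdvd
      refine ⟨-t, 1, ?_⟩
      push_cast at ht ⊢
      rw [ht]
      ring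
    · have h3 : (0 : ℤ) < ((1 + M * k : ℕ) : ℤ) := by
        have : 0 < 1 + M * k := by omega
        exact_mod_cast this
      have h4 : 0 < D₀ * D₀ := mul_self_pos.2 h₀.ne_zero
      nlinarith [mul_pos h4 h3]
    · have h3 : IsSquare ((((1 + M * k : ℕ) : ℤ)) : ℚ_[p]) := by
        by_cases hp2 : p = 2
        · subst hp2
          refine Q44.TI.padic_sq2 ?_
          have h8 : 8 ∣ M := by
            rw [hM, mul_assoc]
            exact dvd_mul_right 8 _
          obtain ⟨t, ht⟩ := h8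
          have h9 : (1 + M * k) % 8 = 1 := by
            rw [ht, mul_assoc]
            omega
          omega
        · have hpM : p ∣ M := by
            rw [hM]
            exact ((Int.natCast_dvd.1 hpN).mul_left 8).mul_right _
          refine Q44.TI.padic_sq hp2 ?_ ?_
          · intro hd
            have h4 : p ∣ 1 + M * k := Int.natCast_dvd_natCast.1 hd
            have h5 : p ∣ 1 := (Nat.dvd_add_left (hpM.mul_right k)).1 h4
            exact hp.out.one_lt.ne' (Nat.dvd_one.1 h5)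
          · have h4 : ((M : ℕ) : ZMod p) = 0 := (ZMod.natCast_eq_zero_iff M p).2 hpM
            refine ⟨1, ?_⟩
            push_cast
            rw [h4]
            ring
      obtain ⟨r, hr⟩ := h3
      refine ⟨D₀ * r, ?_⟩
      rw [Int.cast_mul, Int.cast_mul, hr]
      ring
  have hcard := Set.ncard_le_ncard hsub (fl_fin N D₀ _ X)
  rw [Set.InjOn.ncard_image (by
    intro k _ k' _ he
    have h3 := mul_left_cancel₀ h₀.ne_zero he
    have h4 : 1 + M * k = 1 + M * k' := by exact_mod_cast h3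
    exact Nat.eq_of_mul_eq_mul_left hM0 (by omega)), Set.ncard_coe_finset] at hcard
  have h5 : (K : ℝ) ≤ 4 * (Set.ncard {D : ℤ | |D| ≤ X ∧ Fl N D₀ D ∧ True} : ℝ) := by
    have : K ≤ 4 * Set.ncard {D : ℤ | |D| ≤ X ∧ Fl N D₀ D ∧ True} :=
      hsq.trans (Nat.mul_le_mul_left 4 hcard)
    exact_mod_cast this
  have h6 : (X : ℝ) ≤ 2 * (c * M : ℕ) * K := by
    have h7 : X < c * M * (K + 1) := by
      rw [hK]
      exact Nat.lt_mul_div_succ X hcM
    have h8 : K + 1 ≤ 2 * K := by omega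
    have h9 : X ≤ c * M * (2 * K) := h7.le.trans (Nat.mul_le_mul_left _ h8)
    have h10 : (X : ℝ) ≤ ((c * M * (2 * K) : ℕ) : ℝ) := by exact_mod_cast h9
    push_cast at h10 ⊢
    linarith
  rw [one_div, inv_mul_le_iff₀ (by positivity)]
  nlinarith

end Pool.Agent.H68.X
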