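import Pool.Agent.H68.L.R_seed8.Y676.IS.Alg4

/-!
# The abscissa of a sum of points of `y² = x³ + a x² + b x`
-/

set_option autoImplicit false

open scoped Classical

namespace Pool.Agent.H68.X

open WeierstrassCurve Pool.Agent.Y676.IS

section
variable {K : Type} [Field K] [CharZero K] {a b : K}

theorem add_fx {x1 y1 x2 y2 x3 y3 : K} (h1 : (Cu a b).Nonsingular x1 y1)
    (h2 : (Cu a b).Nonsingular x2 y2) (h3 : (Cu a b).Nonsingular x3 y3)
    (h : (Affine.Point.some x1 y1 h1 : (Cu a b).Point) + Affine.Point.some x2 y2 h2 =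
      Affine.Point.some x3 y3 h3) :
    x3 * (y1 * x2 + y2 * x1) ^ 2 = x1 * x2 * (x1 * x2 - b) ^ 2 ∧
      x3 * ((x1 - x2) ^ 2 * (x1 * x2)) = (y1 * x2 - y2 * x1) ^ 2 ∧
      (x2 = 0 → x1 ≠ 0 → x3 * x1 = b) ∧
      (x1 = x2 → y1 = y2) := by
  have q1 := cu_eq.1 h1.1
  have q2 := cu_eq.1 h2.1
  have h20 : (2 : K) ≠ 0 := two_ne_zero
  by_cases hx : x1 = x2
  · subst hx
    have hyy : y1 = y2 ∨ y1 = -y2 := by
      apply sq_eq_sq_iff_eq_or_eq_neg.mp
      rw [q1, q2]
    by_cases hneg : y1 = (Cu a b).negY x1 y2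
    · rw [Affine.Point.add_of_Y_eq rfl hneg] at h
      exact absurd h.symm (Affine.Point.some_ne_zero _)
    · have hy12 : y1 = y2 := by
        rcases hyy with h | h
        · exact h
        · exact absurd (by simp only [Affine.negY, Cu]; linear_combination h) hneg
      subst hy12
      rw [Affine.Point.add_self_of_Y_ne hneg, Affine.Point.some.injEq] at h
      have hy0 : y1 ≠ 0 := by
        intro h
        apply hneg
        simp only [Affine.negY, Cu]
        rw [h]; ring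
      have h2y : 2 * y1 ≠ 0 := mul_ne_zero h20 hy0
      obtain ⟨s, hs⟩ : ∃ s, s = (Cu a b).slope x1 x1 y1 y1 := ⟨_, rfl⟩
      have hslope : s * (2 * y1) = 3 * x1 ^ 2 + 2 * a * x1 + b := by
        rw [hs, Affine.slope_of_Y_ne rfl hneg]
        simp only [Affine.negY, Cu]
        have e3' : y1 - (-y1 - 0 * x1 - 0) = 2 * y1 := by ring
        rw [e3', div_mul_cancel₀ _ h2y]
        ring
      have hX : x3 = s ^ 2 - a - 2 * x1 := by
        rw [← h.1, ← hs]
        simp only [Affine.addX, Cu]; ring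
      have key : x3 * (2 * y1) ^ 2 = (x1 ^ 2 - b) ^ 2 := by
        have h5 : (s * (2 * y1)) ^ 2 = (3 * x1 ^ 2 + 2 * a * x1 + b) ^ 2 := by rw [hslope]
        rw [hX]
        linear_combination h5 + (-4 * a - 8 * x1) * q1
      refine ⟨?_, ?_, fun hx0 hx1 => absurd hx0 hx1, fun _ => rfl⟩
      · linear_combination x1 ^ 2 * key
      · ring
  · have hx' : x1 - x2 ≠ 0 := sub_ne_zero.mpr hx
    rw [Affine.Point.add_of_X_ne hx, Affine.Point.some.injEq] at h
    obtain ⟨s, hs⟩ : ∃ s, s = (Cu a b).slope x1 x2 y1 y2 := ⟨_, rfl⟩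
    have hslope : s * (x1 - x2) = y1 - y2 := by
      rw [hs, Affine.slope_of_X_ne hx, div_mul_cancel₀ _ hx']
    have hX : x3 = s ^ 2 - a - x1 - x2 := by
      rw [← h.1, ← hs]
      simp only [Affine.addX, Cu]; ring
    have hs2 : s ^ 2 * (x1 - x2) ^ 2 = (y1 - y2) ^ 2 := by rw [← mul_pow, hslope]
    have hX2 : x3 * (x1 - x2) ^ 2 = (y1 - y2) ^ 2 - (a + x1 + x2) * (x1 - x2) ^ 2 := by
      rw [hX]
      linear_combination hs2
    have key : x3 * ((x1 - x2) ^ 2 * (x1 * x2)) = (y1 * x2 - y2 * x1) ^ 2 := by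
      linear_combination (x1 * x2) * hX2 + (x2 * (x1 - x2)) * q1 - (x1 * (x1 - x2)) * q2
    have key3 : x2 = 0 → x1 ≠ 0 → x3 * x1 = b := by
      intro hx2 hx1
      have hy2 : y2 = 0 := by
        have : y2 ^ 2 = 0 := by rw [q2, hx2]; ring
        exact pow_eq_zero_iff (two_ne_zero) |>.1 this
      apply mul_right_cancel₀ (pow_ne_zero 2 hx1)
      rw [hx2, hy2] at hX2
      linear_combination x1 * hX2 + x1 * q1
    refine ⟨?_, key, key3, fun h => absurd h hx⟩
    by_cases hx12 : x1 * x2 = 0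
    · rw [hx12]
      rcases mul_eq_zero.1 hx12 with h0 | h0
      · have hy0 : y1 = 0 := by
          have : y1 ^ 2 = 0 := by rw [q1, h0]; ring
          exact pow_eq_zero_iff (two_ne_zero) |>.1 this
        rw [h0, hy0]
        ring
      · have hy0 : y2 = 0 := by
          have : y2 ^ 2 = 0 := by rw [q2, h0]; ring
          exact pow_eq_zero_iff (two_ne_zero) |>.1 this
        rw [h0, hy0]
        ring
    · apply mul_right_cancel₀ (mul_ne_zero (pow_ne_zero 2 hx') hx12)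
      have e1 : (y1 * x2) ^ 2 - (y2 * x1) ^ 2 = x1 * x2 * (x1 - x2) * (x1 * x2 - b) := by
        linear_combination x2 ^ 2 * q1 - x1 ^ 2 * q2
      calc x3 * (y1 * x2 + y2 * x1) ^ 2 * ((x1 - x2) ^ 2 * (x1 * x2))
          = (x3 * ((x1 - x2) ^ 2 * (x1 * x2))) * (y1 * x2 + y2 * x1) ^ 2 := by ring
        _ = (y1 * x2 - y2 * x1) ^ 2 * (y1 * x2 + y2 * x1) ^ 2 := by rw [key]
        _ = ((y1 * x2) ^ 2 - (y2 * x1) ^ 2) ^ 2 := by ring
        _ = _ := by rw [e1]; ring

end

end Pool.Agent.H68.X
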