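import Pool.Agent.H68.X.Fr

/-!
# Weak approximation for square classes
-/

set_option autoImplicit false

open scoped Classical

namespace Pool.Agent.H68.X

open Finset Pool.Agent.H68.A

/-- integers with the same residue modulo `p³` have the same class -/
theorem sq_cong {p : ℕ} [hp : Fact p.Prime] {q n : ℤ} (hn : ¬ (p : ℤ) ∣ n)
    (h : (p : ℤ) ^ 3 ∣ q - n) : IsSquare ((q * n : ℤ) : ℚ_[p]) := by
  obtain ⟨t, ht⟩ := h
  have hn1 : ‖(n : ℚ_[p])‖ = 1 := by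
    refine le_antisymm (Padic.norm_int_le_one n) ?_
    by_contra hlt
    exact hn (Padic.norm_intCast_lt_one_iff.1 (not_le.1 hlt))
  have hn0 : (n : ℚ_[p]) ≠ 0 := by
    intro h0
    rw [h0, norm_zero] at hn1
    norm_num at hn1
  have h1 : IsSquare ((q : ℚ_[p]) / n) := by
    apply sq_near
    have e : (q : ℚ_[p]) / n - 1 = ((p : ℚ_[p]) ^ 3 * t) / n := by
      have : ((q - n : ℤ) : ℚ_[p]) = (p : ℚ_[p]) ^ 3 * t := by
        rw [ht]
        push_cast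
        ring
      push_cast at this
      field_simp
      linear_combination this
    rw [e, norm_div, hn1, div_one, norm_mul, norm_pow, Padic.norm_p]
    have h2 : ‖(t : ℚ_[p])‖ ≤ 1 := Padic.norm_int_le_one t
    have hp2 : (2 : ℝ) ≤ p := by exact_mod_cast hp.out.two_le
    have h3 : ((p : ℝ)⁻¹) ^ 3 ≤ ((2 : ℝ)⁻¹) ^ 3 := by
      gcongr
    have h4 : ((p : ℝ)⁻¹) ^ 3 * ‖(t : ℚ_[p])‖ ≤ ((2 : ℝ)⁻¹) ^ 3 * 1 :=
      mul_le_mul h3 h2 (norm_nonneg _) (by positivity)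
    refine lt_of_le_of_lt h4 ?_
    rw [two_norm]
    split_ifs <;> norm_num
  obtain ⟨w, hw⟩ := h1
  refine ⟨w * n, ?_⟩
  field_simp at hw
  push_cast
  linear_combination (n : ℚ_[p]) * hw

/-- **weak approximation** -/
theorem weak (T : Finset ℕ) (hT : ∀ p ∈ T, p.Prime) (x : ∀ (p : ℕ) [Fact p.Prime], ℚ_[p])
    (hx : ∀ (p : ℕ) [Fact p.Prime], p ∈ T → x p ≠ 0) {σ : ℤ} (hσ : σ = 1 ∨ σ = -1) :
    ∃ D : ℤ, Squarefree D ∧ 0 < D * σ ∧
      ∀ (p : ℕ) [Fact p.Prime], p ∈ T → IsSquare ((D : ℚ_[p]) * x p) := by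
  have h1 : ∀ p : ℕ, ∃ (k : ℤ) (n : ℕ), p ∈ T → ∀ [Fact p.Prime], ¬ p ∣ n ∧
      IsSquare (x p * (p : ℚ_[p]) ^ k * n) := by
    intro p
    by_cases hp : p ∈ T
    · have hf : Fact p.Prime := ⟨hT p hp⟩
      obtain ⟨k, n, h1, h2⟩ := appr (hx p hp)
      exact ⟨k, n, fun _ _ => ⟨h1, h2⟩⟩
    · exact ⟨0, 0, fun h => absurd h hp⟩
  choose k n hkn using h1
  obtain ⟨J, hJ⟩ : ∃ J, J = T.filter fun p => Odd (k p) := ⟨_, rfl⟩
  obtain ⟨d, hd⟩ : ∃ d : ℤ, d = σ * ∏ p ∈ J, (p : ℤ) := ⟨_, rfl⟩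
  obtain ⟨dp, hdp⟩ : ∃ dp : ℕ → ℤ, dp = fun p => σ * ∏ q ∈ J.erase p, (q : ℤ) := ⟨_, rfl⟩
  have hJT : ∀ p ∈ J, p.Prime := fun p hp => hT p (by rw [hJ] at hp; exact (mem_filter.1 hp).1)
  have hdd : ∀ p : ℕ, d = (p : ℤ) ^ (if p ∈ J then 1 else 0) * dp p := by
    intro p
    rw [hd, hdp]
    split_ifs with h
    · rw [pow_one, ← Finset.mul_prod_erase J (fun q => (q : ℤ)) h]
      ring
    · simp only [Finset.erase_eq_of_notMem h, pow_zero, one_mul]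
  have hnd : ∀ p : ℕ, p.Prime → ¬ (p : ℤ) ∣ dp p := by
    intro p hp hdv
    have hpi := Nat.prime_iff_prime_int.1 hp
    rw [hdp] at hdv
    rcases hpi.dvd_or_dvd hdv with h | h
    · rcases hσ with h2 | h2
      · rw [h2] at h
        exact hpi.not_dvd_one h
      · rw [h2] at h
        exact hpi.not_dvd_one ((dvd_neg.1 h))
    · rw [Prime.dvd_finsetProd_iff hpi] at h
      obtain ⟨q, hq, hpq⟩ := h
      have := (Nat.prime_dvd_prime_iff_eq hp (hJT q (mem_of_mem_erase hq))).1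
        (Int.natCast_dvd_natCast.1 hpq)
      exact (ne_of_mem_erase hq) this.symm
  -- the residues
  have hres : ∀ p : ℕ, ∃ c : ℕ, p ∈ T → (p : ℤ) ^ 3 ∣ (c : ℤ) - dp p * n p := by
    intro p
    by_cases hp : p ∈ T
    · have hp3 : (0 : ℤ) < (p : ℤ) ^ 3 := by
        have := (hT p hp).pos
        positivity
      obtain ⟨c, hc⟩ := Int.eq_ofNat_of_zero_le (Int.emod_nonneg (dp p * n p) hp3.ne')
      refine ⟨c, fun _ => ?_⟩
      refine ⟨-(dp p * n p / (p : ℤ) ^ 3), ?_⟩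
      have h3 := Int.emod_add_mul_ediv (dp p * n p) ((p : ℤ) ^ 3)
      have h4 : ((c : ℕ) : ℤ) = dp p * n p % (p : ℤ) ^ 3 := hc.symm
      rw [h4]
      linarith
    · exact ⟨0, fun h => absurd h hp⟩
  choose c hc using hres
  obtain ⟨t, ht⟩ := Nat.chineseRemainderOfFinset c (fun p => p ^ 3) T
    (fun p hp => pow_ne_zero 3 (hT p hp).ne_zero) (by
      intro p hp q hq hpq
      exact Nat.Coprime.pow 3 3 ((Nat.coprime_primes (hT p hp) (hT q hq)).2 hpq))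
  obtain ⟨M, hM⟩ : ∃ M, M = ∏ p ∈ T, p ^ 3 := ⟨_, rfl⟩
  have hM0 : M ≠ 0 := by
    rw [hM]
    exact prod_ne_zero_iff.2 fun p hp => pow_ne_zero 3 (hT p hp).ne_zero
  have hNZ : NeZero M := ⟨hM0⟩
  have htd : ∀ p ∈ T, (p : ℤ) ^ 3 ∣ (t : ℤ) - dp p * n p := by
    intro p hp
    have h2 : ((p ^ 3 : ℕ) : ℤ) ∣ (c p : ℤ) - t := (Nat.modEq_iff_dvd).1 (ht p hp)
    have h3 := hc p hp
    have h4 : (p : ℤ) ^ 3 ∣ (c p : ℤ) - t := by exact_mod_cast h2
    have e : (t : ℤ) - dp p * n p = ((c p : ℤ) - dp p * n p) - ((c p : ℤ) - t) := by ring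
    rw [e]
    exact dvd_sub h3 h4
  have hnp : ∀ p ∈ T, ¬ (p : ℤ) ∣ dp p * n p := by
    intro p hp hdv
    have hf : Fact p.Prime := ⟨hT p hp⟩
    have hpi := Nat.prime_iff_prime_int.1 (hT p hp)
    rcases hpi.dvd_or_dvd hdv with h | h
    · exact hnd p (hT p hp) h
    · exact (hkn p hp).1 (Int.natCast_dvd_natCast.1 h)
  have htc : t.Coprime M := by
    rw [hM]
    refine Nat.Coprime.prod_right fun p hp => Nat.Coprime.pow_right 3 ?_
    refine Nat.Coprime.symm (((hT p hp).coprime_iff_not_dvd).2 fun hdv => ?_)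
    apply hnp p hp
    have h2 : (p : ℤ) ∣ (t : ℤ) := Int.natCast_dvd_natCast.2 hdv
    have h3 : (p : ℤ) ∣ (t : ℤ) - dp p * n p := (dvd_pow_self (p : ℤ) three_ne_zero).trans (htd p hp)
    have e : dp p * n p = (t : ℤ) - ((t : ℤ) - dp p * n p) := by ring
    rw [e]
    exact dvd_sub h2 h3
  obtain ⟨q, hq, hqp, hqn⟩ := Nat.forall_exists_prime_gt_and_eq_mod
    (a := (t : ZMod M)) ((ZMod.isUnit_iff_coprime t M).2 htc) M
  have hqT : ∀ p ∈ T, p ≠ q := by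
    rintro p hp rfl
    have h2 : p ∣ M := by
      rw [hM]
      exact (dvd_pow_self p three_ne_zero).trans (dvd_prod_of_mem (fun p => p ^ 3) hp)
    have := Nat.le_of_dvd (Nat.pos_of_ne_zero hM0) h2
    omega
  have hqd : ∀ p ∈ T, (p : ℤ) ^ 3 ∣ (q : ℤ) - dp p * n p := by
    intro p hp
    have h2 : q ≡ t [MOD M] := (ZMod.natCast_eq_natCast_iff q t M).1 hqn
    have h3 : ((p ^ 3 : ℕ) : ℤ) ∣ (t : ℤ) - q := (Nat.modEq_iff_dvd).1 (h2.of_dvd (by
      rw [hM]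
      exact dvd_prod_of_mem (fun p => p ^ 3) hp))
    have h4 : (p : ℤ) ^ 3 ∣ (t : ℤ) - q := by exact_mod_cast h3
    have e : (q : ℤ) - dp p * n p = ((t : ℤ) - dp p * n p) - ((t : ℤ) - q) := by ring
    rw [e]
    exact dvd_sub (htd p hp) h4
  have hσ2 : σ * σ = 1 := by rcases hσ with h | h <;> rw [h] <;> norm_num
  have hprod : ∏ p ∈ insert q J, (p : ℤ) = q * ∏ p ∈ J, (p : ℤ) := by
    rw [prod_insert]
    intro hqJ
    rw [hJ] at hqJ
    exact hqT q (mem_filter.1 hqJ).1 rfl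
  refine ⟨d * q, ?_, ?_, fun p hp hpT => ?_⟩
  · have h2 := sqf_prod (insert q J) (by
      intro r hr
      rcases mem_insert.1 hr with rfl | h
      · exact hqp
      · exact hJT r h)
    rw [hprod] at h2
    have e : d * q = σ * (q * ∏ p ∈ J, (p : ℤ)) := by rw [hd]; ring
    rw [e]
    rcases hσ with h | h
    · rw [h, one_mul]
      exact h2
    · rw [h, neg_one_mul, ← Int.squarefree_natAbs, Int.natAbs_neg, Int.squarefree_natAbs]
      exact h2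
  · have h2 : (0 : ℤ) < ∏ p ∈ J, (p : ℤ) := prod_pos fun p hp => by exact_mod_cast (hJT p hp).pos
    have h3 : (0 : ℤ) < q := by exact_mod_cast hqp.pos
    have e : d * q * σ = (σ * σ) * (q * ∏ p ∈ J, (p : ℤ)) := by rw [hd]; ring
    rw [e, hσ2, one_mul]
    exact mul_pos h3 h2
  · have hp0 : (p : ℚ_[p]) ≠ 0 := by exact_mod_cast hp.out.ne_zero
    obtain ⟨hn1, w, hw⟩ := hkn p hpT
    obtain ⟨v, hv⟩ := sq_cong (hnp p hpT) (hqd p hpT)
    have hn0 : (n p : ℚ_[p]) ≠ 0 := by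
      have : n p ≠ 0 := fun h => hn1 (h ▸ dvd_zero _)
      exact_mod_cast this
    have hd0 : (dp p : ℚ_[p]) ≠ 0 := by
      have : dp p ≠ 0 := fun h => hnd p hp.out (h ▸ dvd_zero _)
      exact_mod_cast this
    obtain ⟨s, hs⟩ : IsSquare ((p : ℚ_[p]) ^ (if p ∈ J then 1 else 0) * (p : ℚ_[p]) ^ k p) := by
      by_cases hpJ : p ∈ J
      · rw [if_pos hpJ, pow_one]
        rw [hJ, mem_filter] at hpJ
        obtain ⟨l, hl⟩ := hpJ.2
        refine ⟨(p : ℚ_[p]) ^ (l + 1), ?_⟩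
        nth_rewrite 1 [← zpow_one (p : ℚ_[p])]
        rw [← zpow_add₀ hp0, ← zpow_add₀ hp0]
        congr 1
        rw [hl]
        ring
      · rw [if_neg hpJ, pow_zero, one_mul]
        have : ¬ Odd (k p) := fun h => hpJ (by rw [hJ]; exact mem_filter.2 ⟨hpT, h⟩)
        obtain ⟨l, hl⟩ := Int.not_odd_iff_even.1 this
        exact ⟨(p : ℚ_[p]) ^ l, by rw [← zpow_add₀ hp0, ← hl]⟩
    have hx0 := hx p hpT
    have hk0 : (p : ℚ_[p]) ^ k p ≠ 0 := zpow_ne_zero _ hp0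
    have hdc : ((d : ℤ) : ℚ_[p]) = (p : ℚ_[p]) ^ (if p ∈ J then 1 else 0) * dp p := by
      have := congrArg (Int.cast : ℤ → ℚ_[p]) (hdd p)
      push_cast at this
      exact this
    -- `x p^k n = w²`, `q dp n = v²`, `p^ε p^k = s²`
    refine ⟨w * s * v / ((p : ℚ_[p]) ^ k p * n p), ?_⟩
    push_cast at hv ⊢
    rw [hdc]
    field_simp
    linear_combination ((p : ℚ_[p]) ^ (if p ∈ J then 1 else 0) * (p : ℚ_[p]) ^ k p) *
      (q * dp p * n p) * hw + w ^ 2 * (q * dp p * n p) * hs + w ^ 2 * s ^ 2 * hv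

end Pool.Agent.H68.X
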