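import Pool.Agent.H68.X.Ga

/-!
# Classes in which the two exponents are equal
-/

set_option autoImplicit false
set_option linter.unusedSectionVars false

open scoped Classical

namespace Pool.Agent.H68.X

open Finset Module Pool.Agent.H68.A
open Q44.TK (Fm hF hF_one hF_eq hF_sum)
open Q44.BN (GG N2)

theorem sqs_ne (p : ℕ) [Fact p.Prime] : (sqs ℚ_[p]).index ≠ 0 := by
  by_cases h : p = 2
  · subst h
    exact index_two.1
  · exact (index_odd h).1

/-- a class which is not trivial -/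
theorem half_index {K : Type} [Field K] {a b : K} (hb : b ≠ 0) (hS : (sqs K).index ≠ 0)
    {z : K} (hz : W K a b z) (hn : ¬ IsSquare z) : 2 * (Uw a hb).index ≤ (sqs K).index := by
  have hz0 : z ≠ 0 := by
    rintro rfl
    exact hn IsSquare.zero
  have h1 := Subgroup.relIndex_mul_index (sqs_le (a := a) hb)
  have h2 : (sqs K).relIndex (Uw a hb) ≠ 0 := by
    intro h0
    rw [h0, zero_mul] at h1
    exact hS h1.symm
  have h3 : (sqs K).relIndex (Uw a hb) ≠ 1 := by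
    rw [Ne, Subgroup.relIndex_eq_one]
    intro hle
    have : Units.mk0 z hz0 ∈ sqs K := hle (mem_Uw.2 hz)
    exact hn (mem_sqs.1 this)
  rw [← h1]
  exact Nat.mul_le_mul_right _ (by omega)

section
variable {p : ℕ} [hp : Fact p.Prime]

theorem odd_val {x : ℚ_[p]} (h : x.valuation = 1) : ¬ IsSquare x := by
  intro hs
  have := even_val_of_sq hs
  rw [h] at this
  revert this
  decide

/-- a unit which is not a square -/
theorem exists_unit (p : ℕ) [hp : Fact p.Prime] :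
    ∃ r : ℕ, ¬ (p : ℤ) ∣ r ∧ ¬ IsSquare (r : ℚ_[p]) := by
  by_cases h : p = 2
  · subst h
    refine ⟨3, by norm_num, fun hs => ?_⟩
    obtain ⟨r, hr⟩ := sq_int hs
    have h1 := congrArg (PadicInt.toZModPow (p := 2) 3) hr
    rw [map_natCast, map_mul] at h1
    revert h1
    generalize (PadicInt.toZModPow (p := 2) 3) r = s
    revert s
    decide
  · obtain ⟨g, hg⟩ : ∃ g : ZMod p, ¬ IsSquare g :=
      FiniteField.exists_nonsquare (by rw [ZMod.ringChar_zmod_n]; exact h)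
    obtain ⟨m, rfl⟩ : ∃ m : ℕ, (m : ZMod p) = g := ⟨g.val, ZMod.natCast_zmod_val g⟩
    refine ⟨m, fun hd => ?_, fun hs => ?_⟩
    · have h1 : p ∣ m := Int.natCast_dvd_natCast.1 hd
      rw [(ZMod.natCast_eq_zero_iff m p).2 h1] at hg
      exact hg ⟨0, by rw [mul_zero]⟩
    · obtain ⟨r, hr⟩ := sq_int hs
      have h1 := congrArg (PadicInt.toZMod (p := p)) hr
      rw [map_natCast, map_mul] at h1
      exact hg ⟨_, h1⟩

theorem two_nonsq {y : ℚ_[p]} (hy : y ≠ 0) : ∃ t : ℚ_[p], ¬ IsSquare t ∧ ¬ IsSquare (t * y) := by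
  have hp0 : (p : ℚ_[p]) ≠ 0 := by exact_mod_cast hp.out.ne_zero
  have hpv : ((p : ℚ_[p])).valuation = 1 := by
    have := val_one (p := p) (n := (p : ℤ)) dvd_rfl (Nat.prime_iff_prime_int.1 hp.out).squarefree
    exact_mod_cast this
  by_cases h : IsSquare ((p : ℚ_[p]) * y)
  · obtain ⟨r, hr1, hr2⟩ := exists_unit p
    refine ⟨r, hr2, fun h2 => ?_⟩
    obtain ⟨u, hu⟩ := h
    obtain ⟨v, hv⟩ := h2
    have hr0 : (r : ℚ_[p]) ≠ 0 := fun h0 => hr2 (h0 ▸ IsSquare.zero)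
    have h3 : IsSquare ((r : ℚ_[p]) * p) := by
      refine ⟨u * v / y, ?_⟩
      field_simp
      linear_combination (r * y) * hu + u ^ 2 * hv
    have h4 := val_unit hr1
    rw [Int.cast_natCast] at h4
    exact odd_val (by rw [Padic.valuation_mul hr0 hp0, h4, hpv]; rfl) h3
  · exact ⟨p, odd_val hpv, h⟩

/-- **the local choice** -/
theorem loc_choice {a b : ℤ} (hb0 : b ≠ 0) (hc : a ^ 2 - 4 * b ≠ 0)
    (hsq : IsSquare (b * (a ^ 2 - 4 * b))) : ∃ x : ℚ_[p], x ≠ 0 ∧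
      ∀ D : ℚ_[p], D ≠ 0 → IsSquare (D * x) →
        (∃ z, W ℚ_[p] (a * D) (b * D ^ 2) z ∧ ¬ IsSquare z) ∧
        (∃ z, W ℚ_[p] (-2 * (a * D)) ((a * D) ^ 2 - 4 * (b * D ^ 2)) z ∧ ¬ IsSquare z) := by
  have hbp : (b : ℚ_[p]) ≠ 0 := by exact_mod_cast hb0
  have hcp : (a : ℚ_[p]) ^ 2 - 4 * b ≠ 0 := by exact_mod_cast hc
  obtain ⟨s, hs⟩ := hsq
  have hs' : (b : ℚ_[p]) * ((a : ℚ_[p]) ^ 2 - 4 * b) = s * s := by exact_mod_cast hs
  have hs0 : (s : ℚ_[p]) ≠ 0 := by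
    intro h0
    rw [h0, mul_zero] at hs'
    exact mul_ne_zero hbp hcp hs'
  have hcD : ∀ D : ℚ_[p], (a * D) ^ 2 - 4 * (b * D ^ 2) = ((a : ℚ_[p]) ^ 2 - 4 * b) * D ^ 2 :=
    fun D => by ring
  by_cases hbs : IsSquare (b : ℚ_[p])
  · obtain ⟨β, hβ⟩ := hbs
    have hβ0 : β ≠ 0 := by
      rintro rfl
      exact hbp (by rw [hβ, mul_zero])
    obtain ⟨γ, hγ⟩ : ∃ γ, γ = s / β := ⟨_, rfl⟩
    have hγ2 : γ * γ = (a : ℚ_[p]) ^ 2 - 4 * b := by
      rw [hγ]
      field_simp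
      linear_combination -hs' + ((a : ℚ_[p]) ^ 2 - 4 * b) * hβ
    obtain ⟨e, he⟩ : ∃ e : ℚ_[p], e = (-a + γ) / 2 := ⟨_, rfl⟩
    have he2 : e ^ 2 + a * e + b = 0 := by
      rw [he]
      linear_combination (1 / 4) * hγ2
    have he0 : e ≠ 0 := by
      rintro rfl
      apply hbp
      linear_combination he2
    obtain ⟨f, hf⟩ : ∃ f : ℚ_[p], f = a + 2 * β := ⟨_, rfl⟩
    have hf2 : f ^ 2 - 2 * a * f + ((a : ℚ_[p]) ^ 2 - 4 * b) = 0 := by
      rw [hf]
      linear_combination (-4) * hβ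
    have hf0 : f ≠ 0 := by
      rintro rfl
      apply hcp
      linear_combination hf2
    obtain ⟨t, ht1, ht2⟩ := two_nonsq (mul_ne_zero he0 hf0)
    have ht0 : t ≠ 0 := fun h0 => ht1 (h0 ▸ IsSquare.zero)
    have key : ∀ {g D : ℚ_[p]}, g ≠ 0 → D ≠ 0 → IsSquare (D * (e * t)) → ¬ IsSquare (t * (e * g)) →
        ¬ IsSquare (g * D) := by
      rintro g D hg hD ⟨u, hu⟩ hn ⟨v, hv⟩
      apply hn
      refine ⟨u * v / D, ?_⟩
      field_simp
      linear_combination (g * D) * hu + u ^ 2 * hv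
    refine ⟨e * t, mul_ne_zero he0 ht0, fun D hD hDx => ⟨⟨e * D, ?_, ?_⟩, ⟨f * D, ?_, ?_⟩⟩⟩
    · refine W_pt (y := 0) (mul_ne_zero hbp (pow_ne_zero 2 hD)) (mul_ne_zero he0 hD) ?_
      linear_combination (-(e * D ^ 3)) * he2
    · refine key he0 hD hDx ?_
      rintro ⟨v, hv⟩
      apply ht1
      refine ⟨v / e, ?_⟩
      field_simp
      linear_combination hv
    · refine W_pt (y := 0) (by rw [hcD]; exact mul_ne_zero hcp (pow_ne_zero 2 hD))
        (mul_ne_zero hf0 hD) ?_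
      linear_combination (-(f * D ^ 3)) * hf2
    · exact key hf0 hD hDx ht2
  · refine ⟨1, one_ne_zero, fun D hD _ => ⟨⟨b * D ^ 2, ?_, ?_⟩,
      ⟨(a * D) ^ 2 - 4 * (b * D ^ 2), ?_, ?_⟩⟩⟩
    · exact W_self (mul_ne_zero hbp (pow_ne_zero 2 hD))
    · rintro ⟨v, hv⟩
      apply hbs
      refine ⟨v / D, ?_⟩
      field_simp
      linear_combination hv
    · exact W_self (by rw [hcD]; exact mul_ne_zero hcp (pow_ne_zero 2 hD))
    · rintro ⟨v, hv⟩
      apply hbs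
      rw [hcD] at hv
      have hv0 : v ≠ 0 := by
        rintro rfl
        exact mul_ne_zero hcp (pow_ne_zero 2 hD) (by rw [hv, mul_zero])
      refine ⟨s * D / v, ?_⟩
      field_simp
      linear_combination (-(b : ℚ_[p])) * hv + D ^ 2 * hs'

end

end Pool.Agent.H68.X
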