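import Pool.Agent.H68.X.Gb

/-!
# Every exceptional curve has twists with equal exponents
-/

set_option autoImplicit false
set_option linter.unusedSectionVars false

open scoped Classical

namespace Pool.Agent.H68.X

open Finset Module Pool.Agent.H68.A
open Pool.Agent.R413.TI (CL)
open Q44.TK (Fm hF hF_one hF_eq hF_sum)
open Q44.BN (GG N2)
open Q44.TI (pd pd_pos)
open Q44.BM (SS GT Rch Fam mem_SS)

variable {T : Finset ℕ} {m : ℕ} {A B D : ℤ}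

theorem ix_le (h : Md T m)
    (hBp : ∀ (p : ℕ) [Fact p.Prime], ((B * D ^ 2 : ℤ) : ℚ_[p]) ≠ 0) (p : T) [Fact (p : ℕ).Prime] :
    (ix h A hBp p).index ≤ (Uw ((A * D : ℤ) : ℚ_[p]) (hBp p)).index :=
  (Lk_index h (pl_padic h p.2) (hBp p) (sqs_ne p)).2

/-- the index of the local conditions -/
theorem WW_idx (h : Md T m) (hB : B ≠ 0) (hD : D ≠ 0)
    (hBp : ∀ (p : ℕ) [Fact p.Prime], ((B * D ^ 2 : ℤ) : ℚ_[p]) ≠ 0)
    (hBr : ((B * D ^ 2 : ℤ) : ℝ) ≠ 0)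
    (hodd : ∀ (p : ℕ) [Fact p.Prime], p ∈ T → p ≠ 2 →
      (Uw ((A * D : ℤ) : ℚ_[p]) (hBp p)).index ≤ 2)
    (h2 : (Uw ((A * D : ℤ) : ℝ) hBr).index * (Uw ((A * D : ℤ) : ℚ_[2]) (hBp 2)).index ≤ 4) :
    finrank (ZMod 2) (Fm m) ≤ finrank (ZMod 2) (WW h A hB hD) := by
  have fF := finite_of_cop h
  have hf1 : Module.Finite (ZMod 2) (GG T) := Module.Finite.of_finite
  have hf2 : Module.Finite (ZMod 2) (Fm m) := Module.Finite.of_finite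
  have i1 := WW_index h hB hD hBp hBr (A := A)
  have i2 : (Lk h pl_real ((A * D : ℤ) : ℝ) hBr).index ≤ (Uw ((A * D : ℤ) : ℝ) hBr).index :=
    (Lk_index h pl_real hBr index_real.1).2
  have i3 : ∏ p : T, (ix h A hBp p).index ≤
      (Uw ((A * D : ℤ) : ℚ_[2]) (hBp 2)).index * 2 ^ (T.card - 1) := by
    rw [← Finset.mul_prod_erase univ (fun p => (ix h A hBp p).index) (mem_univ ⟨2, h.two⟩)]
    refine Nat.mul_le_mul ?_ ?_
    · exact ix_le h hBp ⟨2, h.two⟩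
    · refine (Finset.prod_le_pow_card _ _ 2 fun p hp => ?_).trans ?_
      · have hf : Fact (p : ℕ).Prime := ⟨h.pr p p.2⟩
        refine (ix_le h hBp p).trans (hodd p p.2 fun he => ?_)
        exact (mem_erase.1 hp).1 (Subtype.ext he)
      · rw [card_erase_of_mem (mem_univ _), card_univ, Fintype.card_coe]
  have hT : 0 < T.card := card_pos.2 ⟨2, h.two⟩
  have i4 : (WW h A hB hD).toAddSubgroup.index ≤ 2 ^ (T.card + 1) := by
    refine i1.trans ((Nat.mul_le_mul i2 i3).trans ?_)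
    rw [← mul_assoc]
    refine (Nat.mul_le_mul_right _ h2).trans (le_of_eq ?_)
    have : T.card + 1 = 2 + (T.card - 1) := by omega
    rw [this, pow_add]
    norm_num
  have k1 := AddSubgroup.card_mul_index (WW h A hB hD).toAddSubgroup
  have k3 : Nat.card (WW h A hB hD).toAddSubgroup = 2 ^ finrank (ZMod 2) (WW h A hB hD) :=
    card_two (V := WW h A hB hD)
  have k5 : Nat.card (GG T × Fm m) = 2 ^ (finrank (ZMod 2) (GG T) + finrank (ZMod 2) (Fm m)) := by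
    rw [card_two (V := GG T × Fm m), Module.finrank_prod]
  rw [k3, k5, finrank_GG] at k1
  have k6 : 2 ^ (T.card + 1 + finrank (ZMod 2) (Fm m)) ≤
      2 ^ (finrank (ZMod 2) (WW h A hB hD) + (T.card + 1)) := by
    rw [← k1, pow_add]
    exact Nat.mul_le_mul_left _ i4
  have k7 := (Nat.pow_le_pow_iff_right (by norm_num)).1 k6
  omega

/-- **the exponents are equal** -/
theorem Ex.u_zero (h : Ex T m A B) (hD : D ≠ 0)
    (hBp : ∀ (p : ℕ) [Fact p.Prime], ((B * D ^ 2 : ℤ) : ℚ_[p]) ≠ 0)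
    (hBr : ((B * D ^ 2 : ℤ) : ℝ) ≠ 0)
    (hCp : ∀ (p : ℕ) [Fact p.Prime], (((A ^ 2 - 4 * B) * D ^ 2 : ℤ) : ℚ_[p]) ≠ 0)
    (hCr : (((A ^ 2 - 4 * B) * D ^ 2 : ℤ) : ℝ) ≠ 0)
    (hodd : ∀ (p : ℕ) [Fact p.Prime], p ∈ T → p ≠ 2 →
      (Uw ((A * D : ℤ) : ℚ_[p]) (hBp p)).index ≤ 2 ∧
        (Uw ((-2 * A * D : ℤ) : ℚ_[p]) (hCp p)).index ≤ 2)
    (h2 : (Uw ((A * D : ℤ) : ℝ) hBr).index * (Uw ((A * D : ℤ) : ℚ_[2]) (hBp 2)).index ≤ 4)
    (h2' : (Uw ((-2 * A * D : ℤ) : ℝ) hCr).index *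
      (Uw ((-2 * A * D : ℤ) : ℚ_[2]) (hCp 2)).index ≤ 4) : h.u hD = 0 := by
  have k1 := WW_idx h.md h.hB hD hBp hBr (fun p _ h1 h3 => (hodd p h1 h3).1) h2
  have k2 := WW_idx h.md h.hC hD hCp hCr (fun p _ h1 h3 => (hodd p h1 h3).2) h2'
  have k3 := dims h.md h.hB h.hC hD
  have k4 := finrank_le h.md
  unfold Ex.u
  omega

theorem real_two {a b : ℝ} (hb : b ≠ 0) : (Uw a hb).index ≤ 2 := by
  obtain ⟨s1, s2⟩ := index_real
  have := Subgroup.relIndex_mul_index (sqs_le (a := a) hb)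
  rw [← this] at s2
  have h0 : 0 < (sqs ℝ).relIndex (Uw a hb) := Nat.pos_of_ne_zero (by
    intro h0
    rw [h0, zero_mul] at this
    exact s1 this.symm)
  nlinarith

theorem real_one {a b : ℝ} (hb : b ≠ 0) (hd : 0 ≤ a ^ 2 - 4 * b) (ha : 0 < a) :
    (Uw a hb).index = 1 := by
  obtain ⟨s, hs⟩ : ∃ s, s = √(a ^ 2 - 4 * b) := ⟨_, rfl⟩
  have hs2 : s ^ 2 = a ^ 2 - 4 * b := by rw [hs, Real.sq_sqrt hd]
  have hs0 : 0 ≤ s := by rw [hs]; exact Real.sqrt_nonneg _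
  have hx : (-a - s) / 2 < 0 := by linarith
  have h : W ℝ a b ((-a - s) / 2) := by
    refine W_pt (y := 0) hb hx.ne ?_
    have : ((-a - s) / 2) ^ 2 + a * ((-a - s) / 2) + b = 0 := by linear_combination (1 / 4) * hs2
    rw [this]
    ring
  rw [Subgroup.index_eq_one, Subgroup.eq_top_iff']
  intro z
  rw [mem_Uw]
  rcases lt_or_gt_of_ne z.ne_zero with hz | hz
  · refine W_of_isSquare_mul hb hx.ne z.ne_zero ⟨√((-a - s) / 2 * z), ?_⟩ h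
    rw [Real.mul_self_sqrt (mul_pos_of_neg_of_neg hx hz).le]
  · refine W_sq hb z.ne_zero ⟨√z, ?_⟩
    rw [Real.mul_self_sqrt hz.le]

/-- the group depends on the class -/
theorem Uw_tw {K : Type} [Field K] {a b a' b' D D' : K} (hb : b ≠ 0) (hD : D ≠ 0) (hD' : D' ≠ 0)
    (h : IsSquare (D * D')) (ha : a' = a * D) (hbb : b' = b * D ^ 2)
    (h1 : b' ≠ 0) (h2 : b * D' ^ 2 ≠ 0) : Uw a' h1 = Uw (a * D') h2 := by
  subst ha hbb
  ext z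
  rw [mem_Uw, mem_Uw]
  exact ⟨W_tw2 hb z.ne_zero hD hD' h, W_tw2 hb z.ne_zero hD' hD (by rwa [mul_comm])⟩

theorem Uw_congr {K : Type} [Field K] {a a' b b' : K} (ha : a = a') (hb : b = b') (h : b ≠ 0)
    (h' : b' ≠ 0) : Uw a h = Uw a' h' := by
  subst ha hb
  rfl

/-- the local class of the choice -/
noncomputable def xx {a b : ℤ} (hb0 : b ≠ 0) (hc : a ^ 2 - 4 * b ≠ 0)
    (hsq : IsSquare (b * (a ^ 2 - 4 * b))) (p : ℕ) [Fact p.Prime] : ℚ_[p] :=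
  (loc_choice (p := p) hb0 hc hsq).choose

theorem xx_spec {a b : ℤ} (hb0 : b ≠ 0) (hc : a ^ 2 - 4 * b ≠ 0)
    (hsq : IsSquare (b * (a ^ 2 - 4 * b))) (p : ℕ) [Fact p.Prime] : xx hb0 hc hsq p ≠ 0 ∧
      ∀ D : ℚ_[p], D ≠ 0 → IsSquare (D * xx hb0 hc hsq p) →
        (∃ z, W ℚ_[p] (a * D) (b * D ^ 2) z ∧ ¬ IsSquare z) ∧
        (∃ z, W ℚ_[p] (-2 * (a * D)) ((a * D) ^ 2 - 4 * (b * D ^ 2)) z ∧ ¬ IsSquare z) :=
  (loc_choice (p := p) hb0 hc hsq).choose_spec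

set_option maxHeartbeats 4000000 in
/-- **classes with equal exponents** -/
theorem exists_class {a b : ℤ} (hb : ¬ IsSquare b) (hc : a ^ 2 - 4 * b ≠ 0)
    (hsq : IsSquare (b * (a ^ 2 - 4 * b))) : ∃ D₀ : ℤ, Squarefree D₀ ∧
      (CL (a * D₀) (b * D₀ ^ 2)).ncard =
        (CL (-2 * (a * D₀)) ((a * D₀) ^ 2 - 4 * (b * D₀ ^ 2))).ncard := by
  have hb0 : b ≠ 0 := by
    rintro rfl
    exact hb IsSquare.zero
  -- the signs
  have hbc : 0 < b * (a ^ 2 - 4 * b) := by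
    obtain ⟨s, hs⟩ := hsq
    have h1 : b * (a ^ 2 - 4 * b) ≠ 0 := mul_ne_zero hb0 hc
    have h2 : 0 ≤ s * s := mul_self_nonneg s
    rw [← hs] at h2
    exact lt_of_le_of_ne h2 h1.symm
  have hbpos : 0 < b := by
    by_contra hlt
    have h1 : b < 0 := lt_of_le_of_ne (not_lt.1 hlt) hb0
    have h2 : 0 < a ^ 2 - 4 * b := by nlinarith [sq_nonneg a]
    nlinarith
  have hcpos : 0 < a ^ 2 - 4 * b := pos_of_mul_pos_right hbc hbpos.le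
  have ha0 : a ≠ 0 := by
    rintro rfl
    nlinarith
  have hbR : (0 : ℝ) < b := by exact_mod_cast hbpos
  have hcR : (0 : ℝ) < (a : ℝ) ^ 2 - 4 * b := by exact_mod_cast hcpos
  obtain ⟨N, hN⟩ : ∃ N, N = 2 * b * (a ^ 2 - 4 * b) := ⟨_, rfl⟩
  have hN0 : N ≠ 0 := by
    rw [hN]
    exact mul_ne_zero (mul_ne_zero two_ne_zero hb0) hc
  obtain ⟨x, hxd⟩ : ∃ x : ∀ (p : ℕ) [Fact p.Prime], ℚ_[p], x = fun (p : ℕ) [Fact p.Prime] => xx hb0 hc hsq p := ⟨_, rfl⟩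
  have hx : ∀ (p : ℕ) [Fact p.Prime], x p ≠ 0 ∧
      ∀ D : ℚ_[p], D ≠ 0 → IsSquare (D * x p) →
        (∃ z, W ℚ_[p] (a * D) (b * D ^ 2) z ∧ ¬ IsSquare z) ∧
        (∃ z, W ℚ_[p] (-2 * (a * D)) ((a * D) ^ 2 - 4 * (b * D ^ 2)) z ∧ ¬ IsSquare z) := by
    intro p _
    rw [hxd]
    exact xx_spec hb0 hc hsq p
  have hb2 : (b : ℚ_[2]) ≠ 0 := by exact_mod_cast hb0
  have hbx : (b : ℚ_[2]) * (x 2) ^ 2 ≠ 0 := mul_ne_zero hb2 (pow_ne_zero 2 (hx 2).1)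
  -- the sign of the class
  obtain ⟨σ, hσ1, hσ2⟩ : ∃ σ : ℤ, (σ = 1 ∨ σ = -1) ∧
      (((Uw ((a : ℚ_[2]) * x 2) hbx).index ≤ 2 ∧ a * σ < 0) ∨
        (¬ (Uw ((a : ℚ_[2]) * x 2) hbx).index ≤ 2 ∧ 0 < a * σ)) := by
    by_cases h1 : (Uw ((a : ℚ_[2]) * x 2) hbx).index ≤ 2
    · rcases lt_or_gt_of_ne ha0 with h2 | h2
      · exact ⟨1, Or.inl rfl, Or.inl ⟨h1, by linarith⟩⟩
      · exact ⟨-1, Or.inr rfl, Or.inl ⟨h1, by linarith⟩⟩
    · rcases lt_or_gt_of_ne ha0 with h2 | h2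
      · exact ⟨-1, Or.inr rfl, Or.inr ⟨h1, by linarith⟩⟩
      · exact ⟨1, Or.inl rfl, Or.inr ⟨h1, by linarith⟩⟩
  obtain ⟨D₀, h₀, hsgn, hloc⟩ := weak N.natAbs.primeFactors
    (fun p hp => Nat.prime_of_mem_primeFactors hp) x (fun p _ _ => (hx p).1) hσ1
  obtain ⟨d, n, e, h1, h2⟩ := decomp N h₀
  have hn0 : n ≠ 0 := by
    rintro rfl
    exact h₀.ne_zero (by rw [e]; simp)
  have hd0 : d ≠ 0 := by
    rintro rfl
    exact h₀.ne_zero (by rw [e]; simp)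
  rw [hN] at h1 h2
  obtain ⟨T, m, h, hT⟩ := exists_ex hb hc hsq hd0 h1
  have hn0' : (n : ℤ) ≠ 0 := by exact_mod_cast hn0
  have hTl : ∀ (p : ℕ) [Fact p.Prime], p ∈ T → IsSquare ((D₀ : ℚ_[p]) * x p) := by
    intro p hp hpT
    refine hloc p ?_
    rw [Nat.mem_primeFactors, ← Int.natCast_dvd, hN]
    exact ⟨hp.out, (hT p hp.out).1 hpT, Int.natAbs_ne_zero.2 (hN ▸ hN0)⟩
  have b0 : b * d ^ 2 * (n : ℤ) ^ 2 ≠ 0 :=
    mul_ne_zero (mul_ne_zero hb0 (pow_ne_zero 2 hd0)) (pow_ne_zero 2 hn0')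
  have c0 : ((a * d) ^ 2 - 4 * (b * d ^ 2)) * (n : ℤ) ^ 2 ≠ 0 := mul_ne_zero h.hC (pow_ne_zero 2 hn0')
  have hBp : ∀ (p : ℕ) [Fact p.Prime], ((b * d ^ 2 * (n : ℤ) ^ 2 : ℤ) : ℚ_[p]) ≠ 0 := fun p _ => by
    exact_mod_cast b0
  have hBr : ((b * d ^ 2 * (n : ℤ) ^ 2 : ℤ) : ℝ) ≠ 0 := by exact_mod_cast b0
  have hCp : ∀ (p : ℕ) [Fact p.Prime],
      ((((a * d) ^ 2 - 4 * (b * d ^ 2)) * (n : ℤ) ^ 2 : ℤ) : ℚ_[p]) ≠ 0 := fun p _ => by
    exact_mod_cast c0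
  have hCr : ((((a * d) ^ 2 - 4 * (b * d ^ 2)) * (n : ℤ) ^ 2 : ℤ) : ℝ) ≠ 0 := by exact_mod_cast c0
  -- the casts
  have q1 : ∀ (K : Type) [Field K], ((a * d * (n : ℤ) : ℤ) : K) = (a : K) * (D₀ : K) := by
    intro K _
    rw [e]
    push_cast
    ring
  have q2 : ∀ (K : Type) [Field K], ((b * d ^ 2 * (n : ℤ) ^ 2 : ℤ) : K) = (b : K) * (D₀ : K) ^ 2 := by
    intro K _
    rw [e]
    push_cast
    ring
  have q3 : ∀ (K : Type) [Field K], ((-2 * (a * d) * (n : ℤ) : ℤ) : K) =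
      -2 * ((a : K) * (D₀ : K)) := by
    intro K _
    rw [e]
    push_cast
    ring
  have q4 : ∀ (K : Type) [Field K], ((((a * d) ^ 2 - 4 * (b * d ^ 2)) * (n : ℤ) ^ 2 : ℤ) : K) =
      ((a : K) * (D₀ : K)) ^ 2 - 4 * ((b : K) * (D₀ : K) ^ 2) := by
    intro K _
    rw [e]
    push_cast
    ring
  have hD0 : ∀ (p : ℕ) [Fact p.Prime], (D₀ : ℚ_[p]) ≠ 0 := fun p _ => by
    exact_mod_cast h₀.ne_zero
  have hhalf : ∀ (p : ℕ) [Fact p.Prime], p ∈ T →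
      2 * (Uw ((a * d * (n : ℤ) : ℤ) : ℚ_[p]) (hBp p)).index ≤ (sqs ℚ_[p]).index ∧
      2 * (Uw ((-2 * (a * d) * (n : ℤ) : ℤ) : ℚ_[p]) (hCp p)).index ≤ (sqs ℚ_[p]).index := by
    intro p _ hpT
    obtain ⟨⟨z, z1, z2⟩, ⟨w, w1, w2⟩⟩ := (hx p).2 D₀ (hD0 p) (hTl p hpT)
    refine ⟨half_index (hBp p) (sqs_ne p) (z := z) ?_ z2,
      half_index (hCp p) (sqs_ne p) (z := w) ?_ w2⟩
    · rw [q1, q2]
      exact z1
    · rw [q3, q4]
      exact w1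
  have hodd : ∀ (p : ℕ) [Fact p.Prime], p ∈ T → p ≠ 2 →
      (Uw ((a * d * (n : ℤ) : ℤ) : ℚ_[p]) (hBp p)).index ≤ 2 ∧
      (Uw ((-2 * (a * d) * (n : ℤ) : ℤ) : ℚ_[p]) (hCp p)).index ≤ 2 := by
    intro p _ hpT hp2
    obtain ⟨k1, k2⟩ := hhalf p hpT
    have := (index_odd hp2).2
    omega
  obtain ⟨t1, t2⟩ := hhalf 2 h.md.two
  have t3 := index_two.2
  have hc2 : ((a * d * (n : ℤ) : ℤ) : ℚ_[2]) ^ 2 - 4 * ((b * d ^ 2 * (n : ℤ) ^ 2 : ℤ) : ℚ_[2]) ≠ 0 := by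
    rw [q1, q2, ← q4]
    exact hCp 2
  have t4 := place_two (Padic.norm_int_le_one (p := 2) (a * d * (n : ℤ)))
    (Padic.norm_int_le_one (p := 2) (b * d ^ 2 * (n : ℤ) ^ 2)) (hBp 2) hc2
  have t5 : Uw (-2 * ((a * d * (n : ℤ) : ℤ) : ℚ_[2])) hc2 =
      Uw ((-2 * (a * d) * (n : ℤ) : ℤ) : ℚ_[2]) (hCp 2) :=
    Uw_congr (by rw [q1, q3]) (by rw [q1, q2, q4]) _ _
  rw [t5] at t4
  have t6 : Uw ((a * d * (n : ℤ) : ℤ) : ℚ_[2]) (hBp 2) = Uw ((a : ℚ_[2]) * x 2) hbx :=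
    Uw_tw hb2 (hD0 2) (hx 2).1 (hTl 2 h.md.two) (q1 _) (q2 _) (hBp 2) hbx
  have hDR : (D₀ : ℝ) ≠ 0 := by exact_mod_cast h₀.ne_zero
  have hD2 : (0 : ℝ) < (D₀ : ℝ) ^ 2 := by positivity
  have r1 := real_two hBr (a := ((a * d * (n : ℤ) : ℤ) : ℝ))
  have r2 := real_two hCr (a := ((-2 * (a * d) * (n : ℤ) : ℤ) : ℝ))
  have hu : h.u hn0' = 0 := by
    rcases hσ2 with ⟨g1, g2⟩ | ⟨g1, g2⟩
    · rw [← t6] at g1
      have g3 : a * D₀ < 0 := by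
        rcases hσ1 with h3 | h3
        · rw [h3] at hsgn g2
          nlinarith
        · rw [h3] at hsgn g2
          nlinarith
      have g4 : (a : ℝ) * D₀ < 0 := by exact_mod_cast g3
      have r3 : (Uw ((-2 * (a * d) * (n : ℤ) : ℤ) : ℝ) hCr).index = 1 := by
        refine real_one hCr ?_ ?_
        · rw [q3, q4]
          have : 0 < (b : ℝ) * (D₀ : ℝ) ^ 2 := mul_pos hbR hD2
          nlinarith
        · rw [q3]
          linarith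
      refine h.u_zero hn0' hBp hBr hCp hCr hodd ?_ ?_
      · exact Nat.mul_le_mul r1 g1
      · rw [r3]
        omega
    · rw [← t6] at g1
      have g3 : 0 < a * D₀ := by
        rcases hσ1 with h3 | h3
        · rw [h3] at hsgn g2
          nlinarith
        · rw [h3] at hsgn g2
          nlinarith
      have g4 : 0 < (a : ℝ) * D₀ := by exact_mod_cast g3
      have r3 : (Uw ((a * d * (n : ℤ) : ℤ) : ℝ) hBr).index = 1 := by
        refine real_one hBr ?_ ?_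
        · rw [q1, q2]
          have : 0 < ((a : ℝ) ^ 2 - 4 * b) * (D₀ : ℝ) ^ 2 := mul_pos hcR hD2
          nlinarith
        · rw [q1]
          exact g4
      have r4 : (Uw ((-2 * (a * d) * (n : ℤ) : ℤ) : ℚ_[2]) (hCp 2)).index ≤ 2 := by
        by_contra hlt
        push Not at hlt g1
        nlinarith
      refine h.u_zero hn0' hBp hBr hCp hCr hodd ?_ ?_
      · rw [r3]
        omega
      · exact Nat.mul_le_mul r2 r4
  have hnc : n.Coprime m := by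
    refine Nat.Coprime.symm (Nat.coprime_of_dvd fun p hp hpm hpk => ?_)
    exact h2 p hp hpk ((hT p hp).1 ((h.md.dv p hp).1 hpm))
  have hFl : Fl (2 * b * (a ^ 2 - 4 * b)) D₀ D₀ :=
    ⟨h₀, mul_self_pos.2 h₀.ne_zero, fun p _ _ => ⟨(D₀ : ℚ_[p]), by push_cast; ring⟩⟩
  obtain ⟨S, hS, hG, he⟩ := (fl_iff h.md hT h₀ e h1 h2 D₀).1 hFl
  obtain ⟨p1, p2, p3⟩ := h.pair hnc hn0' (fun p hp => (h.P_iff p).2 (hS p hp))
    (fun p hp => (h.dual.P_iff p).2 (hS p hp)) hG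
  refine ⟨D₀, h₀, ?_⟩
  have e1 : a * D₀ = a * d * pd S := by rw [he]; ring
  have e2 : b * D₀ ^ 2 = b * d ^ 2 * pd S ^ 2 := by rw [he]; ring
  rw [e1, e2, p1, p2]
  rw [hu] at p3
  congr 1
  omega

end Pool.Agent.H68.X
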