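import Pool.Agent.H68.X.Qv
import Pool.Agent.H68.X.Du

/-!
# The dimensions of the spaces of local conditions of the two curves
-/

set_option autoImplicit false

open scoped Classical

namespace Pool.Agent.H68.X

open Finset Module Pool.Agent.H68.A
open Q44.TK (Fm hF hF_pos hF_mul hF_sum hF_eq hF_one Fm_two)
open Q44.BN (hF_surj GG UU UU_add UU_zero UU_ne)

set_option linter.unusedSectionVars false

variable {T : Finset ℕ} {m : ℕ} {A B D : ℤ}

/-- a number in a class -/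
noncomputable def rep (h : Md T m) (e : Fm m) : ℕ := (hF_surj h.pos e).choose

theorem rep_spec (h : Md T m) (e : Fm m) : (rep h e).Coprime m ∧ hF m (rep h e) = e :=
  ⟨(hF_surj h.pos e).choose_spec.1, (hF_surj h.pos e).choose_spec.2.2⟩

/-- the integer of an element -/
noncomputable def zz (h : Md T m) (w : GG T × Fm m) : ℤ := UU w.1 * rep h w.2

theorem zz_ne (h : Md T m) (w : GG T × Fm m) : zz h w ≠ 0 :=
  mul_ne_zero (UU_ne h.pr _) (by exact_mod_cast (pos_of_cop h (rep_spec h w.2).1).ne')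

/-- equal classes modulo `m` differ by squares of `K` -/
def Pl (m : ℕ) (K : Type) [Field K] : Prop := ∀ n n' : ℕ, n.Coprime m → n'.Coprime m →
  hF m n = hF m n' → IsSquare ((n : K) * n')

theorem pl_padic (h : Md T m) {p : ℕ} [Fact p.Prime] (hp : p ∈ T) : Pl m ℚ_[p] :=
  fun _ _ hn hn' he => sq_pair h hn hn' he hp

theorem pl_real : Pl m ℝ := fun n n' _ _ _ => by
  have := real_sq (n * n')
  rwa [Nat.cast_mul] at this

section
variable {K : Type} [Field K] [CharZero K]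

theorem zz_add (h : Md T m) (hK : Pl m K) (w w' : GG T × Fm m) :
    IsSquare (((zz h w : ℤ) : K) * ((zz h w' : ℤ) : K) * ((zz h (w + w') : ℤ) : K)) := by
  obtain ⟨c1, e1⟩ := rep_spec h w.2
  obtain ⟨c2, e2⟩ := rep_spec h w'.2
  obtain ⟨c3, e3⟩ := rep_spec h (w + w').2
  obtain ⟨s, hs0, -, hs⟩ := UU_add h.pr w.1 w'.1
  have h1 : IsSquare (((rep h w.2 * rep h w'.2 : ℕ) : K) * (rep h (w + w').2 : ℕ)) := by
    refine hK _ _ (Nat.Coprime.mul_left c1 c2) c3 ?_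
    rw [hF_mul c1 c2, e1, e2, e3]
    rfl
  obtain ⟨r, hr⟩ := h1
  refine ⟨UU (w.1 + w'.1) * s * r, ?_⟩
  have hs' := congrArg (Int.cast : ℤ → K) hs
  push_cast at hs' hr
  unfold zz
  push_cast
  have e4 : (w + w').1 = w.1 + w'.1 := rfl
  rw [e4]
  calc (UU w.1 : K) * (rep h w.2 : K) * ((UU w'.1 : K) * (rep h w'.2 : K)) *
        ((UU (w.1 + w'.1) : K) * (rep h (w + w').2 : K))
      = ((UU w.1 : K) * (UU w'.1 : K)) * (UU (w.1 + w'.1) : K) *
          ((rep h w.2 : K) * (rep h w'.2 : K) * (rep h (w + w').2 : K)) := by ring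
    _ = _ := by rw [hr, hs']; ring

theorem zz_W (h : Md T m) (hK : Pl m K) {a b : K} (hb : b ≠ 0) {w w' : GG T × Fm m}
    (hw : W K a b (((zz h w : ℤ) : K) * ((zz h w' : ℤ) : K))) :
    W K a b ((zz h (w + w') : ℤ) : K) := by
  have z1 : ((zz h w : ℤ) : K) ≠ 0 := by exact_mod_cast zz_ne h _
  have z2 : ((zz h w' : ℤ) : K) ≠ 0 := by exact_mod_cast zz_ne h _
  have z3 : ((zz h (w + w') : ℤ) : K) ≠ 0 := by exact_mod_cast zz_ne h _
  exact W_of_isSquare_mul hb (mul_ne_zero z1 z2) z3 (zz_add h hK w w') hw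

theorem zz_zero (h : Md T m) (hK : Pl m K) {a b : K} (hb : b ≠ 0) :
    W K a b ((zz h 0 : ℤ) : K) := by
  obtain ⟨c1, e1⟩ := rep_spec h (0 : Fm m)
  refine W_sq hb (by exact_mod_cast zz_ne h _) ?_
  have h1 := hK _ 1 c1 (Nat.coprime_one_left m) (by rw [e1, hF_one])
  obtain ⟨r, hr⟩ := h1
  refine ⟨r, ?_⟩
  unfold zz
  rw [Prod.fst_zero, Prod.snd_zero, UU_zero, one_mul, Int.cast_natCast, ← hr, Nat.cast_one, mul_one]

/-- the elements with a local condition -/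
noncomputable def Lk (h : Md T m) (hK : Pl m K) (a : K) {b : K} (hb : b ≠ 0) :
    AddSubgroup (GG T × Fm m) where
  carrier := {w | W K a b ((zz h w : ℤ) : K)}
  zero_mem' := zz_zero h hK hb
  add_mem' := by
    intro w w' hw hw'
    exact zz_W h hK hb (W_mul hb (by exact_mod_cast zz_ne h _) (by exact_mod_cast zz_ne h _) hw hw')
  neg_mem' := by
    intro w hw
    have : -w = w := ZModModule.neg_eq_self w
    rw [this]
    exact hw

theorem mem_Lk (h : Md T m) (hK : Pl m K) {a b : K} {hb : b ≠ 0} {w : GG T × Fm m} :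
    w ∈ Lk h hK a hb ↔ W K a b ((zz h w : ℤ) : K) := Iff.rfl

theorem Lk_index (h : Md T m) (hK : Pl m K) {a b : K} (hb : b ≠ 0) (hS : (sqs K).index ≠ 0) :
    (Lk h hK a hb).index ≠ 0 ∧ (Lk h hK a hb).index ≤ (Uw a hb).index := by
  have hi := Uw_index (a := a) hb hS
  have hfin : Finite (Kˣ ⧸ Uw a hb) := Nat.finite_of_card_ne_zero hi
  let v : GG T × Fm m → Kˣ := fun w => Units.mk0 ((zz h w : ℤ) : K) (by exact_mod_cast zz_ne h w)
  let F : (GG T × Fm m) ⧸ Lk h hK a hb → Kˣ ⧸ Uw a hb := fun q => QuotientGroup.mk (v q.out)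
  have hF : Function.Injective F := by
    intro x y hxy
    have h3 : (v x.out)⁻¹ * v y.out ∈ Uw a hb := QuotientGroup.eq.1 hxy
    have h4 : v x.out * v y.out ∈ Uw a hb := by
      have h5 : v x.out * v x.out ∈ Uw a hb := sqs_le hb (mem_sqs.2 ⟨v x.out, rfl⟩)
      have h6 := (Uw a hb).mul_mem h5 h3
      have e : v x.out * v x.out * ((v x.out)⁻¹ * v y.out) = v x.out * v y.out := by group
      rwa [e] at h6
    have h7 : x.out + y.out ∈ Lk h hK a hb := zz_W h hK hb h4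
    have : (QuotientAddGroup.mk x.out : (GG T × Fm m) ⧸ Lk h hK a hb) =
        QuotientAddGroup.mk y.out := by
      rw [QuotientAddGroup.eq]
      have e : -x.out = x.out := ZModModule.neg_eq_self x.out
      rw [e]
      exact h7
    simpa using this
  have hfin2 : Finite ((GG T × Fm m) ⧸ Lk h hK a hb) := Finite.of_injective F hF
  exact ⟨AddSubgroup.index_ne_zero_of_finite, Nat.card_le_card_of_injective F hF⟩

theorem two_places (h : Md T m) (hK : Pl m K) {a b a' b' : K} (hb : b ≠ 0) (hb' : b' ≠ 0)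
    (ha : a' = -2 * a) (hbb : b' = a ^ 2 - 4 * b) (hS : (sqs K).index ≠ 0) {N : ℕ}
    (hN : ∀ hc : a ^ 2 - 4 * b ≠ 0, (Uw (-2 * a) hc).index * (Uw a hb).index ≤ N) :
    (Lk h hK a hb).index * (Lk h hK a' hb').index ≤ N := by
  subst ha hbb
  rw [mul_comm]
  exact (Nat.mul_le_mul (Lk_index h hK hb' hS).2 (Lk_index h hK hb hS).2).trans (hN hb')

end

theorem WW_ge (h : Md T m) (hB : B ≠ 0) (hD : D ≠ 0)
    (hBp : ∀ (p : ℕ) [Fact p.Prime], ((B * D ^ 2 : ℤ) : ℚ_[p]) ≠ 0)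
    (hBr : ((B * D ^ 2 : ℤ) : ℝ) ≠ 0) {w : GG T × Fm m}
    (h1 : ∀ (p : ℕ) [Fact p.Prime] (hp : p ∈ T),
      w ∈ Lk h (pl_padic h hp) ((A * D : ℤ) : ℚ_[p]) (hBp p))
    (h2 : w ∈ Lk h pl_real ((A * D : ℤ) : ℝ) hBr) : w ∈ WW h A hB hD := by
  intro n hn he
  obtain ⟨c1, e1⟩ := rep_spec h w.2
  refine Wl_n h hB hD c1 hn (by rw [e1, he]) (UU_ne h.pr _) ⟨fun p _ hp => ?_, ?_⟩
  · exact h1 p hp
  · exact h2

/-- the index for a prime of `T` -/
noncomputable def ix (h : Md T m) (A : ℤ) {B D : ℤ}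
    (hBp : ∀ (p : ℕ) [Fact p.Prime], ((B * D ^ 2 : ℤ) : ℚ_[p]) ≠ 0) (p : T) : AddSubgroup (GG T × Fm m) :=
  have : Fact (p : ℕ).Prime := ⟨h.pr p p.2⟩
  Lk h (pl_padic h p.2) ((A * D : ℤ) : ℚ_[p]) (hBp p)

theorem WW_index (h : Md T m) (hB : B ≠ 0) (hD : D ≠ 0)
    (hBp : ∀ (p : ℕ) [Fact p.Prime], ((B * D ^ 2 : ℤ) : ℚ_[p]) ≠ 0)
    (hBr : ((B * D ^ 2 : ℤ) : ℝ) ≠ 0) :
    (WW h A hB hD).toAddSubgroup.index ≤
      (Lk h pl_real ((A * D : ℤ) : ℝ) hBr).index * ∏ p : T, (ix h A hBp p).index := by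
  have fF := finite_of_cop h
  have hle : Lk h pl_real ((A * D : ℤ) : ℝ) hBr ⊓ ⨅ p : T, ix h A hBp p ≤
      (WW h A hB hD).toAddSubgroup := by
    intro w hw
    refine WW_ge h hB hD hBp hBr (fun p _ hp => ?_) hw.1
    exact (AddSubgroup.mem_iInf.1 hw.2) ⟨p, hp⟩
  have h1 : (WW h A hB hD).toAddSubgroup.index ≤
      (Lk h pl_real ((A * D : ℤ) : ℝ) hBr ⊓ ⨅ p : T, ix h A hBp p).index :=
    Nat.le_of_dvd (Nat.pos_of_ne_zero AddSubgroup.index_ne_zero_of_finite)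
      (AddSubgroup.index_dvd_of_le hle)
  exact h1.trans ((AddSubgroup.index_inf_le).trans
    (Nat.mul_le_mul_left _ (AddSubgroup.index_iInf_le _)))

end Pool.Agent.H68.X
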