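import Pool.Agent.H68.X.Gl

/-!
# The dimensions of the spaces of local conditions of the two curves: the equality
-/

set_option autoImplicit false

open scoped Classical

namespace Pool.Agent.H68.X

open Finset Module Pool.Agent.H68.A
open Q44.TK (Fm hF hF_pos hF_mul hF_sum hF_eq hF_one Fm_two)
open Q44.BN (hF_surj GG UU UU_add UU_zero UU_ne jc)

variable {T : Finset ℕ} {m : ℕ} {A B D : ℤ}

theorem finrank_GG (T : Finset ℕ) : finrank (ZMod 2) (GG T) = T.card + 1 := by
  have : finrank (ZMod 2) (GG T) = finrank (ZMod 2) (T → ZMod 2) + finrank (ZMod 2) (ZMod 2) :=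
    Module.finrank_prod
  rw [this, Module.finrank_fintype_fun_eq_card, Module.finrank_self, Fintype.card_coe]

theorem finrank_le (h : Md T m) : finrank (ZMod 2) (GG T) ≤ finrank (ZMod 2) (Fm m) := by
  have fF := finite_of_cop h
  have hf1 : Module.Finite (ZMod 2) (GG T) := Module.Finite.of_finite
  have hf2 : Module.Finite (ZMod 2) (Fm m) := Module.Finite.of_finite
  rw [← Subspace.dual_finrank_eq (K := ZMod 2) (V := Fm m)]
  refine LinearMap.finrank_le_finrank_of_injective (f := chi h) ?_
  intro g g' he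
  have h1 : chi h (g - g') = 0 := by rw [map_sub, he, sub_self]
  exact sub_eq_zero.1 (chi_inj h h1)

theorem prod_T (h : Md T m) : ∏ p : T, (if (p : ℕ) = 2 then 8 else 4) = 2 * 4 ^ T.card := by
  rw [Finset.prod_coe_sort T (fun p => if p = 2 then 8 else 4)]
  have e : ∀ p ∈ T, (if p = 2 then 8 else 4) = (if p = 2 then 2 else 1) * 4 := by
    intro p _
    split_ifs <;> rfl
  rw [prod_congr rfl e, prod_mul_distrib, prod_const, Finset.prod_ite_eq' T 2 (fun _ => 2),
    if_pos h.two]

theorem dims (h : Md T m) (hB : B ≠ 0) (hC : A ^ 2 - 4 * B ≠ 0) (hD : D ≠ 0) :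
    finrank (ZMod 2) (WW h A hB hD) + finrank (ZMod 2) (WW h (-2 * A) hC hD) =
      finrank (ZMod 2) (GG T) + finrank (ZMod 2) (Fm m) := by
  have fF := finite_of_cop h
  have hf1 : Module.Finite (ZMod 2) (GG T) := Module.Finite.of_finite
  have hf2 : Module.Finite (ZMod 2) (Fm m) := Module.Finite.of_finite
  have hs : ∀ e, (∀ g, chi h g e = 0) → e = 0 := fun e he => chi_sep h he
  have hi : ∀ g, chi h g = 0 → g = 0 := fun g hg => chi_inj h hg
  set W := WW h A hB hD with hW
  set W' := WW h (-2 * A) hC hD with hW'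
  apply le_antisymm
  · have hle : W' ≤ per (chi h) (jc m (-1)) W := by
      intro w' hw'
      rw [mem_per]
      intro u hu
      exact orth h hB hC hD hu hw'
    have h1 := finrank_per (v := jc m (-1)) hs hi W
    have h2 := Submodule.finrank_mono hle
    omega
  · have b0 : B * D ^ 2 ≠ 0 := mul_ne_zero hB (pow_ne_zero 2 hD)
    have c0 : (A ^ 2 - 4 * B) * D ^ 2 ≠ 0 := mul_ne_zero hC (pow_ne_zero 2 hD)
    have hBp : ∀ (p : ℕ) [Fact p.Prime], ((B * D ^ 2 : ℤ) : ℚ_[p]) ≠ 0 := fun p _ => by
      exact_mod_cast b0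
    have hBr : ((B * D ^ 2 : ℤ) : ℝ) ≠ 0 := by exact_mod_cast b0
    have hCp : ∀ (p : ℕ) [Fact p.Prime], (((A ^ 2 - 4 * B) * D ^ 2 : ℤ) : ℚ_[p]) ≠ 0 :=
      fun p _ => by exact_mod_cast c0
    have hCr : (((A ^ 2 - 4 * B) * D ^ 2 : ℤ) : ℝ) ≠ 0 := by exact_mod_cast c0
    have i1 := WW_index h hB hD hBp hBr (A := A)
    have i2 := WW_index h hC hD hCp hCr (A := -2 * A)
    have i3 : W.toAddSubgroup.index * W'.toAddSubgroup.index ≤ 2 * (2 * 4 ^ T.card) := by
      rw [← prod_T h]
      refine (Nat.mul_le_mul i1 i2).trans ?_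
      rw [mul_mul_mul_comm, ← prod_mul_distrib]
      refine Nat.mul_le_mul ?_ (Finset.prod_le_prod (fun _ _ => Nat.zero_le _) fun p _ => ?_)
      · exact two_places h pl_real hBr hCr (by push_cast; ring) (by push_cast; ring)
          index_real.1 fun hc => place_real hBr hc
      · have hp : Fact (p : ℕ).Prime := ⟨h.pr p p.2⟩
        refine two_places h (pl_padic h p.2) (hBp p) (hCp p) (by push_cast; ring)
          (by push_cast; ring) ?_ fun hc => ?_
        · by_cases h2 : (p : ℕ) = 2
          · obtain ⟨p, hpT⟩ := p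
            simp only at h2
            subst h2
            exact index_two.1
          · exact (index_odd h2).1
        · split_ifs with h2
          · obtain ⟨p, hpT⟩ := p
            simp only at h2
            subst h2
            exact place_two (Padic.norm_int_le_one _) (Padic.norm_int_le_one _) _ hc
          · exact place_odd h2 (Padic.norm_int_le_one _) (Padic.norm_int_le_one _) _ hc
    have k1 := AddSubgroup.card_mul_index W.toAddSubgroup
    have k2 := AddSubgroup.card_mul_index W'.toAddSubgroup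
    have k3 : Nat.card W.toAddSubgroup = 2 ^ finrank (ZMod 2) W := card_two (V := W)
    have k4 : Nat.card W'.toAddSubgroup = 2 ^ finrank (ZMod 2) W' := card_two (V := W')
    have k5 : Nat.card (GG T × Fm m) = 2 ^ (finrank (ZMod 2) (GG T) + finrank (ZMod 2) (Fm m)) := by
      rw [card_two (V := GG T × Fm m), Module.finrank_prod]
    rw [k3, k5] at k1
    rw [k4, k5] at k2
    have h4 : 2 * (2 * 4 ^ T.card) ≤ 2 ^ (finrank (ZMod 2) (GG T) + finrank (ZMod 2) (Fm m)) := by
      have e : 2 * (2 * 4 ^ T.card) = 2 ^ (2 * (T.card + 1)) := by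
        rw [mul_add, pow_add, pow_mul]
        norm_num
        ring
      rw [e]
      apply Nat.pow_le_pow_right (by norm_num)
      have := finrank_le h
      rw [finrank_GG] at this ⊢
      omega
    have h5 := i3.trans h4
    set X := finrank (ZMod 2) (GG T) + finrank (ZMod 2) (Fm m) with hX
    have hpos : 0 < 2 ^ X := by positivity
    have h6 : 2 ^ X * 2 ^ X ≤ 2 ^ (finrank (ZMod 2) W + finrank (ZMod 2) W') * 2 ^ X := by
      calc 2 ^ X * 2 ^ X = (2 ^ finrank (ZMod 2) W * W.toAddSubgroup.index) *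
            (2 ^ finrank (ZMod 2) W' * W'.toAddSubgroup.index) := by rw [k1, k2]
        _ = 2 ^ (finrank (ZMod 2) W + finrank (ZMod 2) W') *
            (W.toAddSubgroup.index * W'.toAddSubgroup.index) := by rw [pow_add]; ring
        _ ≤ _ := Nat.mul_le_mul_left _ h5
    have h7 := Nat.le_of_mul_le_mul_right h6 hpos
    exact (Nat.pow_le_pow_iff_right (by norm_num)).1 h7

end Pool.Agent.H68.X
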