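import Pool.Agent.H68.X.Sy

/-!
# The system is not degenerate; the law
-/

set_option autoImplicit false

open scoped Classical

namespace Pool.Agent.H68.X

open Finset Module Pool.Agent.H68.A Filter
open Q44.TK (Fm hF hF_pos hF_mul hF_sum hF_eq hF_one Fm_two)
open Q44.BN (jv jc jc_hF jc_prime jv_prime jac_pm hF_surj hF_mod ne_zero_of_cop odd_of_cop GG JJ UU
  sgn mem_JJ JJ_sub JJ_prime UU_add UU_zero UU_sqf UU_ne UU_dvd UU_dvd' UU_inj UU_sq_zero
  UU_surj sgn_abs jv_neg_one N2 Ac Pa ac_or_pa nd_B)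
open Q44.TI (pd padic_sq padic_sq2 ch ch_zero nr_ch ch_mul cop_mod ch_sq fd)
open Pool.Agent.Y703.CQ (nr)
open Q44.BM (vm nr_rec RC Fam Sys HM GT SS BX Ok hm_cls Lb t_BX t_DQ law_pos pos_prop Rch)


variable {T : Finset ℕ} {m : ℕ} {A B : ℤ}

/-- the indices of the residue classes -/
abbrev Ex.I (h : Ex T m A B) : Type := {a : ℕ // a ∈ h.rc.𝒜 ∪ h.rc.ℬ}

/-- the residue classes -/
def Ex.cl (h : Ex T m A B) (i : h.I) (p : ℕ) : Prop := p.Prime ∧ p % m = i.1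

theorem Ex.memA (h : Ex T m A B) {a : ℕ} : a ∈ h.rc.𝒜 ↔ a < m ∧ a.Coprime m ∧ hF m a ∈ h.F := by
  have e : a ∈ h.rc.𝒜 ↔ a ∈ (range m).filter fun a => a.Coprime m ∧ hF m a ∈ h.F := Iff.rfl
  rw [e, mem_filter, mem_range]

theorem Ex.memB (h : Ex T m A B) {a : ℕ} : a ∈ h.rc.ℬ ↔ a < m ∧ a.Coprime m ∧ hF m a ∉ h.F := by
  have e : a ∈ h.rc.ℬ ↔ a ∈ (range m).filter fun a => a.Coprime m ∧ hF m a ∉ h.F := Iff.rfl
  rw [e, mem_filter, mem_range]

theorem Ex.cl_P (h : Ex T m A B) (i : h.I) (p : ℕ) (hp : h.cl i p) : h.rc.Φ.P p := by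
  rw [RC.P_iff]
  refine ⟨hp.1, ?_⟩
  have : p % h.rc.m = i.1 := hp.2
  rw [this]
  exact i.2

theorem Ex.cl_hm (h : Ex T m A B) (i : h.I) : HM (h.cl i) := by
  have h1 := hm_cls (m := m) (Nat.pos_of_ne_zero h.md.pos) {i.1} (by
    intro a ha
    rw [mem_singleton] at ha
    subst ha
    rcases mem_union.1 i.2 with h2 | h2
    · exact ⟨(h.memA.1 h2).1, (h.memA.1 h2).2.1⟩
    · exact ⟨(h.memB.1 h2).1, (h.memB.1 h2).2.1⟩) (singleton_nonempty _)
  have e : (fun p : ℕ => p.Prime ∧ p % m ∈ ({i.1} : Finset ℕ)) = h.cl i := by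
    funext p
    unfold Ex.cl
    rw [mem_singleton]
  rw [e] at h1
  exact h1

theorem Ex.cl_cop (h : Ex T m A B) {n p : ℕ} (hn : n.Coprime m) (hlt : n < m) (hp : p.Prime)
    (he : p % m = n) : p.Coprime m ∧ p ∉ T ∧ hF m p = hF m n := by
  have hc : p.Coprime m := by
    rw [← cop_mod, he]
    exact hn
  exact ⟨hc, (h.notMem_iff hp).2 hc, by rw [← hF_mod hc, he]⟩

/-- a functional which vanishes on the kernel of another -/
theorem ker_le {V : Type} [AddCommGroup V] [Module (ZMod 2) V] {f g : V →ₗ[ZMod 2] ZMod 2}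
    (h : ∀ x, f x = 0 → g x = 0) : g = 0 ∨ g = f := by
  by_cases hf : ∃ x, f x ≠ 0
  · obtain ⟨x, hx⟩ := hf
    have hx1 : f x = 1 := by
      have : ∀ t : ZMod 2, t ≠ 0 → t = 1 := by decide
      exact this _ hx
    have key : ∀ y, g y = g x * f y := by
      intro y
      have h1 : f (y + f y • x) = 0 := by
        rw [map_add, map_smul, hx1, smul_eq_mul, mul_one]
        exact CharTwo.add_self_eq_zero _
      have h2 := h _ h1
      rw [map_add, map_smul, smul_eq_mul] at h2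
      have h3 : g y = f y * g x := by
        have h4 : ∀ a b : ZMod 2, a + b = 0 → a = b := by decide
        exact h4 _ _ h2
      rw [h3, mul_comm]
    rcases (by decide : ∀ t : ZMod 2, t = 0 ∨ t = 1) (g x) with h0 | h0
    · left
      refine LinearMap.ext fun y => ?_
      rw [key, h0, zero_mul, LinearMap.zero_apply]
    · right
      refine LinearMap.ext fun y => ?_
      rw [key, h0, one_mul]
  · left
    push Not at hf
    exact LinearMap.ext fun y => h y (hf y)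

/-- the square class of `-1` is not the one of `B` -/
theorem Ex.neg_ne (h : Ex T m A B) : ∃ e ∈ h.F, jc m (-1) e ≠ 0 := by
  by_contra hcon
  push Not at hcon
  obtain ⟨g1, hg1⟩ := UU_surj h.md.pr (u := -1) (by rw [← Int.squarefree_natAbs]; simp) (by
    intro p hp hd
    exfalso
    have := Int.natCast_dvd.1 hd
    simp at this
    exact hp.one_lt.ne' this)
  have h1 : chi h.md g1 = jc m (-1) := by rw [chi_apply, hg1]
  rcases ker_le (f := chi h.md h.gB) (g := jc m (-1)) hcon with h2 | h2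
  · have h3 := chi_inj h.md (h1.trans h2)
    rw [h3, UU_zero] at hg1
    norm_num at hg1
  · have h3 : chi h.md (g1 + h.gB) = 0 := by
      rw [map_add, h1, h2]
      exact self2 _
    have h4 : h.gB = g1 := eq_of_add (chi_inj h.md h3)
    obtain ⟨c, hc0, hc⟩ := h.gB_spec
    rw [h4, hg1] at hc
    have hcp : 0 < c ^ 2 := by positivity
    have h5 : B < 0 := by nlinarith
    have h6 : 0 < A ^ 2 - 4 * B := by nlinarith [sq_nonneg A]
    have h7 := h.hsq.nonneg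
    nlinarith

theorem Ex.good (h : Ex T m A B) (W : Submodule (ZMod 2) (GG T × Fm m)) :
    (h.s0 W).Good h.cl where
  E0 := by
    intro p hp
    have hp' : p.Prime ∧ p % m = 1 := hp
    have h8 : 1 < m := by
      have h8 := h.md.h8
      have := Nat.le_of_dvd (Nat.pos_of_ne_zero h.md.pos) h8
      omega
    obtain ⟨h1, h2, h3⟩ := h.cl_cop (Nat.coprime_one_left m) h8 hp'.1 hp'.2
    have h4 : hF m p ∈ h.F := by
      rw [h3, hF_one]
      exact Submodule.zero_mem _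
    apply Subtype.ext
    show (h.h0 p : Fm m) = 0
    rw [h.h0_pos h4, h3, hF_one]
  span := by
    intro l hl
    have hex : ∃ x, l x ≠ 0 := by
      by_contra hc
      push Not at hc
      exact hl (LinearMap.ext hc)
    obtain ⟨x, hx⟩ := hex
    obtain ⟨n, hn, hlt, he⟩ := hF_surj h.md.pos (x : Fm m)
    have hnF : hF m n ∈ h.F := by rw [he]; exact x.2
    refine ⟨⟨n, mem_union_left _ (h.memA.2 ⟨hlt, hn, hnF⟩)⟩, fun p hp => ?_⟩
    obtain ⟨h1, h2, h3⟩ := h.cl_cop hn hlt hp.1 hp.2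
    have h4 : hF m p ∈ h.F := by rw [h3]; exact hnF
    refine ⟨(h.A_iff p).2 ⟨hp.1, h2, h4⟩, ?_⟩
    have h5 : h.h0 p = x := Subtype.ext (by rw [h.h0_pos h4, h3, he])
    show l (h.h0 p) ≠ 0
    rw [h5]
    exact hx
  lg := by
    rintro g e - hg
    have h1 : ∀ x, chi h.md h.gB x = 0 → chi h.md g.1 x = 0 := by
      intro x hx
      exact LinearMap.congr_fun hg ⟨x, hx⟩
    rcases ker_le h1 with h2 | h2
    · exact Subtype.ext (chi_inj h.md h2)
    · exfalso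
      have h3 : chi h.md (g.1 + h.gB) = 0 := by
        rw [map_add, h2]
        exact self2 _
      have h4 : h.gB = g.1 := eq_of_add (chi_inj h.md h3)
      have h5 : h.lam g.1 = 0 := g.2
      rw [← h4, h.lam_gB] at h5
      exact one_ne_zero h5
  pas := by
    have hex : ∃ x : Fm m, x ∉ h.F := by
      by_contra hc
      push Not at hc
      apply h.gB_ne
      exact chi_inj h.md (LinearMap.ext fun x => hc x)
    obtain ⟨x, hx⟩ := hex
    obtain ⟨n, hn, hlt, he⟩ := hF_surj h.md.pos x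
    refine ⟨⟨n, mem_union_right _ (h.memB.2 ⟨hlt, hn, by rw [he]; exact hx⟩)⟩, fun p hp hA => ?_⟩
    obtain ⟨h1, h2, h3⟩ := h.cl_cop hn hlt hp.1 hp.2
    have h4 := ((h.A_iff p).1 hA).2.2
    rw [h3, he] at h4
    exact hx h4
  neg := by
    obtain ⟨e, he1, he2⟩ := h.neg_ne
    obtain ⟨n, hn, hlt, he⟩ := hF_surj h.md.pos e
    have hnF : hF m n ∈ h.F := by rw [he]; exact he1
    refine ⟨⟨n, mem_union_left _ (h.memA.2 ⟨hlt, hn, hnF⟩)⟩, fun p hp => ?_⟩
    obtain ⟨h1, h2, h3⟩ := h.cl_cop hn hlt hp.1 hp.2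
    have h4 : hF m p ∈ h.F := by rw [h3]; exact hnF
    refine ⟨(h.A_iff p).2 ⟨hp.1, h2, h4⟩, ?_⟩
    show jc m (-1) (h.h0 p : Fm m) ≠ 0
    rw [h.h0_pos h4, h3, he]
    exact he2

/-- the label of a prime -/
noncomputable def Ex.lb (h : Ex T m A B) (p : ℕ) : Fin m × ZMod 2 :=
  (⟨p % m, Nat.mod_lt _ (Nat.pos_of_ne_zero h.md.pos)⟩, fd A B p)

theorem Ex.lb_ok (h : Ex T m A B) (W : Submodule (ZMod 2) (GG T × Fm m)) :
    Lb (h.s0 W) h.cl h.lb (hF m) := by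
  intro p q hp hq he
  have h1 : p % m = q % m := congrArg (fun t => (t.1 : ℕ)) he
  have h2 : fd A B p = fd A B q := congrArg (fun t => t.2) he
  obtain ⟨p1, p2⟩ := (h.P_iff p).1 hp
  obtain ⟨q1, q2⟩ := (h.P_iff q).1 hq
  have cp := (h.notMem_iff p1).1 p2
  have cq := (h.notMem_iff q1).1 q2
  have h3 : hF m p = hF m q := by rw [← hF_mod cp, h1, hF_mod cq]
  refine ⟨?_, h2, ?_, fun i => ?_, h3⟩
  · show h.h0 p = h.h0 q
    unfold Ex.h0
    simp only [h3]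
  · have e1 : h.rc.Φ.E p ↔ p.Prime ∧ p % m = 1 := Iff.rfl
    have e2 : h.rc.Φ.E q ↔ q.Prime ∧ q % m = 1 := Iff.rfl
    rw [e1, e2, h1]
    exact ⟨fun h => ⟨q1, h.2⟩, fun h => ⟨p1, h.2⟩⟩
  · unfold Ex.cl
    rw [h1]
    exact ⟨fun h => ⟨q1, h.2⟩, fun h => ⟨p1, h.2⟩⟩

/-- **the law of the dimension** -/
theorem law_gen {G F : Type} [AddCommGroup G] [Module (ZMod 2) G] [AddCommGroup F]
    [Module (ZMod 2) F] [Finite G] [Finite F] {ρ : RC} {I : Type} [Fintype I] {cl : I → ℕ → Prop}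
    (hcl : ∀ i p, cl i p → ρ.Φ.P p) (hHM : ∀ i, HM (cl i)) (σ : Sys ρ.Φ G F) (hσ : σ.Good cl)
    {t : ℝ} (ht : 0 < t) (hcard : (Nat.card σ.𝓛 : ℝ) = t * Nat.card F)
    {Λ H' : Type} [Fintype Λ] [AddCommGroup H'] [Fintype H'] (hH : ∀ x : H', x + x = 0)
    {lb : ℕ → Λ} {H : ℕ → H'} (c₀ : H') (hL : Lb σ cl lb H) (hr : Rch ρ.Φ H c₀) (r : ℕ)
    (Gd : Finset ℕ → Prop) (hGd : ∀ S, Gd S ↔ finrank (ZMod 2) (σ.Sel S) = r) :
    Tendsto (fun X : ℕ => (((SS ρ.Φ X).filter fun S => GT H c₀ S ∧ Gd S).card : ℝ) /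
      (((SS ρ.Φ X).filter (GT H c₀)).card : ℝ)) atTop (nhds (Q44.BC.lam t r)) := by
  have e : Gd = fun S => finrank (ZMod 2) (σ.Sel S) = r := funext fun S => propext (hGd S)
  have h0 : ∀ ε : ℝ, 0 < ε → ∃ R, BX ρ.Φ cl (GT H c₀) Gd (Q44.BC.lam t r) ε (Fintype.card Λ) R := by
    intro ε hε
    rw [e]
    exact t_BX σ hσ ht hcard r c₀ hL hε
  have h1 := t_DQ ρ.ok cl hcl hHM (GT H c₀) Gd (Q44.BC.lam t r) (Fintype.card Λ) h0
  exact law_pos ρ.ok (pos_prop hH ρ.ok H hr) h1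

theorem Ex.law (h : Ex T m A B) (W : Submodule (ZMod 2) (GG T × Fm m)) (c₀ : Fm m) {t : ℝ}
    (ht : 0 < t) (hcard : (Nat.card (h.s0 W).𝓛 : ℝ) = t * Nat.card h.F)
    (hr : Rch h.rc.Φ (hF m) c₀) (r : ℕ) (Gd : Finset ℕ → Prop)
    (hGd : ∀ S, Gd S ↔ finrank (ZMod 2) ((h.s0 W).Sel S) = r) :
    Tendsto (fun X : ℕ => (((SS h.rc.Φ X).filter fun S => GT (hF m) c₀ S ∧ Gd S).card : ℝ) /
      (((SS h.rc.Φ X).filter (GT (hF m) c₀)).card : ℝ)) atTop (nhds (Q44.BC.lam t r)) := by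
  have : NeZero m := ⟨h.md.pos⟩
  have fF : Finite (Fm m) := inferInstance
  exact law_gen h.cl_P h.cl_hm (h.s0 W) (h.good W) ht hcard Fm_two c₀ (h.lb_ok W) hr r Gd hGd

end Pool.Agent.H68.X
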