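import Pool.Agent.H68.L.R_pool_sql_team_seeded_3997aac3.Q44.BN.Vec

/-!
# The pairing of the square classes supported on `T` and of the classes modulo `m`
-/

set_option autoImplicit false

open scoped Classical

namespace Pool.Agent.H68.X

open Finset Module
open Q44.TK (Fm hF hF_pos hF_mul hF_sum hF_eq hF_one Fm_two)
open Q44.BN (jv jc jc_hF jc_prime jv_prime jac_pm hF_surj hF_mod ne_zero_of_cop odd_of_cop GG JJ UU
  sgn mem_JJ JJ_sub JJ_prime UU_add UU_zero UU_sqf UU_ne UU_dvd UU_dvd' UU_inj UU_sq_zero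
  UU_surj sgn_abs)
open Q44.TI (pd padic_sq padic_sq2 ch)

/-- the modulus `m` has the prime factors `T` -/
structure Md (T : Finset ℕ) (m : ℕ) : Prop where
  pr : ∀ p ∈ T, p.Prime
  two : 2 ∈ T
  pos : m ≠ 0
  h8 : 8 ∣ m
  dv : ∀ p : ℕ, p.Prime → (p ∣ m ↔ p ∈ T)
  hU : 4 * ∏ p ∈ T, p ∣ m

variable {T : Finset ℕ} {m : ℕ}

theorem UU_abs (g : GG T) : (UU g).natAbs ∣ ∏ p ∈ T, p := by
  unfold UU
  rw [Int.natAbs_mul, sgn_abs, one_mul]
  unfold pd
  rw [Int.natAbs_natCast]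
  exact Finset.prod_dvd_prod_of_subset _ _ _ (JJ_sub g)

theorem Md.four (h : Md T m) (g : GG T) : 4 * (UU g).natAbs ∣ m :=
  (Nat.mul_dvd_mul_left 4 (UU_abs g)).trans h.hU

theorem Md.h4 (h : Md T m) : 4 ∣ m := (by norm_num : 4 ∣ 8).trans h.h8

theorem jac_mul_cop {s : ℤ} {m n : ℕ} (hs : ∀ p : ℕ, p.Prime → (p : ℤ) ∣ s → p ∣ m)
    (hn : n.Coprime m) : jacobiSym s n = 1 ∨ jacobiSym s n = -1 := by
  refine jacobiSym.eq_one_or_neg_one ?_
  rw [Int.gcd_eq_natAbs, Int.natAbs_natCast]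
  by_contra h
  obtain ⟨p, hp, hpd⟩ := Nat.exists_prime_and_dvd h
  have h1 := Nat.dvd_gcd_iff.1 hpd
  have h2 := hs p hp (Int.natCast_dvd.2 h1.1)
  have h3 := Nat.dvd_gcd h1.2 h2
  rw [hn] at h3
  exact hp.one_lt.ne' (Nat.dvd_one.1 h3)

theorem jv_add (h : Md T m) (g g' : GG T) {n : ℕ} (hn : n.Coprime m) :
    jv (UU (g + g')) n = jv (UU g) n + jv (UU g') n := by
  obtain ⟨s, hs0, hs, he⟩ := UU_add h.pr g g'
  have h1 := jac_pm (h.four g) hn
  have h2 := jac_pm (h.four g') hn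
  have h3 := jac_pm (h.four (g + g')) hn
  have h4 := jac_mul_cop (s := s) (m := m) (fun p hp hd => (h.dv p hp).2 (hs p hp hd)) hn
  have h5 := congrArg (fun z : ℤ => jacobiSym z n) he
  simp only [jacobiSym.mul_left, jacobiSym.pow_left] at h5
  have h6 : jacobiSym s n ^ 2 = 1 := by
    rcases h4 with h4 | h4 <;> rw [h4] <;> norm_num
  rw [h6, mul_one] at h5
  unfold jv
  rw [← h5]
  rcases h1 with h1 | h1 <;> rcases h2 with h2 | h2 <;> rw [h1, h2]
  · simp
  · norm_num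
  · norm_num
  · norm_num
    decide

/-- the pairing -/
noncomputable def chi (h : Md T m) : GG T →ₗ[ZMod 2] Fm m →ₗ[ZMod 2] ZMod 2 :=
  AddMonoidHom.toZModLinearMap 2 (AddMonoidHom.mk' (fun g => jc m (UU g)) fun g g' => by
    refine LinearMap.ext fun e => ?_
    obtain ⟨n, hn, -, rfl⟩ := hF_surj h.pos e
    rw [LinearMap.add_apply, jc_hF h.pos (h.four _) hn, jc_hF h.pos (h.four _) hn,
      jc_hF h.pos (h.four _) hn, jv_add h g g' hn])

theorem chi_apply (h : Md T m) (g : GG T) : chi h g = jc m (UU g) := rfl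

theorem chi_hF (h : Md T m) (g : GG T) {n : ℕ} (hn : n.Coprime m) :
    chi h g (hF m n) = jv (UU g) n := jc_hF h.pos (h.four g) hn

theorem chi_prime (h : Md T m) (g : GG T) {p : ℕ} (hp : p.Prime) (hpT : p ∉ T) :
    chi h g (hF m p) = ch ((UU g : ℤ) : ZMod p) :=
  jc_prime h.pos (h.four g) hp ((Nat.Prime.coprime_iff_not_dvd hp).2 fun hd => hpT ((h.dv p hp).1 hd))

/-- the characters are different -/
theorem chi_inj (h : Md T m) {g : GG T} (hg : chi h g = 0) : g = 0 := by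
  by_contra hne
  have hns : ¬ IsSquare (UU g) := fun hs => hne (UU_sq_zero h.pr hs)
  obtain ⟨p, hp1, hp2, hp3, -⟩ := Pool.Agent.TH838.PS.two_neg (UU g) (UU g) hns hns m
  have hpT : p ∉ T := fun hT => by
    have h1 := (h.dv p hp2).2 hT
    have := Nat.le_of_dvd (Nat.pos_of_ne_zero h.pos) h1
    omega
  have h1 := chi_prime h g hp2 hpT
  rw [hg, LinearMap.zero_apply] at h1
  exact hp3 (Q44.TI.ch_zero.1 h1.symm)

end Pool.Agent.H68.X
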