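import Mathlib

/-!
# The formula of Greenberg and Wiles for the block systems
-/

set_option autoImplicit false

open scoped Classical

namespace Pool.Agent.H68.X

open Finset Module

/-- the dimension of a preimage -/
theorem finrank_comap {V V' : Type} [AddCommGroup V] [Module (ZMod 2) V] [AddCommGroup V']
    [Module (ZMod 2) V'] [FiniteDimensional (ZMod 2) V] (f : V →ₗ[ZMod 2] V')
    (P : Submodule (ZMod 2) V') :
    finrank (ZMod 2) (P.comap f) = finrank (ZMod 2) (LinearMap.ker f) +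
      finrank (ZMod 2) (LinearMap.range f ⊓ P : Submodule (ZMod 2) V') := by
  have h1 := LinearMap.finrank_range_add_finrank_ker (f.domRestrict (P.comap f))
  have h2 : LinearMap.range (f.domRestrict (P.comap f)) = LinearMap.range f ⊓ P := by
    rw [LinearMap.range_domRestrict, Submodule.map_comap_eq]
  have h3 : finrank (ZMod 2) (LinearMap.ker (f.domRestrict (P.comap f))) =
      finrank (ZMod 2) (LinearMap.ker f) := by
    refine LinearEquiv.finrank_eq ?_
    refine LinearEquiv.ofBijective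
      (((P.comap f).subtype.comp (LinearMap.ker (f.domRestrict (P.comap f))).subtype).codRestrict
        (LinearMap.ker f) fun x => ?_) ⟨?_, ?_⟩
    · exact x.2
    · intro x y hxy
      have h4 : (x.1.1 : V) = y.1.1 := congrArg (fun t : LinearMap.ker f => (t : V)) hxy
      exact Subtype.ext (Subtype.ext h4)
    · intro y
      refine ⟨⟨⟨y.1, ?_⟩, ?_⟩, rfl⟩
      · show f y.1 ∈ P
        have : f y.1 = 0 := y.2
        rw [this]
        exact P.zero_mem
      · exact y.2
  rw [h2, h3] at h1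
  omega

variable {J G F : Type} [Fintype J] [AddCommGroup G] [Module (ZMod 2) G] [AddCommGroup F]
  [Module (ZMod 2) F]

/-- the data of a system -/
structure Gd (J G F : Type) [AddCommGroup G] [Module (ZMod 2) G] [AddCommGroup F]
    [Module (ZMod 2) F] where
  a : J → J → ZMod 2
  d : J → ZMod 2
  h : J → F
  v : F →ₗ[ZMod 2] ZMod 2
  χ : G →ₗ[ZMod 2] F →ₗ[ZMod 2] ZMod 2

/-- the rows -/
noncomputable def Gd.row (D : Gd J G F) : ((J → ZMod 2) × G) →ₗ[ZMod 2] (J → ZMod 2) :=
  AddMonoidHom.toZModLinearMap 2 (AddMonoidHom.mk' (fun w p =>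
    (∑ q, if q = p then 0 else D.a p q * w.1 q) + D.d p * w.1 p + D.χ w.2 (D.h p)) (by
    intro w w'
    funext p
    have e : ∀ q, (if q = p then (0 : ZMod 2) else D.a p q * (w + w').1 q) =
        (if q = p then 0 else D.a p q * w.1 q) + (if q = p then 0 else D.a p q * w'.1 q) := by
      intro q
      split_ifs
      · rw [add_zero]
      · rw [Prod.fst_add, Pi.add_apply, mul_add]
    have e2 : (∑ q, if q = p then (0 : ZMod 2) else D.a p q * (w + w').1 q) =
        (∑ q, if q = p then 0 else D.a p q * w.1 q) +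
          ∑ q, if q = p then 0 else D.a p q * w'.1 q := by
      rw [← sum_add_distrib]
      exact sum_congr rfl fun q _ => e q
    show (∑ q, if q = p then (0 : ZMod 2) else D.a p q * (w + w').1 q) +
      D.d p * (w.1 p + w'.1 p) + D.χ (w.2 + w'.2) (D.h p) = _
    rw [e2, map_add, LinearMap.add_apply, Pi.add_apply]
    ring))

theorem Gd.row_apply (D : Gd J G F) (w : (J → ZMod 2) × G) (p : J) : D.row w p =
    (∑ q, if q = p then 0 else D.a p q * w.1 q) + D.d p * w.1 p + D.χ w.2 (D.h p) := rfl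

/-- the class -/
noncomputable def Gd.cls (D : Gd J G F) : ((J → ZMod 2) × G) →ₗ[ZMod 2] G × F :=
  AddMonoidHom.toZModLinearMap 2 (AddMonoidHom.mk' (fun w => (w.2, ∑ p, w.1 p • D.h p)) (by
    intro w w'
    refine Prod.ext rfl ?_
    show ∑ p, (w + w').1 p • D.h p = ∑ p, w.1 p • D.h p + ∑ p, w'.1 p • D.h p
    rw [← sum_add_distrib]
    exact sum_congr rfl fun p _ => add_smul _ _ _))

theorem Gd.cls_apply (D : Gd J G F) (w : (J → ZMod 2) × G) :
    D.cls w = (w.2, ∑ p, w.1 p • D.h p) := rfl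

/-- the solutions -/
noncomputable def Gd.Sel (D : Gd J G F) (W : Submodule (ZMod 2) (G × F)) : Submodule (ZMod 2) ((J → ZMod 2) × G) :=
  LinearMap.ker D.row ⊓ W.comap D.cls

theorem Gd.mem_Sel {D : Gd J G F} {W : Submodule (ZMod 2) (G × F)} {w : (J → ZMod 2) × G} :
    w ∈ D.Sel W ↔ D.row w = 0 ∧ D.cls w ∈ W := Iff.rfl

/-- the dual data -/
def Gd.dual (D : Gd J G F) : Gd J G F := { D with d := fun p => D.d p + D.v (D.h p) }

/-- the pairing -/
noncomputable def bet (χ : G →ₗ[ZMod 2] F →ₗ[ZMod 2] ZMod 2) (v : F →ₗ[ZMod 2] ZMod 2) :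
    LinearMap.BilinForm (ZMod 2) (G × F) :=
  LinearMap.mk₂ (ZMod 2) (fun w w' => χ w.1 w'.2 + χ w'.1 w.2 + v w.2 * v w'.2)
    (fun w w' u => by
      simp only [Prod.fst_add, Prod.snd_add, map_add, LinearMap.add_apply]; ring)
    (fun c w u => by
      simp only [Prod.smul_fst, Prod.smul_snd, map_smul, LinearMap.smul_apply, smul_eq_mul]; ring)
    (fun w w' u => by
      simp only [Prod.fst_add, Prod.snd_add, map_add, LinearMap.add_apply]; ring)
    (fun c w u => by
      simp only [Prod.smul_fst, Prod.smul_snd, map_smul, LinearMap.smul_apply, smul_eq_mul]; ring)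

theorem bet_apply (χ : G →ₗ[ZMod 2] F →ₗ[ZMod 2] ZMod 2) (v : F →ₗ[ZMod 2] ZMod 2) (w w' : G × F) :
    bet χ v w w' = χ w.1 w'.2 + χ w'.1 w.2 + v w.2 * v w'.2 := rfl

theorem bet_symm (χ : G →ₗ[ZMod 2] F →ₗ[ZMod 2] ZMod 2) (v : F →ₗ[ZMod 2] ZMod 2) (w w' : G × F) :
    bet χ v w w' = bet χ v w' w := by
  rw [bet_apply, bet_apply]
  ring

/-- nondegeneracy -/
theorem bet_zero {χ : G →ₗ[ZMod 2] F →ₗ[ZMod 2] ZMod 2} {v : F →ₗ[ZMod 2] ZMod 2}
    (hs : ∀ e, (∀ g, χ g e = 0) → e = 0) (hi : ∀ g, χ g = 0 → g = 0) {w : G × F}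
    (h : ∀ w', bet χ v w w' = 0) : w = 0 := by
  have h1 : w.2 = 0 := hs _ fun g => by
    have := h (g, 0)
    rw [bet_apply] at this
    simpa using this
  have h2 : w.1 = 0 := hi _ (LinearMap.ext fun e => by
    have := h (0, e)
    rw [bet_apply, h1] at this
    simpa using this)
  exact Prod.ext h2 h1

/-- the large form -/
noncomputable def big (J : Type) [Fintype J] (χ : G →ₗ[ZMod 2] F →ₗ[ZMod 2] ZMod 2)
    (v : F →ₗ[ZMod 2] ZMod 2) : LinearMap.BilinForm (ZMod 2) ((J → ZMod 2) × (G × F)) :=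
  LinearMap.mk₂ (ZMod 2) (fun w w' => ∑ p, w.1 p * w'.1 p + bet χ v w.2 w'.2)
    (fun w w' u => by
      simp only [Prod.fst_add, Prod.snd_add, Pi.add_apply, map_add, LinearMap.add_apply, add_mul,
        sum_add_distrib]
      ring)
    (fun c w u => by
      simp only [Prod.smul_fst, Prod.smul_snd, Pi.smul_apply, map_smul, LinearMap.smul_apply,
        smul_eq_mul, mul_add, mul_sum, mul_assoc])
    (fun w w' u => by
      simp only [Prod.fst_add, Prod.snd_add, Pi.add_apply, map_add, mul_add,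
        sum_add_distrib]
      ring)
    (fun c w u => by
      simp only [Prod.smul_fst, Prod.smul_snd, Pi.smul_apply, map_smul,
        smul_eq_mul, mul_add, mul_sum]
      congr 1
      exact sum_congr rfl fun p _ => by ring)

theorem big_apply (χ : G →ₗ[ZMod 2] F →ₗ[ZMod 2] ZMod 2) (v : F →ₗ[ZMod 2] ZMod 2)
    (w w' : (J → ZMod 2) × (G × F)) :
    big J χ v w w' = ∑ p, w.1 p * w'.1 p + bet χ v w.2 w'.2 := rfl

theorem big_symm (χ : G →ₗ[ZMod 2] F →ₗ[ZMod 2] ZMod 2) (v : F →ₗ[ZMod 2] ZMod 2)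
    (w w' : (J → ZMod 2) × (G × F)) : big J χ v w w' = big J χ v w' w := by
  rw [big_apply, big_apply, bet_symm]
  congr 1
  exact sum_congr rfl fun p _ => mul_comm _ _

theorem big_nondeg {χ : G →ₗ[ZMod 2] F →ₗ[ZMod 2] ZMod 2} {v : F →ₗ[ZMod 2] ZMod 2}
    (hs : ∀ e, (∀ g, χ g e = 0) → e = 0) (hi : ∀ g, χ g = 0 → g = 0) :
    (big J χ v).Nondegenerate := by
  have key : ∀ w : (J → ZMod 2) × (G × F), (∀ w', big J χ v w w' = 0) → w = 0 := by
    intro w h
    refine Prod.ext (funext fun p => ?_) ?_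
    · have := h (Pi.single p 1, 0)
      rw [big_apply] at this
      simpa [Pi.single_apply] using this
    · refine bet_zero (v := v) hs hi fun w' => ?_
      have := h (0, w')
      rw [big_apply] at this
      simpa using this
  constructor
  · intro w h
    exact key w h
  · intro w h
    exact key w fun w' => by rw [big_symm]; exact h w'

/-- the orthogonal complement -/
noncomputable def per (χ : G →ₗ[ZMod 2] F →ₗ[ZMod 2] ZMod 2) (v : F →ₗ[ZMod 2] ZMod 2)
    (W : Submodule (ZMod 2) (G × F)) : Submodule (ZMod 2) (G × F) := (bet χ v).orthogonal W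

theorem mem_per {χ : G →ₗ[ZMod 2] F →ₗ[ZMod 2] ZMod 2} {v : F →ₗ[ZMod 2] ZMod 2}
    {W : Submodule (ZMod 2) (G × F)} {w : G × F} : w ∈ per χ v W ↔ ∀ u ∈ W, bet χ v u w = 0 :=
  Iff.rfl

/-- the map of the unknowns into the large space -/
noncomputable def Gd.th (D : Gd J G F) : ((J → ZMod 2) × G) →ₗ[ZMod 2] (J → ZMod 2) × (G × F) :=
  D.row.prod D.cls

/-- the map of the dual unknowns into the large space -/
noncomputable def Gd.ps (D : Gd J G F) : ((J → ZMod 2) × G) →ₗ[ZMod 2] (J → ZMod 2) × (G × F) :=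
  (LinearMap.fst (ZMod 2) _ _).prod D.cls

theorem Gd.ps_inj (D : Gd J G F) : Function.Injective D.ps := by
  intro w w' h
  have h1 : w.1 = w'.1 := congrArg (fun t => t.1) h
  have h2 : w.2 = w'.2 := congrArg (fun t => t.2.1) h
  exact Prod.ext h1 h2

theorem mul_ite_sum (c : ZMod 2) (f : J → ZMod 2) (p : J) :
    c * (∑ q, if q = p then (0 : ZMod 2) else f q) = ∑ q, if q = p then 0 else c * f q := by
  rw [mul_sum]
  exact sum_congr rfl fun q _ => by split_ifs <;> simp

/-- the adjoint -/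
theorem Gd.adj (D : Gd J G F) (hr : ∀ p q, p ≠ q → D.a p q + D.a q p = D.v (D.h p) * D.v (D.h q))
    (w : (J → ZMod 2) × G) (y : J → ZMod 2) (g' : G) (e' : F) :
    big J D.χ D.v (D.th w) (y, (g', e')) =
      D.χ w.2 (∑ p, y p • D.h p + e') + (∑ q, w.1 q * D.dual.row (y, g') q) +
        D.v (∑ q, w.1 q • D.h q) * D.v (∑ p, y p • D.h p + e') := by
  rw [big_apply, bet_apply]
  show ∑ p, D.row w p * y p + (D.χ w.2 e' + D.χ g' (∑ q, w.1 q • D.h q) +
    D.v (∑ q, w.1 q • D.h q) * D.v e') = _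
  have e1 : ∑ p, D.row w p * y p = (∑ p, y p * ∑ q, if q = p then 0 else D.a p q * w.1 q) +
      ∑ p, D.d p * w.1 p * y p + D.χ w.2 (∑ p, y p • D.h p) := by
    rw [map_sum, ← sum_add_distrib, ← sum_add_distrib]
    refine sum_congr rfl fun p _ => ?_
    rw [D.row_apply, map_smul, smul_eq_mul]
    ring
  have e2 : (∑ q, w.1 q * D.dual.row (y, g') q) =
      (∑ q, w.1 q * ∑ p, if p = q then 0 else D.a q p * y p) +
      ∑ q, (D.d q + D.v (D.h q)) * y q * w.1 q + D.χ g' (∑ q, w.1 q • D.h q) := by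
    rw [map_sum, ← sum_add_distrib, ← sum_add_distrib]
    refine sum_congr rfl fun q _ => ?_
    rw [Gd.row_apply, map_smul, smul_eq_mul]
    show w.1 q * ((∑ p, if p = q then 0 else D.a q p * y p) + (D.d q + D.v (D.h q)) * y q +
      D.χ g' (D.h q)) = _
    ring
  have e3 : (∑ p, y p * ∑ q, if q = p then 0 else D.a p q * w.1 q) +
      (∑ q, w.1 q * ∑ p, if p = q then 0 else D.a q p * y p) =
      D.v (∑ q, w.1 q • D.h q) * D.v (∑ p, y p • D.h p) + ∑ q, D.v (D.h q) * y q * w.1 q := by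
    have e4 : (∑ p, y p * ∑ q, if q = p then 0 else D.a p q * w.1 q) =
        ∑ p, ∑ q, if q = p then 0 else D.a p q * (w.1 q * y p) := by
      refine sum_congr rfl fun p _ => ?_
      rw [mul_ite_sum]
      refine sum_congr rfl fun q _ => ?_
      split_ifs
      · rfl
      · ring
    have e5 : (∑ q, w.1 q * ∑ p, if p = q then 0 else D.a q p * y p) =
        ∑ p, ∑ q, if q = p then 0 else D.a q p * (w.1 q * y p) := by
      rw [sum_comm]
      refine sum_congr rfl fun q _ => ?_
      rw [mul_ite_sum]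
      refine sum_congr rfl fun p _ => ?_
      by_cases h : p = q
      · rw [if_pos h, if_pos h.symm]
      · rw [if_neg h, if_neg (Ne.symm h)]
        ring
    have e6 : D.v (∑ q, w.1 q • D.h q) * D.v (∑ p, y p • D.h p) =
        ∑ p, ∑ q, D.v (D.h p) * D.v (D.h q) * (w.1 q * y p) := by
      rw [map_sum, map_sum, sum_mul_sum, sum_comm]
      refine sum_congr rfl fun p _ => sum_congr rfl fun q _ => ?_
      rw [map_smul, map_smul, smul_eq_mul, smul_eq_mul]
      ring
    have e7 : ∑ q, D.v (D.h q) * y q * w.1 q =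
        ∑ p, ∑ q, if q = p then D.v (D.h p) * D.v (D.h q) * (w.1 q * y p) else 0 := by
      refine sum_congr rfl fun p _ => ?_
      rw [sum_ite_eq' univ p, if_pos (mem_univ p)]
      have : D.v (D.h p) * D.v (D.h p) = D.v (D.h p) := by
        generalize D.v (D.h p) = x
        revert x
        decide
      rw [this]
      ring
    rw [e4, e5, e6, e7, ← sum_add_distrib, ← sum_add_distrib]
    refine sum_congr rfl fun p _ => ?_
    rw [← sum_add_distrib, ← sum_add_distrib]
    refine sum_congr rfl fun q _ => ?_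
    by_cases h : q = p
    · rw [if_pos h, if_pos h, if_pos h, add_zero]
      exact (CharTwo.add_self_eq_zero _).symm
    · rw [if_neg h, if_neg h, if_neg h, add_zero, ← add_mul, hr p q (Ne.symm h)]
  rw [e1, e2, map_add, map_add]
  have e8 : ∑ q, (D.d q + D.v (D.h q)) * y q * w.1 q =
      ∑ p, D.d p * w.1 p * y p + ∑ q, D.v (D.h q) * y q * w.1 q := by
    rw [← sum_add_distrib]
    exact sum_congr rfl fun q _ => by ring
  rw [e8]
  have h2 : (2 : ZMod 2) = 0 := by decide
  linear_combination e3 - (∑ q, w.1 q * ∑ p, if p = q then 0 else D.a q p * y p) * h2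

theorem self2 (e : F) : e + e = 0 := by
  rw [← two_smul (ZMod 2) e]
  have : (2 : ZMod 2) = 0 := by decide
  rw [this, zero_smul]

theorem eq_of_add {x y : F} (h : x + y = 0) : y = x := by
  calc y = (x + x) + y := by rw [self2, zero_add]
    _ = x + (x + y) := by abel
    _ = x := by rw [h, add_zero]

/-- the solutions of the dual system -/
theorem Gd.dual_iff (D : Gd J G F) (hs : ∀ e, (∀ g, D.χ g e = 0) → e = 0)
    (hr : ∀ p q, p ≠ q → D.a p q + D.a q p = D.v (D.h p) * D.v (D.h q))
    (W : Submodule (ZMod 2) (G × F)) (y : (J → ZMod 2) × (G × F)) :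
    y ∈ (big J D.χ D.v).orthogonal (LinearMap.range D.th ⊔ Submodule.prod ⊥ W) ↔
      ∃ w ∈ D.dual.Sel (per D.χ D.v W), D.ps w = y := by
  obtain ⟨y, g', e'⟩ := y
  constructor
  · intro h
    have h1 : ∀ w, big J D.χ D.v (D.th w) (y, (g', e')) = 0 := fun w =>
      h _ (Submodule.mem_sup_left (LinearMap.mem_range_self _ w))
    have he : ∑ p, y p • D.h p + e' = 0 := by
      refine hs _ fun g => ?_
      have := h1 (0, g)
      rw [D.adj hr] at this
      simpa using this
    have he' : e' = ∑ p, y p • D.h p := eq_of_add he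
    have hrow : D.dual.row (y, g') = 0 := by
      funext q
      have := h1 (Pi.single q 1, 0)
      rw [D.adj hr, he] at this
      simpa [Pi.single_apply] using this
    refine ⟨(y, g'), Gd.mem_Sel.2 ⟨hrow, ?_⟩, ?_⟩
    · show (g', ∑ p, y p • D.h p) ∈ per D.χ D.v W
      rw [← he', mem_per]
      intro u hu
      have := h (0, u) (Submodule.mem_sup_right ⟨by simp, hu⟩)
      have h3 : big J D.χ D.v (0, u) (y, (g', e')) = 0 := this
      rw [big_apply] at h3
      simpa using h3
    · show (y, (g', ∑ p, y p • D.h p)) = (y, (g', e'))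
      rw [← he']
  · rintro ⟨⟨y', g''⟩, hw, he⟩
    have e1 : y' = y := congrArg (fun t => t.1) he
    have e2 : g'' = g' := congrArg (fun t => t.2.1) he
    have e3 : ∑ p, y' p • D.h p = e' := congrArg (fun t => t.2.2) he
    subst e1 e2
    obtain ⟨h1, h2⟩ := Gd.mem_Sel.1 hw
    have h2' : (g'', ∑ p, y' p • D.h p) ∈ per D.χ D.v W := h2
    rw [e3] at h2'
    intro u hu
    obtain ⟨u1, ⟨w, rfl⟩, u2, ⟨h3, h4⟩, rfl⟩ := Submodule.mem_sup.1 hu
    have h3' : u2.1 = 0 := by simpa using h3
    show big J D.χ D.v (D.th w + u2) (y', (g'', e')) = 0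
    rw [map_add, LinearMap.add_apply, D.adj hr, e3, self2, map_zero, map_zero, mul_zero, add_zero,
      zero_add, h1, big_apply, h3']
    have h5 : bet D.χ D.v u2.2 (g'', e') = 0 := mem_per.1 h2' _ h4
    show (∑ q, w.1 q * (0 : ZMod 2)) + (∑ p, (0 : ZMod 2) * y' p + bet D.χ D.v u2.2 (g'', e')) = 0
    rw [h5]
    simp

/-- **the formula of Greenberg and Wiles** -/
theorem Gd.gw [Finite G] [Finite F] (D : Gd J G F) (hs : ∀ e, (∀ g, D.χ g e = 0) → e = 0)
    (hi : ∀ g, D.χ g = 0 → g = 0)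
    (hr : ∀ p q, p ≠ q → D.a p q + D.a q p = D.v (D.h p) * D.v (D.h q))
    (W : Submodule (ZMod 2) (G × F)) :
    finrank (ZMod 2) (D.dual.Sel (per D.χ D.v W)) + finrank (ZMod 2) W =
      finrank (ZMod 2) (D.Sel W) + finrank (ZMod 2) F := by
  have hf1 : Module.Finite (ZMod 2) G := Module.Finite.of_finite
  have hf2 : Module.Finite (ZMod 2) F := Module.Finite.of_finite
  set K := LinearMap.range D.th ⊔ Submodule.prod (⊥ : Submodule (ZMod 2) (J → ZMod 2)) W with hK
  have h1 : finrank (ZMod 2) ((big J D.χ D.v).orthogonal K) =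
      finrank (ZMod 2) (D.dual.Sel (per D.χ D.v W)) := by
    have h2 : (big J D.χ D.v).orthogonal K = (D.dual.Sel (per D.χ D.v W)).map D.ps := by
      ext y
      rw [D.dual_iff hs hr W y]
      rfl
    rw [h2]
    exact (LinearEquiv.finrank_eq (Submodule.equivMapOfInjective D.ps D.ps_inj _)).symm
  have h2 := LinearMap.BilinForm.finrank_orthogonal (B := big J D.χ D.v) (big_nondeg hs hi) K
  have h3 := Submodule.finrank_sup_add_finrank_inf_eq (LinearMap.range D.th)
    (Submodule.prod (⊥ : Submodule (ZMod 2) (J → ZMod 2)) W)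
  have h4 := LinearMap.finrank_range_add_finrank_ker D.th
  have h5 := finrank_comap D.th (Submodule.prod (⊥ : Submodule (ZMod 2) (J → ZMod 2)) W)
  have h6 : (Submodule.prod (⊥ : Submodule (ZMod 2) (J → ZMod 2)) W).comap D.th = D.Sel W := by
    ext w
    rw [Submodule.mem_comap, Submodule.mem_prod, Submodule.mem_bot, Gd.mem_Sel]
    rfl
  have h7 : finrank (ZMod 2) (Submodule.prod (⊥ : Submodule (ZMod 2) (J → ZMod 2)) W) =
      finrank (ZMod 2) W := by
    refine LinearEquiv.finrank_eq ?_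
    refine LinearEquiv.ofBijective ((LinearMap.snd (ZMod 2) _ _).restrict
      (p := Submodule.prod (⊥ : Submodule (ZMod 2) (J → ZMod 2)) W) (q := W)
      fun x hx => hx.2) ⟨?_, ?_⟩
    · rintro ⟨x, hx⟩ ⟨y, hy⟩ h
      have e1 : x.2 = y.2 := congrArg Subtype.val h
      have e2 : x.1 = 0 := by simpa using hx.1
      have e3 : y.1 = 0 := by simpa using hy.1
      exact Subtype.ext (Prod.ext (by rw [e2, e3]) e1)
    · rintro ⟨x, hx⟩
      exact ⟨⟨(0, x), by simpa using hx⟩, rfl⟩
  have h8 : finrank (ZMod 2) ((J → ZMod 2) × (G × F)) =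
      Fintype.card J + (finrank (ZMod 2) G + finrank (ZMod 2) F) := by
    rw [Module.finrank_prod, Module.finrank_prod, finrank_fintype_fun_eq_card]
  have h9 : finrank (ZMod 2) ((J → ZMod 2) × G) = Fintype.card J + finrank (ZMod 2) G := by
    rw [Module.finrank_prod, finrank_fintype_fun_eq_card]
  have h10 := Submodule.finrank_le K
  rw [h6] at h5
  rw [h9] at h4
  rw [h8] at h2 h10
  rw [h7, ← hK] at h3
  omega

/-- the complement of the complement: the dimensions -/
theorem finrank_per [Finite G] [Finite F] {χ : G →ₗ[ZMod 2] F →ₗ[ZMod 2] ZMod 2}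
    {v : F →ₗ[ZMod 2] ZMod 2} (hs : ∀ e, (∀ g, χ g e = 0) → e = 0) (hi : ∀ g, χ g = 0 → g = 0)
    (W : Submodule (ZMod 2) (G × F)) :
    finrank (ZMod 2) (per χ v W) + finrank (ZMod 2) W =
      finrank (ZMod 2) G + finrank (ZMod 2) F := by
  have hf1 : Module.Finite (ZMod 2) G := Module.Finite.of_finite
  have hf2 : Module.Finite (ZMod 2) F := Module.Finite.of_finite
  have h1 : (bet χ v).Nondegenerate := by
    constructor
    · intro w h
      exact bet_zero hs hi h
    · intro w h
      exact bet_zero hs hi fun w' => by rw [bet_symm]; exact h w'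
  have h2 := LinearMap.BilinForm.finrank_orthogonal (B := bet χ v) h1 W
  have h3 := Submodule.finrank_le W
  rw [Module.finrank_prod] at h2 h3
  have h4 : finrank (ZMod 2) (per χ v W) = finrank (ZMod 2) ((bet χ v).orthogonal W) := rfl
  omega

end Pool.Agent.H68.X
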