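import Mathlib

/-!
# The indices of the images of two isogenies
-/

set_option autoImplicit false

namespace Pool.Agent.H68.X

/-- the index of the sum with a subgroup of order two -/
theorem index_sup {G : Type} [AddCommGroup G] (H K : AddSubgroup G) {T : G} (hT : T ≠ 0)
    (hK : ∀ x, x ∈ K ↔ x = 0 ∨ x = T) (hTH : T ∉ H) : H.index = 2 * (H ⊔ K).index := by
  have h1 := AddSubgroup.relIndex_mul_index (H := H) (K := H ⊔ K) le_sup_left
  have h2 : H.relIndex (H ⊔ K) = 2 := by
    rw [sup_comm, AddSubgroup.relIndex_sup_right]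
    have h3 : H.addSubgroupOf K = ⊥ := by
      rw [eq_bot_iff]
      rintro ⟨x, hx⟩ hxH
      rw [AddSubgroup.mem_addSubgroupOf] at hxH
      rcases (hK x).1 hx with h | h
      · subst h
        exact AddSubgroup.zero_mem _
      · exact absurd (h ▸ hxH) hTH
    have h4 : Nat.card K = 2 := by
      have : (K : Set G) = {0, T} := by
        ext x
        rw [SetLike.mem_coe, hK]
        rfl
      rw [← SetLike.coe_sort_coe, this, Nat.card_coe_set_eq, Set.ncard_pair hT.symm]
    rw [AddSubgroup.relIndex, h3, AddSubgroup.index_bot, h4]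
  rw [← h1, h2]

/-- **the product of the indices** -/
theorem idx {G G' : Type} [AddCommGroup G] [AddCommGroup G'] (φ : G →+ G') (ψ : G' →+ G)
    {T : G} {T' : G'} (hT : T ≠ 0) (hT' : T' ≠ 0) (h1 : ∀ x, ψ (φ x) = x + x)
    (h3 : ∀ x, φ x = 0 ↔ x = 0 ∨ x = T) (h4 : ∀ y, ψ y = 0 ↔ y = 0 ∨ y = T')
    (H : AddSubgroup G) (hH : H.index ≠ 0) (h2 : ∀ x ∈ H, x + x = 0 → x = 0)
    (D : AddSubgroup G) (hD : ∀ x, x ∈ D ↔ ∃ y ∈ H, x = y + y) :
    φ.range.index * ψ.range.index = 4 * D.relIndex H := by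
  have e1 : H.index = 2 * (H ⊔ φ.ker).index := by
    refine index_sup H φ.ker hT (fun x => by rw [AddMonoidHom.mem_ker, h3]) fun h => ?_
    refine hT (h2 T h ?_)
    rw [← h1, (h3 T).2 (Or.inr rfl), map_zero]
  have e2 := AddSubgroup.index_map H φ
  have e3 : (H.map φ).index = 2 * ((H.map φ) ⊔ ψ.ker).index := by
    refine index_sup _ ψ.ker hT' (fun x => by rw [AddMonoidHom.mem_ker, h4]) fun h => ?_
    obtain ⟨x, hx, hxT⟩ := h
    refine hT' ?_
    have : x = 0 := h2 x hx (by rw [← h1, hxT, (h4 T').2 (Or.inr rfl)])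
    rw [← hxT, this, map_zero]
  have e4 := AddSubgroup.index_map (H.map φ) ψ
  have e5 : (H.map φ).map ψ = D := by
    ext x
    rw [hD]
    constructor
    · rintro ⟨_, ⟨y, hy, rfl⟩, rfl⟩
      exact ⟨y, hy, h1 y⟩
    · rintro ⟨y, hy, rfl⟩
      exact ⟨_, ⟨y, hy, rfl⟩, h1 y⟩
  have hle : D ≤ H := fun x hx => by
    obtain ⟨y, hy, rfl⟩ := (hD x).1 hx
    exact H.add_mem hy hy
  have e6 := AddSubgroup.relIndex_mul_index hle
  rw [e5] at e4
  have hpos : 0 < H.index := Nat.pos_of_ne_zero hH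
  apply Nat.eq_of_mul_eq_mul_left hpos
  -- i c c' = 4 i q
  have : H.index * (φ.range.index * ψ.range.index) = 2 * (2 * D.index) := by
    rw [e1, e4]
    calc 2 * (H ⊔ φ.ker).index * (φ.range.index * ψ.range.index)
        = 2 * ((H ⊔ φ.ker).index * φ.range.index) * ψ.range.index := by ring
      _ = 2 * (H.map φ).index * ψ.range.index := by rw [← e2]
      _ = 2 * (2 * ((H.map φ ⊔ ψ.ker).index)) * ψ.range.index := by rw [← e3]
      _ = _ := by ring
  rw [this, ← e6]
  ring

end Pool.Agent.H68.X
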