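import Pool.Agent.H68.X.Ix
import Pool.Agent.H68.A.Loc
import Pool.Agent.H68.L.R_pool_sql_team_seeded_b0a926ef.R413.TI.Ima
import Pool.Agent.H68.L.R_seed8.Y668.AlAdd

/-!
# The group of the local classes of a curve over a field
-/

set_option autoImplicit false

open scoped Classical

namespace Pool.Agent.H68.X

open WeierstrassCurve Pool.Agent.H68.A Pool.Agent.Y676.IS
open Pool.Agent.Y668 (Wt al al_add al_neg al_ne al_some al_zero)

/-- the squares -/
def sqs (K : Type) [Field K] : Subgroup Kˣ := (powMonoidHom 2 : Kˣ →* Kˣ).range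

section
variable {K : Type} [Field K]

theorem mem_sqs {z : Kˣ} : z ∈ sqs K ↔ IsSquare (z : K) := by
  constructor
  · rintro ⟨w, rfl⟩
    exact ⟨w, by rw [powMonoidHom_apply, Units.val_pow_eq_pow_val, sq]⟩
  · rintro ⟨w, hw⟩
    have hw0 : w ≠ 0 := by
      rintro rfl
      exact z.ne_zero (by rw [hw, mul_zero])
    refine ⟨Units.mk0 w hw0, Units.ext ?_⟩
    rw [powMonoidHom_apply, Units.val_pow_eq_pow_val, Units.val_mk0, hw, sq]

/-- the group of the classes -/
def Uw (a : K) {b : K} (hb : b ≠ 0) : Subgroup Kˣ where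
  carrier := {z | W K a b z}
  one_mem' := W_one hb
  mul_mem' := by
    intro z z' hz hz'
    exact W_mul hb z.ne_zero z'.ne_zero hz hz'
  inv_mem' := by
    intro z hz
    refine W_of_isSquare_mul hb z.ne_zero (z⁻¹).ne_zero ?_ hz
    exact ⟨1, by rw [← Units.val_mul, mul_inv_cancel, Units.val_one, one_mul]⟩

theorem mem_Uw {a b : K} {hb : b ≠ 0} {z : Kˣ} : z ∈ Uw a hb ↔ W K a b z := Iff.rfl

theorem sqs_le {a b : K} (hb : b ≠ 0) : sqs K ≤ Uw a hb := fun z hz =>
  W_sq hb z.ne_zero (mem_sqs.1 hz)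

theorem W_al [CharZero K] {a b : K} (hb : b ≠ 0) (P : (Cu a b).Point) : W K a b (al a b P) := by
  rcases P with _ | ⟨x, y, h⟩
  · exact W_one hb
  · have e := al_some a b x y h
    have h1 := cu_eq.1 h.1
    change W K a b (al a b (Affine.Point.some x y h : (Wt a b).toAffine.Point))
    rw [e]
    split_ifs with hx
    · exact W_self hb
    · exact W_pt hb hx (by rw [h1]; ring)

/-- the index of a subgroup with all points of square class -/
theorem index_le' [CharZero K] {a b : K} (hb : b ≠ 0)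
    (R : AddSubgroup (Cu a b).Point) (hR : ∀ P, IsSquare (al a b P) → P ∈ R)
    (hf : (sqs K).relIndex (Uw a hb) ≠ 0) :
    R.index ≠ 0 ∧ R.index ≤ (sqs K).relIndex (Uw a hb) := by
  have h2 : (2 : K) ≠ 0 := two_ne_zero
  have hfin : Finite ((Uw a hb) ⧸ ((sqs K).subgroupOf (Uw a hb))) :=
    Nat.finite_of_card_ne_zero hf
  let v : (Cu a b).Point → Uw a hb := fun P => ⟨Units.mk0 (al a b P) (al_ne hb P), W_al hb P⟩
  let F : (Cu a b).Point ⧸ R → (Uw a hb) ⧸ ((sqs K).subgroupOf (Uw a hb)) := fun q =>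
    QuotientGroup.mk (v q.out)
  have hF : Function.Injective F := by
    intro x y hxy
    have h3 : (v x.out)⁻¹ * v y.out ∈ (sqs K).subgroupOf (Uw a hb) := QuotientGroup.eq.1 hxy
    rw [Subgroup.mem_subgroupOf, mem_sqs] at h3
    have hx0 := al_ne hb x.out
    have hy0 := al_ne hb y.out
    have h4 : IsSquare (al a b x.out * al a b y.out) := by
      obtain ⟨w, hw⟩ := h3
      have hw' : (al a b x.out)⁻¹ * al a b y.out = w * w := by
        rw [← hw]
        simp only [v, Subgroup.coe_mul, InvMemClass.coe_inv, Units.val_mul, Units.val_inv_eq_inv_val,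
          Units.val_mk0]
      refine ⟨al a b x.out * w, ?_⟩
      have : al a b y.out = al a b x.out * (w * w) := by
        rw [← hw']
        field_simp
      rw [this]
      ring
    have h5 : IsSquare (al a b (-x.out + y.out)) := by
      have h6 : IsSquare (al a b (-x.out + y.out) * (al a b (-x.out) * al a b y.out)) :=
        al_add (K := K) h2 (-x.out) y.out
      have h7 : al a b (-x.out) = al a b x.out := al_neg (K := K) x.out
      rw [h7] at h6
      obtain ⟨s, hs⟩ := h4
      obtain ⟨t, ht⟩ := h6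
      have hs0 : s ≠ 0 := by
        rintro rfl
        exact mul_ne_zero hx0 hy0 (by rw [hs, mul_zero])
      rw [hs] at ht
      refine ⟨t / s, ?_⟩
      field_simp
      linear_combination ht
    have h8 := hR _ h5
    have : (QuotientAddGroup.mk x.out : (Cu a b).Point ⧸ R) = QuotientAddGroup.mk y.out :=
      QuotientAddGroup.eq.2 h8
    simpa using this
  have := Nat.card_le_card_of_injective F hF
  have hfin2 : Finite ((Cu a b).Point ⧸ R) := Finite.of_injective F hF
  exact ⟨AddSubgroup.index_ne_zero_of_finite, this⟩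

theorem sq_range {a b a' b' u : K} [CharZero K] (h : Dat a b a' b' u) (P : (Cu a' b').Point)
    (hP : IsSquare (al a' b' P)) : ∃ Q : (Cu a b).Point, isoF h Q = P := by
  rcases P with _ | ⟨x, y, hxy⟩
  · exact ⟨0, rfl⟩
  · have e := al_some a' b' x y hxy
    change IsSquare (al a' b' (Affine.Point.some x y hxy : (Wt a' b').toAffine.Point)) at hP
    rw [e] at hP
    split_ifs at hP with hx
    · obtain ⟨d, hd⟩ := hP
      exact Pool.Agent.R413.TI.ImaP.im_T h (d := d) (by rw [hd]; ring) hx hxy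
    · obtain ⟨w, hw⟩ := hP
      exact Pool.Agent.R413.TI.ImaP.im_sq h (w := w) (by rw [hw]; ring) hx hxy

/-- **the number of the local classes of the two curves** -/
theorem loc_ge [CharZero K] {a b : K} (hb : b ≠ 0) (hc : a ^ 2 - 4 * b ≠ 0)
    (hS : (sqs K).index ≠ 0) (H : AddSubgroup (Cu a b).Point) (hH : H.index ≠ 0)
    (h2 : ∀ x ∈ H, x + x = 0 → x = 0) (D : AddSubgroup (Cu a b).Point)
    (hD : ∀ x, x ∈ D ↔ ∃ y ∈ H, x = y + y) :
    D.relIndex H ≠ 0 ∧
      4 * D.relIndex H ≤ (sqs K).relIndex (Uw (-2 * a) hc) * (sqs K).relIndex (Uw a hb) := by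
  have h : Dat a b (-2 * a) (a ^ 2 - 4 * b) 1 := ⟨hb, hc, one_ne_zero, by ring, by ring⟩
  have h' : Dat (-2 * a) (a ^ 2 - 4 * b) a b 2 := ⟨hc, hb, two_ne_zero, by ring, by ring⟩
  have f1 : (sqs K).relIndex (Uw a hb) ≠ 0 := by
    have := Subgroup.relIndex_mul_index (sqs_le (a := a) hb)
    intro h0
    rw [h0, zero_mul] at this
    exact hS this.symm
  have f2 : (sqs K).relIndex (Uw (-2 * a) hc) ≠ 0 := by
    have := Subgroup.relIndex_mul_index (sqs_le (a := -2 * a) hc)
    intro h0
    rw [h0, zero_mul] at this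
    exact hS this.symm
  let φ : (Cu a b).Point →+ (Cu (-2 * a) (a ^ 2 - 4 * b)).Point :=
    AddMonoidHom.mk' (isoF h) (Pool.Agent.R413.TI.ImaP.add_K h)
  let ψ : (Cu (-2 * a) (a ^ 2 - 4 * b)).Point →+ (Cu a b).Point :=
    AddMonoidHom.mk' (isoF h') (Pool.Agent.R413.TI.ImaP.add_K h')
  have key := idx φ ψ (T := TT h.hb h.hd) (T' := TT h'.hb h'.hd) (Affine.Point.some_ne_zero _)
    (Affine.Point.some_ne_zero _) (fun x => dbl h h' (by norm_num) x)
    (fun x => ⟨fun hx => ker h x hx, by
      rintro (hx | hx)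
      · rw [hx]
        exact isoF_zero h
      · rw [hx]
        exact isoF_T h⟩)
    (fun x => ⟨fun hx => ker h' x hx, by
      rintro (hx | hx)
      · rw [hx]
        exact isoF_zero h'
      · rw [hx]
        exact isoF_T h'⟩) H hH h2 D hD
  obtain ⟨i1, i2⟩ := index_le' hc φ.range (fun P hP => sq_range h P hP) f2
  obtain ⟨i3, i4⟩ := index_le' hb ψ.range (fun P hP => sq_range h' P hP) f1
  refine ⟨fun h0 => ?_, ?_⟩
  · rw [h0, mul_zero] at key
    exact mul_ne_zero i1 i3 key
  · rw [← key]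
    exact Nat.mul_le_mul i2 i4

/-- **the codimensions** -/
theorem codim [CharZero K] {a b : K} (hb : b ≠ 0) (hc : a ^ 2 - 4 * b ≠ 0)
    (hS : (sqs K).index ≠ 0) (h : (sqs K).index ≤
      (sqs K).relIndex (Uw (-2 * a) hc) * (sqs K).relIndex (Uw a hb)) :
    (Uw (-2 * a) hc).index * (Uw a hb).index ≤ (sqs K).index := by
  have e1 := Subgroup.relIndex_mul_index (sqs_le (a := a) hb)
  have e2 := Subgroup.relIndex_mul_index (sqs_le (a := -2 * a) hc)
  have hpos : 0 < (sqs K).index := Nat.pos_of_ne_zero hS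
  refine Nat.le_of_mul_le_mul_left ?_ hpos
  calc (sqs K).index * ((Uw (-2 * a) hc).index * (Uw a hb).index)
      ≤ ((sqs K).relIndex (Uw (-2 * a) hc) * (sqs K).relIndex (Uw a hb)) *
          ((Uw (-2 * a) hc).index * (Uw a hb).index) := Nat.mul_le_mul_right _ h
    _ = ((sqs K).relIndex (Uw (-2 * a) hc) * (Uw (-2 * a) hc).index) *
          ((sqs K).relIndex (Uw a hb) * (Uw a hb).index) := by ring
    _ = (sqs K).index * (sqs K).index := by rw [e1, e2]

end

end Pool.Agent.H68.X
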