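import Pool.Agent.H68.X.Gp

/-!
# Squares modulo `m`
-/

set_option autoImplicit false

open scoped Classical

namespace Pool.Agent.H68.X

open Finset Module
open Q44.TK (Fm hF hF_pos hF_mul hF_sum hF_eq hF_one Fm_two)
open Q44.BN (jv jc jc_hF jc_prime jv_prime jac_pm hF_surj hF_mod ne_zero_of_cop odd_of_cop GG JJ UU
  sgn mem_JJ JJ_sub JJ_prime UU_add UU_zero UU_sqf UU_ne UU_dvd UU_dvd' UU_inj UU_sq_zero
  UU_surj sgn_abs)
open Q44.TI (pd padic_sq padic_sq2 ch)

theorem sq_int {p : ℕ} [Fact p.Prime] {n : ℕ} (h : IsSquare (n : ℚ_[p])) :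
    IsSquare (n : ℤ_[p]) := by
  obtain ⟨r, hr⟩ := h
  have h1 : ‖r‖ * ‖r‖ ≤ 1 := by
    rw [← norm_mul, ← hr]
    exact_mod_cast Padic.norm_int_le_one (p := p) (n : ℤ)
  have h2 : ‖r‖ ≤ 1 := by
    by_contra hc
    push Not at hc
    nlinarith
  refine ⟨⟨r, h2⟩, ?_⟩
  apply PadicInt.ext
  push_cast
  exact hr

theorem sq_zmod (n : ℕ) (m : ℕ) : m ≠ 0 →
    (∀ (p : ℕ) [Fact p.Prime], p ∣ m → IsSquare (n : ℚ_[p])) → IsSquare (n : ZMod m) := by
  refine Nat.recOnPosPrimePosCoprime ?_ ?_ ?_ ?_ m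
  · intro p k hp hk _ h
    have : Fact p.Prime := ⟨hp⟩
    obtain ⟨r, hr⟩ := sq_int (h p (dvd_pow_self p hk.ne'))
    have h1 := congrArg (PadicInt.toZModPow (p := p) k) hr
    rw [map_natCast, map_mul] at h1
    exact ⟨_, h1⟩
  · intro h
    exact absurd rfl h
  · intro _ _
    exact ⟨0, Subsingleton.elim _ _⟩
  · intro a b ha hb hab iha ihb _ h
    obtain ⟨r, hr⟩ := iha (by omega) fun p _ hp => h p (hp.mul_right b)
    obtain ⟨s, hs⟩ := ihb (by omega) fun p _ hp => h p (hp.mul_left a)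
    let e := ZMod.chineseRemainder hab
    refine ⟨e.symm (r, s), ?_⟩
    apply e.injective
    rw [map_mul, RingEquiv.apply_symm_apply, map_natCast]
    exact Prod.ext hr hs

theorem md_of_hF {m : ℕ} (hm : m ≠ 0) {n n' : ℕ} (hn : n.Coprime m) (hn' : n'.Coprime m)
    (h : hF m n = hF m n') : IsSquare ((n * n' : ℕ) : ZMod m) := (hF_eq hn hn').1 h.symm

variable {T : Finset ℕ} {m : ℕ}

/-- a number which is a square modulo `m` is a square at the bad primes -/
theorem sq_bad (h : Md T m) {n : ℕ} (hn : n.Coprime m) (hs : IsSquare (n : ZMod m)) {p : ℕ}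
    [hp : Fact p.Prime] (hpT : p ∈ T) : IsSquare (n : ℚ_[p]) := by
  have hpm := (h.dv p hp.out).2 hpT
  by_cases h2 : p = 2
  · subst h2
    have h1 : IsSquare ((n : ℕ) : ZMod 8) := by
      obtain ⟨r, hr⟩ := hs
      refine ⟨ZMod.castHom h.h8 (ZMod 8) r, ?_⟩
      rw [← map_mul, ← hr, map_natCast]
    have hodd : n % 2 = 1 := Nat.odd_iff.1 (odd_of_cop h.h4 hn)
    have h3 : n % 8 = 1 := by
      have h4 : ((n % 8 : ℕ) : ZMod 8) = (n : ZMod 8) := by
        rw [ZMod.natCast_mod]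
      rw [← h4] at h1
      have h5 : n % 8 < 8 := Nat.mod_lt _ (by norm_num)
      have h6 : n % 8 % 2 = 1 := by omega
      revert h1 h5 h6
      generalize n % 8 = k
      intro h1 h5 h6
      interval_cases k
      all_goals first | rfl | (exfalso; revert h1; decide) | (exfalso; revert h6; decide)
    have h7 := padic_sq2 (n := (n : ℤ)) (by omega)
    exact_mod_cast h7
  · have h1 : IsSquare (((n : ℤ) : ZMod p)) := by
      obtain ⟨r, hr⟩ := hs
      refine ⟨ZMod.castHom hpm (ZMod p) r, ?_⟩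
      rw [← map_mul, ← hr, map_natCast, Int.cast_natCast]
    have h7 := padic_sq h2 (n := (n : ℤ)) (fun hd => by
      have h8 : p ∣ n := Int.natCast_dvd_natCast.1 hd
      have h9 := Nat.dvd_gcd h8 hpm
      rw [hn] at h9
      exact hp.out.one_lt.ne' (Nat.dvd_one.1 h9)) h1
    exact_mod_cast h7

theorem mod8_of {n : ℕ} (ho : Odd n) (h1 : jacobiSym (-1) n = 1) (h2 : jacobiSym 2 n = 1) :
    n % 8 = 1 := by
  rw [jacobiSym.at_neg_one ho] at h1
  rw [jacobiSym.at_two ho] at h2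
  have hodd : n % 2 = 1 := Nat.odd_iff.1 ho
  have e4 : ((n : ℕ) : ZMod 4) = ((n % 8 : ℕ) : ZMod 4) := by
    have := ZMod.natCast_mod n 4
    have h3 : n % 8 % 4 = n % 4 := by omega
    rw [← ZMod.natCast_mod (n % 8) 4, h3, ZMod.natCast_mod]
  have e8 : ((n : ℕ) : ZMod 8) = ((n % 8 : ℕ) : ZMod 8) := by rw [ZMod.natCast_mod]
  rw [e4] at h1
  rw [e8] at h2
  have h5 : n % 8 < 8 := Nat.mod_lt _ (by norm_num)
  have h6 : n % 8 % 2 = 1 := by omega
  clear e4 e8 ho hodd
  revert h1 h2 h5 h6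
  generalize n % 8 = k
  intro h1 h2 h5 h6
  interval_cases k
  all_goals first | rfl | (exfalso; revert h1; decide) | (exfalso; revert h2; decide) |
    (exfalso; revert h6; decide)

/-- the characters separate the classes -/
theorem chi_sep (h : Md T m) {e : Fm m} (he : ∀ g, chi h g e = 0) : e = 0 := by
  obtain ⟨n, hn, -, rfl⟩ := hF_surj h.pos e
  have ho := odd_of_cop h.h4 hn
  have key : ∀ z : ℤ, Squarefree z → (∀ p : ℕ, p.Prime → (p : ℤ) ∣ z → p ∈ T) →
      jacobiSym z n = 1 := by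
    intro z hz hzT
    obtain ⟨g, rfl⟩ := UU_surj h.pr hz hzT
    have h1 := he g
    rw [chi_hF h g hn] at h1
    unfold jv at h1
    by_contra hc
    rw [if_neg hc] at h1
    exact one_ne_zero h1
  have h1 := key (-1) (by rw [← Int.squarefree_natAbs]; simp) (by
    intro p hp hd
    exfalso
    have := Int.natCast_dvd.1 hd
    simp at this
    exact hp.one_lt.ne' this)
  have h2 := key 2 (by rw [← Int.squarefree_natAbs]; exact Nat.prime_two.squarefree) (by
    intro p hp hd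
    have h3 : p ∣ 2 := by exact_mod_cast hd
    rw [(Nat.prime_dvd_prime_iff_eq hp Nat.prime_two).1 h3]
    exact h.two)
  have h8 := mod8_of ho h1 h2
  rw [← hF_one (m := m), hF_eq (Nat.coprime_one_left m) hn, one_mul]
  refine sq_zmod n m h.pos fun p hp hpm => ?_
  by_cases hp2 : p = 2
  · subst hp2
    have h7 := padic_sq2 (n := (n : ℤ)) (by omega)
    exact_mod_cast h7
  · have hpT := (h.dv p hp.out).1 hpm
    have h3 := key p (by
      rw [← Int.squarefree_natAbs, Int.natAbs_natCast]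
      exact hp.out.squarefree) (by
      intro q hq hd
      have h4 : q ∣ p := by exact_mod_cast hd
      rw [(Nat.prime_dvd_prime_iff_eq hq hp.out).1 h4]
      exact hpT)
    have hpo : Odd p := hp.out.odd_of_ne_two hp2
    rw [← jacobiSym.quadratic_reciprocity_one_mod_four (by omega) hpo,
      ← jacobiSym.legendreSym.to_jacobiSym] at h3
    have hnd : ¬ (p : ℤ) ∣ (n : ℤ) := fun hd => by
      have h8 : p ∣ n := Int.natCast_dvd_natCast.1 hd
      have h9 := Nat.dvd_gcd h8 hpm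
      rw [hn] at h9
      exact hp.out.one_lt.ne' (Nat.dvd_one.1 h9)
    have hnz : ((n : ℤ) : ZMod p) ≠ 0 := by
      rwa [Ne, ZMod.intCast_zmod_eq_zero_iff_dvd]
    rw [legendreSym.eq_one_iff p hnz] at h3
    have h7 := padic_sq hp2 hnd h3
    exact_mod_cast h7

end Pool.Agent.H68.X
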