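import Pool.Agent.H68.X.Wl
import Pool.Agent.H68.X.Sq
import Pool.Agent.H68.X.Gw
import Pool.Agent.H68.L.R_seed8.W351.HB.PF
import Pool.Agent.H68.L.R_seed8.W215.HB.Bilo
import Pool.Agent.H68.L.R_seed8.W864.HB.Bilt

/-!
# The local conditions at the bad places
-/

set_option autoImplicit false

open scoped Classical

namespace Pool.Agent.H68.X

open Finset Module Pool.Agent.H68.A
open Q44.TK (Fm hF hF_pos hF_mul hF_sum hF_eq hF_one Fm_two)
open Q44.BN (jv jc jc_hF jc_prime jv_prime jac_pm hF_surj hF_mod ne_zero_of_cop odd_of_cop GG JJ UU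
  sgn mem_JJ JJ_sub JJ_prime UU_add UU_zero UU_sqf UU_ne UU_dvd UU_dvd' UU_inj UU_sq_zero
  UU_surj sgn_abs jv_neg_one)
open Q44.TI (pd padic_sq padic_sq2 ch ch_zero nr_ch)
open Pool.Agent.Y703.CQ (nr)
open Q44.BM (vm nr_rec)

/-- the local conditions at the bad places -/
def Wl (T : Finset ℕ) (A B D z : ℤ) : Prop :=
  (∀ (p : ℕ) [Fact p.Prime], p ∈ T → W ℚ_[p] ((A * D : ℤ) : ℚ_[p]) ((B * D ^ 2 : ℤ) : ℚ_[p]) z) ∧
    W ℝ ((A * D : ℤ) : ℝ) ((B * D ^ 2 : ℤ) : ℝ) z

variable {T : Finset ℕ} {m : ℕ} {A B D : ℤ}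

theorem real_sq (n : ℕ) : IsSquare (n : ℝ) := ⟨√n, (Real.mul_self_sqrt (Nat.cast_nonneg n)).symm⟩

/-- the conditions depend on the class of `z` -/
theorem Wl_congr (hB : B ≠ 0) (hD : D ≠ 0) {z z' : ℤ} (hz : z ≠ 0) (hz' : z' ≠ 0)
    (h1 : ∀ (p : ℕ) [Fact p.Prime], p ∈ T → IsSquare ((z * z' : ℤ) : ℚ_[p]))
    (h2 : IsSquare ((z * z' : ℤ) : ℝ)) (h : Wl T A B D z) : Wl T A B D z' := by
  have hb : B * D ^ 2 ≠ 0 := mul_ne_zero hB (pow_ne_zero 2 hD)
  constructor
  · intro p _ hp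
    refine W_of_isSquare_mul (by exact_mod_cast hb) (by exact_mod_cast hz) (by exact_mod_cast hz')
      ?_ (h.1 p hp)
    have := h1 p hp
    push_cast at this
    exact this
  · refine W_of_isSquare_mul (by exact_mod_cast hb) (by exact_mod_cast hz) (by exact_mod_cast hz')
      ?_ h.2
    push_cast at h2
    exact h2

theorem Wl_mul (hB : B ≠ 0) (hD : D ≠ 0) {z z' : ℤ} (hz : z ≠ 0) (hz' : z' ≠ 0)
    (h : Wl T A B D z) (h' : Wl T A B D z') : Wl T A B D (z * z') := by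
  have hb : B * D ^ 2 ≠ 0 := mul_ne_zero hB (pow_ne_zero 2 hD)
  constructor
  · intro p _ hp
    have := W_mul (by exact_mod_cast hb) (by exact_mod_cast hz) (by exact_mod_cast hz')
      (h.1 p hp) (h'.1 p hp)
    push_cast
    push_cast at this
    exact this
  · have := W_mul (by exact_mod_cast hb) (by exact_mod_cast hz) (by exact_mod_cast hz')
      h.2 h'.2
    push_cast
    push_cast at this
    exact this

theorem Wl_one (hB : B ≠ 0) (hD : D ≠ 0) : Wl T A B D 1 := by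
  have hb : B * D ^ 2 ≠ 0 := mul_ne_zero hB (pow_ne_zero 2 hD)
  constructor
  · intro p _ _
    rw [Int.cast_one]
    exact W_one (by exact_mod_cast hb)
  · rw [Int.cast_one]
    exact W_one (by exact_mod_cast hb)

/-- a product of equal classes is a square at the bad places -/
theorem sq_pair (h : Md T m) {n n' : ℕ} (hn : n.Coprime m) (hn' : n'.Coprime m)
    (he : hF m n = hF m n') {p : ℕ} [Fact p.Prime] (hp : p ∈ T) :
    IsSquare ((n : ℚ_[p]) * n') := by
  have := sq_bad h (Nat.Coprime.mul_left hn hn') (md_of_hF h.pos hn hn' he) hp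
  rwa [Nat.cast_mul] at this

theorem pos_of_cop (h : Md T m) {n : ℕ} (hn : n.Coprime m) : 0 < n :=
  Nat.pos_of_ne_zero (ne_zero_of_cop h.h4 hn)

theorem Wl_n (h : Md T m) (hB : B ≠ 0) (hD : D ≠ 0) {n n' : ℕ} (hn : n.Coprime m)
    (hn' : n'.Coprime m) (he : hF m n = hF m n') {u : ℤ} (hu : u ≠ 0)
    (hw : Wl T A B D (u * n)) : Wl T A B D (u * n') := by
  have h1 := pos_of_cop h hn
  have h2 := pos_of_cop h hn'
  refine Wl_congr hB hD (mul_ne_zero hu (by exact_mod_cast h1.ne'))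
    (mul_ne_zero hu (by exact_mod_cast h2.ne')) (fun p _ hp => ?_) ?_ hw
  · obtain ⟨r, hr⟩ := sq_pair h hn hn' he hp
    refine ⟨u * r, ?_⟩
    push_cast
    linear_combination (u : ℚ_[p]) ^ 2 * hr
  · obtain ⟨r, hr⟩ := real_sq (n * n')
    refine ⟨u * r, ?_⟩
    push_cast at hr ⊢
    linear_combination (u : ℝ) ^ 2 * hr

/-- the conditions depend on the class of `D` -/
theorem Wl_D (h : Md T m) (hB : B ≠ 0) {n n' : ℕ} (hn : n.Coprime m)
    (hn' : n'.Coprime m) (he : hF m n = hF m n') {z : ℤ} (hz : z ≠ 0)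
    (hw : Wl T A B n z) : Wl T A B n' z := by
  have h1 := pos_of_cop h hn
  have h2 := pos_of_cop h hn'
  constructor
  · intro p _ hp
    have h3 := hw.1 p hp
    push_cast at h3 ⊢
    exact W_tw2 (by exact_mod_cast hB) (by exact_mod_cast hz) (by exact_mod_cast h1.ne')
      (by exact_mod_cast h2.ne') (sq_pair h hn hn' he hp) h3
  · have h3 := hw.2
    push_cast at h3 ⊢
    refine W_tw2 (by exact_mod_cast hB) (by exact_mod_cast hz) (by exact_mod_cast h1.ne')
      (by exact_mod_cast h2.ne') ?_ h3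
    have := real_sq (n * n')
    rwa [Nat.cast_mul] at this

/-- the space of the local conditions -/
noncomputable def WW (h : Md T m) (A : ℤ) {B D : ℤ} (hB : B ≠ 0) (hD : D ≠ 0) :
    Submodule (ZMod 2) (GG T × Fm m) where
  carrier := {w | ∀ n : ℕ, n.Coprime m → hF m n = w.2 → Wl T A B D (UU w.1 * n)}
  zero_mem' := by
    intro n hn he
    have := Wl_n h hB hD (A := A) (Nat.coprime_one_left m) hn
      (by rw [hF_one]; exact he.symm) (UU_ne h.pr 0) (by
        rw [UU_zero, Nat.cast_one, mul_one]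
        exact Wl_one hB hD)
    exact this
  add_mem' := by
    intro w w' hw hw' n hn he
    obtain ⟨n1, hn1, -, he1⟩ := hF_surj h.pos w.2
    obtain ⟨n2, hn2, -, he2⟩ := hF_surj h.pos w'.2
    have h1 := hw n1 hn1 he1
    have h2 := hw' n2 hn2 he2
    have p1 := pos_of_cop h hn1
    have p2 := pos_of_cop h hn2
    have z1 : UU w.1 * (n1 : ℤ) ≠ 0 := mul_ne_zero (UU_ne h.pr _) (by exact_mod_cast p1.ne')
    have z2 : UU w'.1 * (n2 : ℤ) ≠ 0 := mul_ne_zero (UU_ne h.pr _) (by exact_mod_cast p2.ne')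
    have h3 := Wl_mul hB hD z1 z2 h1 h2
    obtain ⟨s, hs0, -, hs⟩ := UU_add h.pr w.1 w'.1
    have z3 : UU (w.1 + w'.1) * ((n1 * n2 : ℕ) : ℤ) ≠ 0 := mul_ne_zero (UU_ne h.pr _)
      (by exact_mod_cast (Nat.mul_pos p1 p2).ne')
    have e : (UU w.1 * (n1 : ℤ) * (UU w'.1 * (n2 : ℤ))) * (UU (w.1 + w'.1) * ((n1 * n2 : ℕ) : ℤ)) =
        (UU (w.1 + w'.1) * s * n1 * n2) * (UU (w.1 + w'.1) * s * n1 * n2) := by
      push_cast
      linear_combination (UU (w.1 + w'.1) * n1 ^ 2 * n2 ^ 2) * hs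
    have h4 := Wl_congr hB hD (mul_ne_zero z1 z2) z3 (fun p _ _ => by
      rw [e]
      push_cast
      exact ⟨_, rfl⟩) (by
      rw [e]
      push_cast
      exact ⟨_, rfl⟩) h3
    exact Wl_n h hB hD (Nat.Coprime.mul_left hn1 hn2) hn (by
      rw [hF_mul hn1 hn2, he1, he2, he]
      rfl) (UU_ne h.pr _) h4
  smul_mem' := by
    intro c w hw
    rcases (by revert c; decide : ∀ c : ZMod 2, c = 0 ∨ c = 1) c with rfl | rfl
    · rw [zero_smul]
      intro n hn he
      have := Wl_n h hB hD (A := A) (Nat.coprime_one_left m) hn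
        (by rw [hF_one]; exact he.symm) (UU_ne h.pr 0) (by
          rw [UU_zero, Nat.cast_one, mul_one]
          exact Wl_one hB hD)
      exact this
    · rw [one_smul]
      exact hw

theorem mem_WW (h : Md T m) {hB : B ≠ 0} {hD : D ≠ 0} {g : GG T} {n : ℕ} (hn : n.Coprime m) :
    (g, hF m n) ∈ WW h A hB hD ↔ Wl T A B D (UU g * n) :=
  ⟨fun hw => hw n hn rfl, fun hw _ hn' he => Wl_n h hB hD hn hn' he.symm (UU_ne h.pr g) hw⟩

end Pool.Agent.H68.X
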