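import Pool.Agent.H68.X.Lc

/-!
# The spaces of the local conditions of the two curves are orthogonal
-/

set_option autoImplicit false

open scoped Classical

namespace Pool.Agent.H68.X

open Finset Module Pool.Agent.H68.A
open Q44.TK (Fm hF hF_pos hF_mul hF_sum hF_eq hF_one Fm_two)
open Q44.BN (jv jc jc_hF jc_prime jv_prime jac_pm hF_surj hF_mod ne_zero_of_cop odd_of_cop GG JJ UU
  sgn mem_JJ JJ_sub JJ_prime UU_add UU_zero UU_sqf UU_ne UU_dvd UU_dvd' UU_inj UU_sq_zero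
  UU_surj sgn_abs jv_neg_one)
open Q44.TI (pd padic_sq padic_sq2 ch ch_zero nr_ch ch_mul cop_mod)
open Pool.Agent.Y703.CQ (nr)
open Q44.BM (vm nr_rec)
open Pool.Agent.W313.BMX (Splits)

variable {T : Finset ℕ} {m : ℕ} {A B D : ℤ}

/-- every class contains large primes -/
theorem exists_prime (h : Md T m) (e : Fm m) (N : ℕ) :
    ∃ q : ℕ, N < q ∧ q.Prime ∧ q.Coprime m ∧ hF m q = e := by
  have : NeZero m := ⟨h.pos⟩
  obtain ⟨n, hn, -, rfl⟩ := hF_surj h.pos e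
  obtain ⟨q, hq, hqp, hqn⟩ := Nat.forall_exists_prime_gt_and_eq_mod
    (a := (n : ZMod m)) ((ZMod.isUnit_iff_coprime n m).2 hn) N
  have h1 : q % m = n % m := (ZMod.natCast_eq_natCast_iff q n m).1 hqn
  have h2 : q.Coprime m := by
    rw [← cop_mod, h1, cop_mod]
    exact hn
  refine ⟨q, hq, hqp, h2, ?_⟩
  rw [← hF_mod h2, h1, hF_mod hn]

theorem prime_notMem (h : Md T m) {q : ℕ} (hq : q.Prime) (hc : q.Coprime m) : q ∉ T := fun hT =>
  hq.one_lt.ne' (Nat.Coprime.eq_one_of_dvd hc ((h.dv q hq).2 hT))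

theorem prime_ne_two (h : Md T m) {q : ℕ} (hq : q.Prime) (hc : q.Coprime m) : q ≠ 2 := fun h2 =>
  prime_notMem h hq hc (h2 ▸ h.two)

theorem UU_nd (h : Md T m) (g : GG T) {q : ℕ} (hq : q.Prime) (hc : q ∉ T) : ¬ (q : ℤ) ∣ UU g :=
  fun hd => hc (UU_dvd' h.pr g hq hd)

/-- half of the reciprocity law -/
theorem half (h : Md T m) (g g' : GG T) {q q' : ℕ} (hq : q.Prime) (hq' : q'.Prime)
    (hc : q.Coprime m) (hc' : q'.Coprime m) (hne : q ≠ q')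
    (hT : ∀ (p : ℕ) [Fact p.Prime], p ∈ T → Cn ((UU g * q : ℤ) : ℚ_[p]) ((UU g' * q' : ℤ) : ℚ_[p]))
    (hR : Cn ((UU g * q : ℤ) : ℝ) ((UU g' * q' : ℤ) : ℝ))
    (hs : ch ((UU g * q : ℤ) : ZMod q') = 0) : ch ((UU g' * q' : ℤ) : ZMod q) = 0 := by
  have f : Fact q.Prime := ⟨hq⟩
  have f' : Fact q'.Prime := ⟨hq'⟩
  have hqT := prime_notMem h hq hc
  have hqT' := prime_notMem h hq' hc'
  have h2 := prime_ne_two h hq hc
  have h2' := prime_ne_two h hq' hc'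
  have hqq' : ¬ (q : ℤ) ∣ (q' : ℤ) := fun hd => hne ((Nat.prime_dvd_prime_iff_eq hq hq').1
    (Int.natCast_dvd_natCast.1 hd))
  have hqq : ¬ (q' : ℤ) ∣ (q : ℤ) := fun hd => hne ((Nat.prime_dvd_prime_iff_eq hq' hq).1
    (Int.natCast_dvd_natCast.1 hd)).symm
  have nd : ∀ {p : ℕ}, p.Prime → ∀ {x y : ℤ}, ¬ (p : ℤ) ∣ x → ¬ (p : ℤ) ∣ y → ¬ (p : ℤ) ∣ x * y := by
    intro p hp x y hx hy hd
    rcases (Nat.prime_iff_prime_int.1 hp).dvd_or_dvd hd with h1 | h1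
    · exact hx h1
    · exact hy h1
  have z0 : UU g * (q : ℤ) ≠ 0 := mul_ne_zero (UU_ne h.pr _) (by exact_mod_cast hq.ne_zero)
  have z0' : UU g' * (q' : ℤ) ≠ 0 := mul_ne_zero (UU_ne h.pr _) (by exact_mod_cast hq'.ne_zero)
  have key : Splits ((UU g * q : ℤ) : ℚ_[q]) ((UU g' * q' : ℤ) : ℚ_[q]) := by
    refine Pool.Agent.W351.HB.PF.pf_ Pool.Agent.W215.HB.bilo_ Pool.Agent.W864.HBm.bilt_
      (UU g * q) (UU g' * q') z0 z0' q hR fun p hp hpq => ?_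
    by_cases hpT : p ∈ T
    · exact hT p hpT
    by_cases hpq' : p = q'
    · subst hpq'
      have h1 : ¬ (p : ℤ) ∣ UU g * q := nd hq' (UU_nd h g hq' hpT) hqq
      have h3 := padic_sq h2' h1 (ch_zero.1 hs)
      obtain ⟨r, hr⟩ := h3
      exact ⟨1, 0, r, Or.inl one_ne_zero, by rw [hr]; ring⟩
    · have hp2 : p ≠ 2 := fun h2 => hpT (h2 ▸ h.two)
      refine Pool.Agent.W335.BMX.odd2 p hp2 (UU g * q) (UU g' * q') ?_ ?_
      · refine nd hp.out (UU_nd h g hp.out hpT) fun hd => hpq ?_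
        exact (Nat.prime_dvd_prime_iff_eq hp.out hq).1 (Int.natCast_dvd_natCast.1 hd)
      · refine nd hp.out (UU_nd h g' hp.out hpT) fun hd => hpq' ?_
        exact (Nat.prime_dvd_prime_iff_eq hp.out hq').1 (Int.natCast_dvd_natCast.1 hd)
  have h1 : ¬ (q : ℤ) ∣ UU g' * q' := nd hq (UU_nd h g' hq hqT) hqq'
  have h3 := (Pool.Agent.W335.BMX.odd3 q h2 (UU g) (UU g' * q') (UU_nd h g hq hqT) h1).1 (by
    rw [mul_comm (q : ℤ)]
    exact key)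
  rw [legendreSym.eq_one_iff q (by rwa [Ne, ZMod.intCast_zmod_eq_zero_iff_dvd])] at h3
  exact ch_zero.2 h3

theorem zmod2_eq' {x y : ZMod 2} (h1 : x = 0 → y = 0) (h2 : y = 0 → x = 0) : x = y := by
  revert x y
  decide

/-- the reciprocity law -/
theorem bet_eq (h : Md T m) (g g' : GG T) {q q' : ℕ} (hq : q.Prime) (hq' : q'.Prime)
    (hc : q.Coprime m) (hc' : q'.Coprime m) (hne : q ≠ q')
    (hT : ∀ (p : ℕ) [Fact p.Prime], p ∈ T → Cn ((UU g * q : ℤ) : ℚ_[p]) ((UU g' * q' : ℤ) : ℚ_[p]))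
    (hR : Cn ((UU g * q : ℤ) : ℝ) ((UU g' * q' : ℤ) : ℝ)) :
    bet (chi h) (jc m (-1)) (g, hF m q) (g', hF m q') = 0 := by
  have f : Fact q.Prime := ⟨hq⟩
  have f' : Fact q'.Prime := ⟨hq'⟩
  have hqT := prime_notMem h hq hc
  have hqT' := prime_notMem h hq' hc'
  have h2 := prime_ne_two h hq hc
  have h2' := prime_ne_two h hq' hc'
  have e1 : ch ((UU g * q : ℤ) : ZMod q') = ch ((UU g' * q' : ℤ) : ZMod q) :=
    zmod2_eq' (half h g g' hq hq' hc hc' hne hT hR)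
      (half h g' g hq' hq hc' hc hne.symm (fun p _ hp => Cn_symm (hT p hp)) (Cn_symm hR))
  have nz : ∀ {p : ℕ} (g : GG T), p.Prime → p ∉ T → ((UU g : ℤ) : ZMod p) ≠ 0 := by
    intro p g hp hpT
    rw [Ne, ZMod.intCast_zmod_eq_zero_iff_dvd]
    exact UU_nd h g hp hpT
  have nq : ((q : ℕ) : ZMod q') ≠ 0 := by
    rw [Ne, ZMod.natCast_eq_zero_iff]
    exact fun hd => hne ((Nat.prime_dvd_prime_iff_eq hq' hq).1 hd).symm
  have nq' : ((q' : ℕ) : ZMod q) ≠ 0 := by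
    rw [Ne, ZMod.natCast_eq_zero_iff]
    exact fun hd => hne ((Nat.prime_dvd_prime_iff_eq hq hq').1 hd)
  rw [Int.cast_mul, Int.cast_mul, Int.cast_natCast, Int.cast_natCast, ch_mul (nz g hq' hqT') nq,
    ch_mul (nz g' hq hqT) nq'] at e1
  have e2 : nr q q' = nr q' q + vm q * vm q' := nr_rec hq h2 hq' h2' hne
  rw [bet_apply]
  show chi h g (hF m q') + chi h g' (hF m q) + jc m (-1) (hF m q) * jc m (-1) (hF m q') = 0
  have h41 : 4 * (-1 : ℤ).natAbs ∣ m := by simpa using h.h4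
  rw [chi_prime h g hq' hqT', chi_prime h g' hq hqT, jc_hF h.pos h41 hc, jc_hF h.pos h41 hc',
    jv_neg_one hq h2, jv_neg_one hq' h2']
  have e3 : nr q q' = ch (q' : ZMod q) := nr_ch q q'
  have e4 : nr q' q = ch (q : ZMod q') := nr_ch q' q
  rw [e3, e4] at e2
  have t2 : (2 : ZMod 2) = 0 := by decide
  linear_combination e1 - e2 + (ch ((UU g' : ℤ) : ZMod q) + ch (q' : ZMod q) - ch (q : ZMod q')) * t2

/-- **orthogonality** -/
theorem orth (h : Md T m) (hB : B ≠ 0) (hC : A ^ 2 - 4 * B ≠ 0) (hD : D ≠ 0)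
    {w w' : GG T × Fm m} (hw : w ∈ WW h A hB hD) (hw' : w' ∈ WW h (-2 * A) hC hD) :
    bet (chi h) (jc m (-1)) w w' = 0 := by
  obtain ⟨g, e⟩ := w
  obtain ⟨g', e'⟩ := w'
  obtain ⟨q, -, hq, hc, rfl⟩ := exists_prime h e 0
  obtain ⟨q', hlt, hq', hc', rfl⟩ := exists_prime h e' q
  have h1 := (mem_WW h hc).1 hw
  have h2 := (mem_WW h hc').1 hw'
  have z0 : UU g * (q : ℤ) ≠ 0 := mul_ne_zero (UU_ne h.pr _) (by exact_mod_cast hq.ne_zero)
  have z0' : UU g' * (q' : ℤ) ≠ 0 := mul_ne_zero (UU_ne h.pr _) (by exact_mod_cast hq'.ne_zero)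
  have hb : B * D ^ 2 ≠ 0 := mul_ne_zero hB (pow_ne_zero 2 hD)
  have eC : (A * D) ^ 2 - 4 * (B * D ^ 2) = (A ^ 2 - 4 * B) * D ^ 2 := by ring
  have hc0 : (A * D) ^ 2 - 4 * (B * D ^ 2) ≠ 0 := by
    rw [eC]
    exact mul_ne_zero hC (pow_ne_zero 2 hD)
  refine bet_eq h g g' hq hq' hc hc' (by omega) (fun p _ hp => ?_) ?_
  · refine W_orth (a := ((A * D : ℤ) : ℚ_[p])) (b := ((B * D ^ 2 : ℤ) : ℚ_[p])) two_ne_zero
      (by exact_mod_cast hb) (by exact_mod_cast hc0) (by exact_mod_cast z0) (by exact_mod_cast z0')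
      (h1.1 p hp) ?_
    have h3 := h2.1 p hp
    have e1 : ((-2 * A * D : ℤ) : ℚ_[p]) = -2 * ((A * D : ℤ) : ℚ_[p]) := by push_cast; ring
    have e2 : (((A ^ 2 - 4 * B) * D ^ 2 : ℤ) : ℚ_[p]) =
        ((A * D : ℤ) : ℚ_[p]) ^ 2 - 4 * ((B * D ^ 2 : ℤ) : ℚ_[p]) := by push_cast; ring
    rw [e1, e2] at h3
    exact h3
  · refine W_orth (a := ((A * D : ℤ) : ℝ)) (b := ((B * D ^ 2 : ℤ) : ℝ)) two_ne_zero
      (by exact_mod_cast hb) (by exact_mod_cast hc0) (by exact_mod_cast z0) (by exact_mod_cast z0')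
      h1.2 ?_
    have h3 := h2.2
    have e1 : ((-2 * A * D : ℤ) : ℝ) = -2 * ((A * D : ℤ) : ℝ) := by push_cast; ring
    have e2 : (((A ^ 2 - 4 * B) * D ^ 2 : ℤ) : ℝ) =
        ((A * D : ℤ) : ℝ) ^ 2 - 4 * ((B * D ^ 2 : ℤ) : ℝ) := by push_cast; ring
    rw [e1, e2] at h3
    exact h3

end Pool.Agent.H68.X
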