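import Pool.Agent.H68.X.La
import Pool.Agent.H68.X.Fi

/-!
# The number of the local classes
-/

set_option autoImplicit false

open scoped Classical

namespace Pool.Agent.H68.X

open WeierstrassCurve Pool.Agent.Y676.IS Pool.Agent.H68.A

/-- representatives of the square classes -/
theorem sqs_index {K : Type} [Field K] {ι : Type} [Fintype ι] (r : ι → K) (hr : ∀ i, r i ≠ 0)
    (h : ∀ z : K, z ≠ 0 → ∃ i, IsSquare (z * r i)) :
    (sqs K).index ≠ 0 ∧ (sqs K).index ≤ Fintype.card ι := by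
  let F : ι → Kˣ ⧸ sqs K := fun i => QuotientGroup.mk (Units.mk0 (r i) (hr i))
  have hF : Function.Surjective F := by
    intro q
    obtain ⟨z, rfl⟩ := QuotientGroup.mk_surjective q
    obtain ⟨i, w, hw⟩ := h z z.ne_zero
    refine ⟨i, QuotientGroup.eq.2 ?_⟩
    rw [mem_sqs]
    have hri := hr i
    refine ⟨w / r i, ?_⟩
    rw [Units.val_mul, Units.val_inv_eq_inv_val, Units.val_mk0]
    field_simp
    linear_combination hw
  have hfin : Finite (Kˣ ⧸ sqs K) := Finite.of_surjective F hF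
  refine ⟨Subgroup.index_ne_zero_of_finite, ?_⟩
  have := Nat.card_le_card_of_surjective F hF
  rw [Nat.card_eq_fintype_card (α := ι)] at this
  exact this

section
variable {p : ℕ} [hp : Fact p.Prime]

theorem two_norm : ‖(2 : ℚ_[p])‖ = if p = 2 then 1 / 2 else 1 := by
  split_ifs with h
  · subst h
    have := Padic.norm_p (p := 2)
    rw [Nat.cast_ofNat] at this
    rw [this]
    norm_num
  · have h1 : ¬ (p : ℤ) ∣ 2 := fun hd => h ((Nat.prime_dvd_prime_iff_eq hp.out Nat.prime_two).1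
      (by exact_mod_cast hd))
    have h2 := Padic.norm_int_le_one (p := p) 2
    have h3 : ¬ ‖((2 : ℤ) : ℚ_[p])‖ < 1 := fun h4 => h1 ((Padic.norm_intCast_lt_one_iff).1 h4)
    have h4 : ‖((2 : ℤ) : ℚ_[p])‖ = 1 := le_antisymm h2 (not_lt.1 h3)
    simpa using h4

/-- the elements near one are squares -/
theorem sq_near {x : ℚ_[p]} (h : ‖x - 1‖ < ‖(2 : ℚ_[p])‖ ^ 2) : IsSquare x := by
  have h2 : ‖(2 : ℚ_[p])‖ ≤ 1 := by
    rw [two_norm]
    split_ifs <;> norm_num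
  have h1 : ‖x - 1‖ < 1 := lt_of_lt_of_le h (pow_le_one₀ (norm_nonneg _) h2)
  have hx : ‖x‖ ≤ 1 := by
    have : x = (x - 1) + 1 := by ring
    rw [this]
    refine (Padic.nonarchimedean _ _).trans (max_le h1.le ?_)
    rw [norm_one]
  obtain ⟨t, ht⟩ : ∃ t : ℤ_[p], (t : ℚ_[p]) = x := ⟨⟨x, hx⟩, rfl⟩
  have h3 : ‖(1 : ℤ_[p]) - t‖ < ‖(2 : ℤ_[p])‖ ^ 2 := by
    rw [PadicInt.norm_def, PadicInt.norm_def]
    push_cast
    rw [ht, norm_sub_rev]
    exact h
  obtain ⟨z, hz, -⟩ := hensels_lemma (p := p) (R := ℤ_[p])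
    (F := Polynomial.X ^ 2 - Polynomial.C t) (a := 1) (by
      simp only [map_sub, map_pow, Polynomial.aeval_X, Polynomial.aeval_C, one_pow,
        Algebra.algebraMap_self, RingHom.id_apply, Polynomial.derivative_X_pow,
        Polynomial.derivative_C, sub_zero, map_mul, mul_one]
      norm_num
      exact h3)
  simp only [map_sub, map_pow, Polynomial.aeval_X, Polynomial.aeval_C, Algebra.algebraMap_self,
    RingHom.id_apply] at hz
  refine ⟨z, ?_⟩
  rw [← ht, ← sub_eq_zero.1 hz]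
  push_cast
  ring

/-- integers represent all the square classes -/
theorem appr {x : ℚ_[p]} (hx : x ≠ 0) :
    ∃ (k : ℤ) (n : ℕ), ¬ p ∣ n ∧ IsSquare (x * (p : ℚ_[p]) ^ k * n) := by
  have hp0 : (p : ℚ_[p]) ≠ 0 := by exact_mod_cast hp.out.ne_zero
  have hppos : (0 : ℝ) < p := by exact_mod_cast hp.out.pos
  obtain ⟨u, hu⟩ : ∃ u, u = x * (p : ℚ_[p]) ^ (-x.valuation) := ⟨_, rfl⟩
  have hun : ‖u‖ = 1 := by
    rw [hu, norm_mul, norm_zpow, Padic.norm_eq_zpow_neg_valuation hx, Padic.norm_p,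
      inv_zpow', neg_neg, ← zpow_add₀ hppos.ne']
    norm_num
  obtain ⟨t, ht⟩ : ∃ t : ℤ_[p], (t : ℚ_[p]) = u := ⟨⟨u, hun.le⟩, rfl⟩
  have h1 := (PadicInt.norm_le_pow_iff_mem_span_pow _ 3).2 (PadicInt.appr_spec 3 t)
  obtain ⟨n, hn⟩ : ∃ n, n = t.appr 3 := ⟨_, rfl⟩
  rw [← hn] at h1
  have h2 : ‖u - n‖ ≤ (p : ℝ) ^ (-(3 : ℕ) : ℤ) := by
    rw [← ht]
    exact h1
  have hp2 : (2 : ℝ) ≤ p := by exact_mod_cast hp.out.two_le
  have h3 : (p : ℝ) ^ (-(3 : ℕ) : ℤ) < ‖(2 : ℚ_[p])‖ ^ 2 := by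
    rw [zpow_neg, zpow_natCast]
    have h4 : ((p : ℝ) ^ 3)⁻¹ ≤ ((2 : ℝ) ^ 3)⁻¹ := by
      gcongr
    refine lt_of_le_of_lt h4 ?_
    rw [two_norm]
    split_ifs <;> norm_num
  have h4 : ‖(2 : ℚ_[p])‖ ≤ 1 := by
    rw [two_norm]
    split_ifs <;> norm_num
  have h5 : ‖u - n‖ < 1 := lt_of_le_of_lt h2 (h3.trans_le (pow_le_one₀ (norm_nonneg _) h4))
  have hnn : ‖(n : ℚ_[p])‖ = 1 := by
    have e : (n : ℚ_[p]) = u + -(u - n) := by ring
    rw [e, Padic.add_eq_max_of_ne (by rw [hun, norm_neg]; exact h5.ne'), norm_neg, hun,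
      max_eq_left h5.le]
  have hnp : ¬ p ∣ n := by
    intro hd
    have h6 : ‖((n : ℤ) : ℚ_[p])‖ < 1 := Padic.norm_intCast_lt_one_iff.2 (by exact_mod_cast hd)
    rw [Int.cast_natCast, hnn] at h6
    exact lt_irrefl _ h6
  have hn0 : (n : ℚ_[p]) ≠ 0 := by
    intro h0
    rw [h0, norm_zero] at hnn
    norm_num at hnn
  refine ⟨-x.valuation, n, hnp, ?_⟩
  rw [← hu]
  have h7 : IsSquare (u / n) := by
    apply sq_near
    have e : u / n - 1 = (u - n) / n := by field_simp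
    rw [e, norm_div, hnn, div_one]
    exact lt_of_le_of_lt h2 h3
  obtain ⟨w, hw⟩ := h7
  refine ⟨w * n, ?_⟩
  field_simp at hw
  linear_combination (n : ℚ_[p]) * hw

end

end Pool.Agent.H68.X
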