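import Pool.Agent.H68.X.Qs
import Pool.Agent.H68.X.Lc

/-!
# The number of the square classes, and the local counts at the places
-/

set_option autoImplicit false

open scoped Classical

namespace Pool.Agent.H68.X

open WeierstrassCurve Pool.Agent.Y676.IS Pool.Agent.H68.A
open Q44.TI (padic_sq padic_sq2)

theorem sq_mul_of {K : Type} [Field K] {x k n r : K} (h : IsSquare (x * k * n))
    (h' : IsSquare (k * n * r)) (hk : k ≠ 0) (hn : n ≠ 0) : IsSquare (x * r) := by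
  obtain ⟨u, hu⟩ := h
  obtain ⟨v, hv⟩ := h'
  refine ⟨u * v / (k * n), ?_⟩
  field_simp
  linear_combination (k * n * r) * hu + u ^ 2 * hv

theorem zpow_sq {K : Type} [Field K] {x : K} (hx : x ≠ 0) (k : ℤ) :
    ∃ i : Fin 2, IsSquare (x ^ k * x ^ (i : ℕ)) := by
  rcases Int.even_or_odd k with ⟨l, hl⟩ | ⟨l, hl⟩
  · refine ⟨0, x ^ l, ?_⟩
    rw [hl, zpow_add₀ hx, Fin.val_zero, pow_zero, mul_one]
  · refine ⟨1, x ^ (l + 1), ?_⟩
    rw [hl, Fin.val_one, pow_one, ← zpow_add₀ hx]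
    nth_rewrite 2 [← zpow_one x]
    rw [← zpow_add₀ hx]
    congr 1
    ring

theorem index_two : (sqs ℚ_[2]).index ≠ 0 ∧ (sqs ℚ_[2]).index ≤ 8 := by
  have := sqs_index (K := ℚ_[2]) (ι := Fin 2 × Fin 4)
    (fun i => (2 : ℚ_[2]) ^ (i.1 : ℕ) * (2 * (i.2 : ℕ) + 1)) (fun i => by
      refine mul_ne_zero (pow_ne_zero _ two_ne_zero) ?_
      have : (2 * (i.2 : ℕ) + 1 : ℕ) ≠ 0 := by omega
      exact_mod_cast this) fun z hz => ?_
  · simpa using this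
  obtain ⟨k, n, hn, hsq⟩ := appr hz
  obtain ⟨i, hi⟩ := zpow_sq (x := (2 : ℚ_[2])) two_ne_zero k
  have hn0 : (n : ℚ_[2]) ≠ 0 := by
    have : n ≠ 0 := by
      rintro rfl
      exact hn (dvd_zero _)
    exact_mod_cast this
  have hj : ∃ j : Fin 4, n * (2 * (j : ℕ) + 1) % 8 = 1 := by
    have h8 : n % 8 = 1 ∨ n % 8 = 3 ∨ n % 8 = 5 ∨ n % 8 = 7 := by omega
    rcases h8 with h | h | h | h
    · refine ⟨0, ?_⟩
      rw [Nat.mul_mod, h]
      rfl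
    · refine ⟨1, ?_⟩
      rw [Nat.mul_mod, h]
      rfl
    · refine ⟨2, ?_⟩
      rw [Nat.mul_mod, h]
      rfl
    · refine ⟨3, ?_⟩
      rw [Nat.mul_mod, h]
      rfl
  obtain ⟨j, hj⟩ := hj
  have h1 : IsSquare (((n * (2 * (j : ℕ) + 1) : ℕ) : ℤ) : ℚ_[2]) := padic_sq2 (by omega)
  refine ⟨(i, j), sq_mul_of hsq ?_ (zpow_ne_zero _ (Nat.cast_ne_zero.2 two_ne_zero)) hn0⟩
  push_cast at h1 ⊢
  obtain ⟨u, hu⟩ := hi
  obtain ⟨v, hv⟩ := h1
  exact ⟨u * v, by linear_combination (n * (2 * (j : ℕ) + 1 : ℚ_[2])) * hu + u ^ 2 * hv⟩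

theorem index_odd {p : ℕ} [hp : Fact p.Prime] (h2 : p ≠ 2) :
    (sqs ℚ_[p]).index ≠ 0 ∧ (sqs ℚ_[p]).index ≤ 4 := by
  have hp0 : (p : ℚ_[p]) ≠ 0 := by exact_mod_cast hp.out.ne_zero
  obtain ⟨g, hg⟩ : ∃ g : ZMod p, ¬ IsSquare g :=
    FiniteField.exists_nonsquare (by rw [ZMod.ringChar_zmod_n]; exact h2)
  obtain ⟨m, rfl⟩ : ∃ m : ℕ, (m : ZMod p) = g := ⟨g.val, ZMod.natCast_zmod_val g⟩
  have hm : ¬ p ∣ m := by
    intro hd
    rw [(ZMod.natCast_eq_zero_iff m p).2 hd] at hg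
    exact hg ⟨0, by rw [mul_zero]⟩
  have hm0 : m ≠ 0 := by
    rintro rfl
    exact hm (dvd_zero _)
  have := sqs_index (K := ℚ_[p]) (ι := Fin 2 × Fin 2)
    (fun i => (p : ℚ_[p]) ^ (i.1 : ℕ) * (m : ℚ_[p]) ^ (i.2 : ℕ)) (fun i =>
      mul_ne_zero (pow_ne_zero _ hp0) (pow_ne_zero _ (by exact_mod_cast hm0))) fun z hz => ?_
  · simpa using this
  obtain ⟨k, n, hn, hsq⟩ := appr hz
  obtain ⟨i, hi⟩ := zpow_sq (x := (p : ℚ_[p])) hp0 k
  have hn0 : (n : ℚ_[p]) ≠ 0 := by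
    have : n ≠ 0 := by
      rintro rfl
      exact hn (dvd_zero _)
    exact_mod_cast this
  have hj : ∃ j : Fin 2, IsSquare ((n * m ^ (j : ℕ) : ℕ) : ℚ_[p]) := by
    have key : ∀ l : ℕ, ¬ p ∣ l → IsSquare (l : ZMod p) → IsSquare (l : ℚ_[p]) := by
      intro l hl hs
      have := padic_sq h2 (n := (l : ℤ)) (by exact_mod_cast hl) (by simpa using hs)
      simpa using this
    by_cases hs : IsSquare (n : ZMod p)
    · exact ⟨0, by rw [Fin.val_zero, pow_zero, mul_one]; exact key n hn hs⟩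
    · refine ⟨1, ?_⟩
      rw [Fin.val_one, pow_one]
      refine key _ ?_ ?_
      · exact fun hd => (hp.out.dvd_mul.1 hd).elim hn hm
      · rw [Nat.cast_mul]
        exact mul_nonsq hs hg
  obtain ⟨j, hj⟩ := hj
  refine ⟨(i, j), sq_mul_of hsq ?_ (zpow_ne_zero _ hp0) hn0⟩
  obtain ⟨u, hu⟩ := hi
  obtain ⟨v, hv⟩ := hj
  push_cast at hv
  refine ⟨u * v, ?_⟩
  simp only
  linear_combination (n * (m : ℚ_[p]) ^ (j : ℕ)) * hu + u ^ 2 * hv

theorem index_real : (sqs ℝ).index ≠ 0 ∧ (sqs ℝ).index ≤ 2 := by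
  have := sqs_index (K := ℝ) (ι := Fin 2) (fun i => if i = 0 then 1 else -1)
    (fun i => by split_ifs <;> norm_num) fun z hz => ?_
  · simpa using this
  rcases lt_or_gt_of_ne hz with h | h
  · refine ⟨1, √(-z), ?_⟩
    rw [Real.mul_self_sqrt (by linarith)]
    simp
  · refine ⟨0, √z, ?_⟩
    rw [Real.mul_self_sqrt h.le]
    simp

end Pool.Agent.H68.X
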