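import Pool.Agent.H68.X.Qt

/-!
# The local counts at the places
-/

set_option autoImplicit false

open scoped Classical

namespace Pool.Agent.H68.X

open WeierstrassCurve Pool.Agent.Y676.IS Pool.Agent.H68.A

/-- the doubles -/
def Dbl {G : Type} [AddCommGroup G] (H : AddSubgroup G) : AddSubgroup G :=
  H.map (nsmulAddMonoidHom 2)

theorem mem_Dbl {G : Type} [AddCommGroup G] {H : AddSubgroup G} (x : G) :
    x ∈ Dbl H ↔ ∃ y ∈ H, x = y + y := by
  constructor
  · rintro ⟨y, hy, rfl⟩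
    exact ⟨y, hy, two_nsmul y⟩
  · rintro ⟨y, hy, rfl⟩
    exact ⟨y, hy, two_nsmul y⟩

theorem Uw_index {K : Type} [Field K] {a b : K} (hb : b ≠ 0) (hS : (sqs K).index ≠ 0) :
    (Uw a hb).index ≠ 0 := by
  have := Subgroup.relIndex_mul_index (sqs_le (a := a) hb)
  intro h0
  rw [h0, mul_zero] at this
  exact hS this.symm

section
variable {p : ℕ} [hp : Fact p.Prime] {a b : ℚ_[p]}

theorem place_odd (h2 : p ≠ 2) (ha : ‖a‖ ≤ 1) (hb1 : ‖b‖ ≤ 1) (hb : b ≠ 0)
    (hc : a ^ 2 - 4 * b ≠ 0) : (Uw (-2 * a) hc).index * (Uw a hb).index ≤ 4 := by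
  obtain ⟨s1, s2⟩ := index_odd h2
  have hc1 : (1 : ℝ) < 2 := by norm_num
  obtain ⟨l1, l2⟩ := loc_ge hb hc s1 (FarG ha hb1 hc1) (farG_index ha hb1 hb hc hc1)
    (farG_two ha hb1 hc1) (Dbl (FarG ha hb1 hc1)) mem_Dbl
  refine (codim hb hc s1 (s2.trans (le_trans ?_ l2))).trans s2
  have := Nat.pos_of_ne_zero l1
  omega

end

theorem dbl_norm {a b : ℚ_[2]} (ha : ‖a‖ ≤ 1) (hb1 : ‖b‖ ≤ 1) {x y x3 y3 : ℚ_[2]}
    (h : (Cu a b).Nonsingular x y) (h3 : (Cu a b).Nonsingular x3 y3) (hx : 1 < ‖x‖)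
    (he : (Affine.Point.some x y h : (Cu a b).Point) + Affine.Point.some x y h =
      Affine.Point.some x3 y3 h3) : ‖x3‖ = 4 * ‖x‖ := by
  have k := congrArg norm (add_fx h h h3 he).1
  have n1 := ny ha hb1 (cu_eq.1 h.1) hx
  have h0 : 0 < ‖x‖ := lt_trans one_pos hx
  have e : y * x + y * x = 2 * (y * x) := by ring
  rw [e, norm_mul, norm_pow, norm_mul, norm_mul, norm_mul, norm_mul, norm_pow,
    nb hb1 (z := x * x) (by rw [norm_mul]; nlinarith), norm_mul, two_norm, if_pos rfl] at k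
  have k2 : ‖x3‖ * ‖x‖ ^ 5 = (4 * ‖x‖) * ‖x‖ ^ 5 := by
    calc ‖x3‖ * ‖x‖ ^ 5 = ‖x3‖ * (‖x‖ ^ 3 * ‖x‖ ^ 2) := by ring
      _ = 4 * (‖x3‖ * (1 / 2 * (‖y‖ * ‖x‖)) ^ 2) := by rw [← n1]; ring
      _ = _ := by rw [k]; ring
  exact mul_right_cancel₀ (pow_pos h0 5).ne' k2

theorem place_two {a b : ℚ_[2]} (ha : ‖a‖ ≤ 1) (hb1 : ‖b‖ ≤ 1) (hb : b ≠ 0)
    (hc : a ^ 2 - 4 * b ≠ 0) : (Uw (-2 * a) hc).index * (Uw a hb).index ≤ 8 := by
  obtain ⟨s1, s2⟩ := index_two
  have hc1 : (1 : ℝ) < 16 := by norm_num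
  obtain ⟨l1, l2⟩ := loc_ge hb hc s1 (FarG ha hb1 hc1) (farG_index ha hb1 hb hc hc1)
    (farG_two ha hb1 hc1) (Dbl (FarG ha hb1 hc1)) mem_Dbl
  refine (codim hb hc s1 (s2.trans (le_trans ?_ l2))).trans s2
  have hne : (Dbl (FarG ha hb1 hc1)).relIndex (FarG ha hb1 hc1) ≠ 1 := by
    intro h1
    rw [AddSubgroup.relIndex_eq_one] at h1
    -- a point of exact size
    have hn16 : ‖(16 : ℚ_[2])‖ = 1 / 16 := by
      have : (16 : ℚ_[2]) = 2 ^ 4 := by norm_num
      rw [this, norm_pow, two_norm, if_pos rfl]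
      norm_num
    obtain ⟨s, hs⟩ : IsSquare (1 + 16 * (a + 16 * b)) := by
      apply sq_near
      have e : 1 + 16 * (a + 16 * b) - 1 = 16 * (a + 16 * b) := by ring
      rw [e, norm_mul, hn16, two_norm, if_pos rfl]
      have h3 : ‖a + 16 * b‖ ≤ 1 := by
        refine (Padic.nonarchimedean _ _).trans (max_le ha ?_)
        rw [norm_mul, hn16]
        linarith [norm_nonneg b]
      nlinarith
    have hE : (s / 64) ^ 2 = (1 / 16) ^ 3 + a * (1 / 16) ^ 2 + b * (1 / 16) := by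
      linear_combination (-(1 : ℚ_[2]) / 4096) * hs
    have hns : (Cu a b).Nonsingular (1 / 16) (s / 64) := cu_ns hb hc hE
    have hx : ‖(1 / 16 : ℚ_[2])‖ = 16 := by
      rw [norm_div, hn16, norm_one]
      norm_num
    have hP : (Affine.Point.some (1 / 16) (s / 64) hns : (Cu a b).Point) ∈ FarG ha hb1 hc1 := by
      intro x y h e
      rw [Affine.Point.some.injEq] at e
      rw [← e.1, hx]
    obtain ⟨Q, hQ, e⟩ := (mem_Dbl _).1 (h1 hP)
    rcases Q with _ | ⟨x, y, h⟩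
    · exact Affine.Point.some_ne_zero _ (e.trans (add_zero _))
    · have hx2 := hQ x y h rfl
      have := dbl_norm ha hb1 h hns (hc1.trans_le hx2) e.symm
      rw [hx] at this
      linarith
  omega

theorem place_real {a b : ℝ} (hb : b ≠ 0) (hc : a ^ 2 - 4 * b ≠ 0) :
    (Uw (-2 * a) hc).index * (Uw a hb).index ≤ 2 := by
  obtain ⟨s1, s2⟩ := index_real
  have key : ∀ {a b : ℝ} (hb : b ≠ 0), (Uw a hb).index ≤ 2 := by
    intro a b hb
    have := Subgroup.relIndex_mul_index (sqs_le (a := a) hb)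
    rw [← this] at s2
    have h0 : 0 < (sqs ℝ).relIndex (Uw a hb) := Nat.pos_of_ne_zero (by
      intro h0
      rw [h0, zero_mul] at this
      exact s1 this.symm)
    nlinarith
  have one : ∀ {a b : ℝ} (hb : b ≠ 0), W ℝ a b (-1) → (Uw a hb).index = 1 := by
    intro a b hb h
    rw [Subgroup.index_eq_one, Subgroup.eq_top_iff']
    intro z
    rw [mem_Uw]
    rcases lt_or_gt_of_ne z.ne_zero with hz | hz
    · refine W_of_isSquare_mul hb (by norm_num) z.ne_zero ⟨√(-z), ?_⟩ h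
      rw [Real.mul_self_sqrt (by linarith)]
      ring
    · refine W_sq hb z.ne_zero ⟨√z, ?_⟩
      rw [Real.mul_self_sqrt hz.le]
  -- one of the two classes
  have h : W ℝ a b (-1) ∨ W ℝ (-2 * a) (a ^ 2 - 4 * b) (-1) := by
    have hW : ∀ {a b x : ℝ}, b ≠ 0 → x < 0 → 0 ≤ x * (x ^ 2 + a * x + b) → W ℝ a b (-1) := by
      intro a b x hb hx h
      refine W_of_isSquare_mul hb hx.ne (by norm_num) ⟨√(-x), ?_⟩
        (W_pt (y := √(x * (x ^ 2 + a * x + b))) hb hx.ne (Real.sq_sqrt h))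
      rw [Real.mul_self_sqrt (by linarith)]
      ring
    have hR : ∀ {a b : ℝ}, b ≠ 0 → 0 ≤ a ^ 2 - 4 * b → (b < 0 ∨ 0 < a) → W ℝ a b (-1) := by
      intro a b hb hd h
      obtain ⟨s, hs⟩ : ∃ s, s = √(a ^ 2 - 4 * b) := ⟨_, rfl⟩
      have hs2 : s ^ 2 = a ^ 2 - 4 * b := by rw [hs, Real.sq_sqrt hd]
      have hs0 : 0 ≤ s := by rw [hs]; exact Real.sqrt_nonneg _
      have hneg : 0 < a + s := by
        rcases h with h | h
        · by_contra hlt
          push Not at hlt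
          nlinarith
        · linarith
      refine hW (x := (-a - s) / 2) hb (by linarith) ?_
      have : ((-a - s) / 2) ^ 2 + a * ((-a - s) / 2) + b = 0 := by linear_combination (1 / 4) * hs2
      rw [this, mul_zero]
    rcases lt_or_gt_of_ne hb with hb0 | hb0
    · left
      exact hR hb (by nlinarith [sq_nonneg a]) (Or.inl hb0)
    · rcases lt_or_gt_of_ne hc with hc0 | hc0
      · right
        exact hR hc (by nlinarith) (Or.inl hc0)
      · rcases lt_or_ge 0 a with ha | ha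
        · left
          exact hR hb hc0.le (Or.inr ha)
        · right
          have ha0 : a ≠ 0 := by
            rintro rfl
            nlinarith
          have : a < 0 := lt_of_le_of_ne ha ha0
          exact hR hc (by nlinarith) (Or.inr (by linarith))
  rcases h with h | h
  · rw [one hb h, mul_one]
    exact key hc
  · rw [one hc h, one_mul]
    exact key hb

end Pool.Agent.H68.X
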