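import Pool.Agent.H68.X.Orth
import Pool.Agent.H68.L.R_pool_sql_team_seeded_3997aac3.Q44.BM.Box

/-!
# The system of an exceptional curve
-/

set_option autoImplicit false

open scoped Classical

namespace Pool.Agent.H68.X

open Finset Module Pool.Agent.H68.A
open Q44.TK (Fm hF hF_pos hF_mul hF_sum hF_eq hF_one Fm_two)
open Q44.BN (jv jc jc_hF jc_prime jv_prime jac_pm hF_surj hF_mod ne_zero_of_cop odd_of_cop GG JJ UU
  sgn mem_JJ JJ_sub JJ_prime UU_add UU_zero UU_sqf UU_ne UU_dvd UU_dvd' UU_inj UU_sq_zero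
  UU_surj sgn_abs jv_neg_one N2 Ac Pa ac_or_pa nd_B)
open Q44.TI (pd padic_sq padic_sq2 ch ch_zero nr_ch ch_mul cop_mod ch_sq fd)
open Pool.Agent.Y703.CQ (nr)
open Q44.BM (vm nr_rec RC Fam Sys HM GT SS BX Ok)

/-- the exceptional curves -/
structure Ex (T : Finset ℕ) (m : ℕ) (A B : ℤ) : Prop where
  md : Md T m
  hB : B ≠ 0
  hC : A ^ 2 - 4 * B ≠ 0
  ns : ¬ IsSquare B
  hsq : IsSquare (B * (A ^ 2 - 4 * B))
  hT : ∀ p : ℕ, p.Prime → (p ∈ T ↔ (p : ℤ) ∣ N2 A B)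

variable {T : Finset ℕ} {m : ℕ} {A B : ℤ}

theorem Ex.ex_gB (h : Ex T m A B) : ∃ g : GG T, ∃ c : ℤ, c ≠ 0 ∧ B = UU g * c ^ 2 := by
  obtain ⟨n, c, hn, hc, he⟩ := Pool.Agent.W351.HB.PF.exists_sqf B h.hB
  obtain ⟨g, hg⟩ := UU_surj h.md.pr hn fun p hp hd => (h.hT p hp).2 (by
    unfold N2
    refine ((hd.trans ?_).mul_right _).mul_left 2
    rw [he]
    exact Dvd.intro _ rfl)
  exact ⟨g, c, hc, by rw [hg]; exact he⟩

/-- the square class of `B` -/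
noncomputable def Ex.gB (h : Ex T m A B) : GG T := h.ex_gB.choose

theorem Ex.gB_spec (h : Ex T m A B) : ∃ c : ℤ, c ≠ 0 ∧ B = UU h.gB * c ^ 2 := h.ex_gB.choose_spec

theorem Ex.gB_ne (h : Ex T m A B) : h.gB ≠ 0 := by
  intro h0
  obtain ⟨c, -, hc⟩ := h.gB_spec
  rw [h0, UU_zero, one_mul] at hc
  exact h.ns ⟨c, by rw [hc]; ring⟩

/-- the kernel of the character of `B` -/
noncomputable def Ex.F (h : Ex T m A B) : Submodule (ZMod 2) (Fm m) := LinearMap.ker (chi h.md h.gB)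

theorem Ex.exists_lam (h : Ex T m A B) : ∃ l : GG T →ₗ[ZMod 2] ZMod 2, l h.gB = 1 := by
  have h1 : h.gB ∉ (⊥ : Submodule (ZMod 2) (GG T)) := by
    rw [Submodule.mem_bot]
    exact h.gB_ne
  obtain ⟨f, hf, -⟩ := Submodule.exists_dual_map_eq_bot_of_notMem h1 inferInstance
  refine ⟨f, ?_⟩
  have : ∀ x : ZMod 2, x ≠ 0 → x = 1 := by decide
  exact this _ hf

/-- a functional which is `1` at the class of `B` -/
noncomputable def Ex.lam (h : Ex T m A B) : GG T →ₗ[ZMod 2] ZMod 2 := h.exists_lam.choose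

theorem Ex.lam_gB (h : Ex T m A B) : h.lam h.gB = 1 := h.exists_lam.choose_spec

/-- the complement of the class of `B` -/
noncomputable def Ex.G (h : Ex T m A B) : Submodule (ZMod 2) (GG T) := LinearMap.ker h.lam

theorem Ex.mem_F (h : Ex T m A B) {e : Fm m} : e ∈ h.F ↔ chi h.md h.gB e = 0 := Iff.rfl

theorem Ex.nd (h : Ex T m A B) {p : ℕ} (hp : p.Prime) (hpT : p ∉ T) : ¬ (p : ℤ) ∣ N2 A B :=
  fun hd => hpT ((h.hT p hp).2 hd)

/-- the active primes -/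
theorem Ex.ac_iff (h : Ex T m A B) {p : ℕ} (hp : p.Prime) (hpT : p ∉ T) :
    Ac A B p ↔ hF m p ∈ h.F := by
  have f : Fact p.Prime := ⟨hp⟩
  have hnd := h.nd hp hpT
  obtain ⟨c, hc0, hc⟩ := h.gB_spec
  have hcp : ¬ (p : ℤ) ∣ c := fun hd => nd_B (A := A) hnd (by
    rw [hc, sq]
    exact ((hd.mul_right c).mul_left _))
  have hBn : ((B : ℤ) : ZMod p) ≠ 0 := by
    rw [Ne, ZMod.intCast_zmod_eq_zero_iff_dvd]
    exact nd_B (A := A) hnd
  have hcn : ((c : ℤ) : ZMod p) ≠ 0 := by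
    rwa [Ne, ZMod.intCast_zmod_eq_zero_iff_dvd]
  have hUn : ((UU h.gB : ℤ) : ZMod p) ≠ 0 := by
    rw [Ne, ZMod.intCast_zmod_eq_zero_iff_dvd]
    exact UU_nd h.md h.gB hp hpT
  have key : IsSquare ((B : ℤ) : ZMod p) ↔ hF m p ∈ h.F := by
    rw [h.mem_F, chi_prime h.md h.gB hp hpT, ← ch_zero]
    have e : ((B : ℤ) : ZMod p) = (c : ZMod p) ^ 2 * ((UU h.gB : ℤ) : ZMod p) := by
      have := congrArg (fun z : ℤ => ((z : ℤ) : ZMod p)) hc
      push_cast at this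
      rw [this]
      ring
    rw [e, ch_sq (IsSquare.sq _) (pow_ne_zero 2 hcn) hUn]
  rw [← key]
  refine ⟨fun ha => ha.sqB, fun hs => ?_⟩
  rcases ac_or_pa h.hsq hp hnd with ha | ha
  · exact ha
  · exact absurd hs ha.nsB

/-- the residue classes of the active and of the passive primes -/
noncomputable def Ex.rc (h : Ex T m A B) : RC where
  m := m
  𝒜 := (range m).filter fun a => a.Coprime m ∧ hF m a ∈ h.F
  ℬ := (range m).filter fun a => a.Coprime m ∧ hF m a ∉ h.F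
  h4 := h.md.h4
  pos := Nat.pos_of_ne_zero h.md.pos
  hA := by
    intro a ha
    obtain ⟨h1, h2, -⟩ := mem_filter.1 ha
    exact ⟨mem_range.1 h1, h2⟩
  h1 := by
    refine mem_filter.2 ⟨mem_range.2 ?_, Nat.coprime_one_left _, ?_⟩
    · have h8 := h.md.h8
      have := Nat.le_of_dvd (Nat.pos_of_ne_zero h.md.pos) h8
      omega
    · rw [hF_one]
      exact Submodule.zero_mem _
  hB := by
    intro a ha
    obtain ⟨h1, h2, -⟩ := mem_filter.1 ha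
    exact ⟨mem_range.1 h1, h2⟩
  dis := by
    rw [Finset.disjoint_left]
    intro a ha hb
    exact (mem_filter.1 hb).2.2 (mem_filter.1 ha).2.2

theorem Ex.notMem_iff (h : Ex T m A B) {p : ℕ} (hp : p.Prime) : p ∉ T ↔ p.Coprime m := by
  rw [Nat.Prime.coprime_iff_not_dvd hp, h.md.dv p hp]

theorem Ex.A_iff (h : Ex T m A B) (p : ℕ) : h.rc.Φ.A p ↔ p.Prime ∧ p ∉ T ∧ hF m p ∈ h.F := by
  have e : h.rc.Φ.A p ↔ p.Prime ∧ p % m ∈ (range m).filter fun a => a.Coprime m ∧ hF m a ∈ h.F :=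
    Iff.rfl
  rw [e]
  refine and_congr_right fun hp => ?_
  rw [mem_filter, mem_range, cop_mod, h.notMem_iff hp]
  constructor
  · rintro ⟨-, h1, h2⟩
    rw [hF_mod h1] at h2
    exact ⟨h1, h2⟩
  · rintro ⟨h1, h2⟩
    refine ⟨Nat.mod_lt _ (Nat.pos_of_ne_zero h.md.pos), h1, ?_⟩
    rw [hF_mod h1]
    exact h2

theorem Ex.P_iff (h : Ex T m A B) (p : ℕ) : h.rc.Φ.P p ↔ p.Prime ∧ p ∉ T := by
  rw [RC.P_iff]
  have e : p % h.rc.m ∈ h.rc.𝒜 ∪ h.rc.ℬ ↔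
      (p % m ∈ (range m).filter (fun a => a.Coprime m ∧ hF m a ∈ h.F) ∨
        p % m ∈ (range m).filter (fun a => a.Coprime m ∧ hF m a ∉ h.F)) := mem_union
  rw [e]
  refine and_congr_right fun hp => ?_
  rw [mem_filter, mem_filter, mem_range, cop_mod, h.notMem_iff hp]
  have hlt : p % m < m := Nat.mod_lt _ (Nat.pos_of_ne_zero h.md.pos)
  tauto

theorem Ex.A_ac (h : Ex T m A B) (p : ℕ) : h.rc.Φ.A p ↔ Ac A B p := by
  rw [h.A_iff]
  constructor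
  · rintro ⟨h1, h2, h3⟩
    exact (h.ac_iff h1 h2).2 h3
  · intro h1
    have h2 : p ∉ T := fun hT => h1.nd ((h.hT p h1.pr).1 hT)
    exact ⟨h1.pr, h2, (h.ac_iff h1.pr h2).1 h1⟩

/-- the class of a prime -/
noncomputable def Ex.h0 (h : Ex T m A B) (p : ℕ) : h.F :=
  if hp : hF m p ∈ h.F then ⟨hF m p, hp⟩ else 0

theorem Ex.h0_pos (h : Ex T m A B) {p : ℕ} (hp : hF m p ∈ h.F) : (h.h0 p : Fm m) = hF m p := by
  unfold Ex.h0
  rw [dif_pos hp]

theorem Ex.h41 (h : Ex T m A B) : 4 * (-1 : ℤ).natAbs ∣ m := by simpa using h.md.h4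

theorem Ex.hv (h : Ex T m A B) (p : ℕ) (hp : h.rc.Φ.A p) :
    (jc m (-1) ∘ₗ h.F.subtype) (h.h0 p) = vm p := by
  obtain ⟨h1, h2, h3⟩ := (h.A_iff p).1 hp
  have hc := (h.notMem_iff h1).1 h2
  show jc m (-1) (h.h0 p : Fm m) = vm p
  rw [h.h0_pos h3, jc_hF h.md.pos h.h41 hc, jv_neg_one h1 (prime_ne_two h.md h1 hc)]

/-- the full system -/
noncomputable def Ex.sf (h : Ex T m A B) (W : Submodule (ZMod 2) (GG T × Fm m)) :
    Sys h.rc.Φ (GG T) h.F where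
  h := h.h0
  f := fd A B
  v := jc m (-1) ∘ₗ h.F.subtype
  χ := (chi h.md).compl₁₂ LinearMap.id h.F.subtype
  𝓛 := W.comap (LinearMap.id.prodMap h.F.subtype)
  hv := h.hv

/-- the system -/
noncomputable def Ex.s0 (h : Ex T m A B) (W : Submodule (ZMod 2) (GG T × Fm m)) :
    Sys h.rc.Φ h.G h.F where
  h := h.h0
  f := fd A B
  v := jc m (-1) ∘ₗ h.F.subtype
  χ := (chi h.md).compl₁₂ h.G.subtype h.F.subtype
  𝓛 := W.comap (h.G.subtype.prodMap h.F.subtype)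
  hv := h.hv

end Pool.Agent.H68.X
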