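import Pool.Agent.H68.A.Cls
import Pool.Agent.H68.A.Plc
import Pool.Agent.H68.L.R_pool_sql_team_seeded_3997aac3.Q44.BN.Vec

/-!
# The two descriptions of the local classes
-/

set_option autoImplicit false

open scoped Classical

namespace Pool.Agent.H68.X

open Pool.Agent.H68.A
open Pool.Agent.R413.TI (CL)
open Q44.TI (Loc SelS Loc_of_sq Loc_real)

theorem W_of_Loc {K : Type} [Field K] [CharZero K] {A B z : ℤ} (hB : B ≠ 0) (hz : z ≠ 0)
    (h : Loc K A B z) : W K (A : K) (B : K) (z : K) := by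
  obtain ⟨x, y, r, hx, hy, hr⟩ := h
  refine (W_iff (by exact_mod_cast hB) (by exact_mod_cast hz)).2 (Or.inr (Or.inr
    ⟨x, y, z * r, hx, by rw [hy]; ring, ?_⟩))
  rw [hr]
  ring

theorem Loc_of_pt {K : Type} [Field K] [CharZero K] {A B z : ℤ} (hz : z ≠ 0)
    (h : ∃ x y w : K, x ≠ 0 ∧ y ^ 2 = x * (x ^ 2 + A * x + B) ∧ z * x = w ^ 2) :
    Loc K A B z := by
  obtain ⟨x, y, w, hx, hy, hw⟩ := h
  have hz' : (z : K) ≠ 0 := by exact_mod_cast hz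
  refine ⟨x, y, w / z, hx, by rw [hy]; ring, ?_⟩
  field_simp
  linear_combination hw

theorem Loc_padic {A B z : ℤ} (hB : B ≠ 0) (hC : A ^ 2 - 4 * B ≠ 0) (hz : z ≠ 0) (p : ℕ)
    [Fact p.Prime] : Loc ℚ_[p] A B z ↔ W ℚ_[p] (A : ℚ_[p]) (B : ℚ_[p]) (z : ℚ_[p]) := by
  refine ⟨W_of_Loc hB hz, fun h => ?_⟩
  rcases (W_iff (by exact_mod_cast hB) (by exact_mod_cast hz)).1 h with h1 | h1 | h1
  · exact Loc_of_sq hB hC hz p (Or.inl h1)
  · exact Loc_of_sq hB hC hz p (Or.inr (by rw [mul_comm]; exact h1))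
  · exact Loc_of_pt hz h1

theorem Loc_neg {A B z : ℤ} (hB : B < 0) (hz : z < 0) : Loc ℝ A B z := by
  have hB' : (B : ℝ) < 0 := by exact_mod_cast hB
  have hz' : (z : ℝ) < 0 := by exact_mod_cast hz
  have hB1 : (B : ℝ) ≤ -1 := by
    have : B ≤ -1 := by omega
    exact_mod_cast this
  obtain ⟨e, he⟩ : ∃ e : ℝ, e = 1 / (2 * (1 + |(A : ℝ)|)) := ⟨_, rfl⟩
  have h1 : 0 ≤ |(A : ℝ)| := abs_nonneg _
  have he0 : 0 < e := by rw [he]; positivity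
  have he1 : e * (2 * (1 + |(A : ℝ)|)) = 1 := by rw [he]; field_simp
  have he2 : e ≤ 1 / 2 := by nlinarith
  have h2 : -|(A : ℝ)| ≤ A := neg_abs_le _
  have h3 : (A : ℝ) ≤ |(A : ℝ)| := le_abs_self _
  have hneg : (-e) ^ 2 + (A : ℝ) * (-e) + B < 0 := by nlinarith
  have hpos : 0 ≤ (-e) * ((-e) ^ 2 + (A : ℝ) * (-e) + B) := by nlinarith
  refine ⟨-e, √((-e) * ((-e) ^ 2 + (A : ℝ) * (-e) + B)), √((-e) / z), by linarith, ?_, ?_⟩
  · rw [Real.sq_sqrt hpos]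
    ring
  · rw [Real.sq_sqrt (div_nonneg_of_nonpos (by linarith) hz'.le), mul_div_cancel₀ _ hz'.ne]

theorem Loc_real_iff {A B z : ℤ} (hB : B ≠ 0) (hC : A ^ 2 - 4 * B ≠ 0) (hz : z ≠ 0) :
    Loc ℝ A B z ↔ W ℝ (A : ℝ) (B : ℝ) (z : ℝ) := by
  refine ⟨W_of_Loc hB hz, fun h => ?_⟩
  rcases (W_iff (by exact_mod_cast hB) (by exact_mod_cast hz)).1 h with h1 | h1 | h1
  · have h2 : (0 : ℝ) ≤ z := h1.nonneg
    have h3 : 0 ≤ z := by exact_mod_cast h2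
    exact Loc_real hB hC (lt_of_le_of_ne h3 hz.symm)
  · have h2 : (0 : ℝ) ≤ B * z := h1.nonneg
    have h3 : 0 ≤ B * z := by exact_mod_cast h2
    rcases lt_or_gt_of_ne hz with h4 | h4
    · refine Loc_neg ?_ h4
      by_contra h5
      push Not at h5
      have h6 : 0 < B := lt_of_le_of_ne h5 hB.symm
      nlinarith
    · exact Loc_real hB hC h4
  · exact Loc_of_pt hz h1

theorem CL_eq {A B : ℤ} (hB : B ≠ 0) (hC : A ^ 2 - 4 * B ≠ 0) : CL A B = SelS A B := by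
  ext z
  rw [CL_iff hB]
  constructor
  · rintro ⟨h1, h2, h3⟩
    exact ⟨h1, fun p _ => (Loc_padic hB hC h1.ne_zero p).2 (h3 p), (Loc_real_iff hB hC h1.ne_zero).2 h2⟩
  · rintro ⟨h1, h2, h3⟩
    exact ⟨h1, (Loc_real_iff hB hC h1.ne_zero).1 h3, fun p _ => (Loc_padic hB hC h1.ne_zero p).1 (h2 p)⟩

/-- twists by numbers with a square product -/
theorem W_tw2 {K : Type} [Field K] {a b D D' z : K} (hb : b ≠ 0) (hz : z ≠ 0) (hD : D ≠ 0)
    (hD' : D' ≠ 0) (h : IsSquare (D * D')) (hw : W K (a * D) (b * D ^ 2) z) :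
    W K (a * D') (b * D' ^ 2) z := by
  have h1 := (W_tw (a := a * D) (b := b * D ^ 2) (mul_ne_zero hb (pow_ne_zero 2 hD)) hz
    (mul_ne_zero hD hD') h).2 hw
  have e1 : a * D * (D * D') = a * D' * D ^ 2 := by ring
  have e2 : b * D ^ 2 * (D * D') ^ 2 = b * D' ^ 2 * D ^ 4 := by ring
  rw [e1, e2, W_twist (mul_ne_zero hb (pow_ne_zero 2 hD')) hz hD] at h1
  exact h1

end Pool.Agent.H68.X
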